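import Pool.Agent.FCK.Sum4

set_option autoImplicit false
set_option linter.unusedSectionVars false

/-!
# One root and four free points: rows with three and with two leading points
-/

namespace Pool.Agent.AKC

open Finset Pool.Agent.FCK

variable {ι : Type*} [Fintype ι] [LinearOrder ι]

/-- the four ways to split off one point -/
def sp3 (A : ι → ι → ι → ι → ℝ) (p q r s : ι) : ℝ :=
  A p q r s + A p q s r + A p r s q + A q r s p

/-- the six ways to split off a pair -/
def sp2 (A : ι → ι → ι → ι → ℝ) (p q r s : ι) : ℝ :=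
  A p q r s + A p r q s + A p s q r + A q r p s + A q s p r + A r s p q

private theorem pt3 (g : ℝ) (a b c d : ι) :
    (if a < b ∧ b < c ∧ d ≠ a ∧ d ≠ b ∧ d ≠ c then g else 0) =
      (if a < b ∧ b < c ∧ c < d then g else 0) +
      (if a < b ∧ b < d ∧ d < c then g else 0) +
      (if a < d ∧ d < b ∧ b < c then g else 0) +
      (if d < a ∧ a < b ∧ b < c then g else 0) := by
  by_cases h : a < b ∧ b < c ∧ d ≠ a ∧ d ≠ b ∧ d ≠ c
  · obtain ⟨h1, h2, h3, h4, h5⟩ := h
    rw [if_pos ⟨h1, h2, h3, h4, h5⟩]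
    rcases lt_or_gt_of_ne h3 with k3 | k3 <;> rcases lt_or_gt_of_ne h4 with k4 | k4 <;>
      rcases lt_or_gt_of_ne h5 with k5 | k5 <;>
      first
      | (exfalso; order)
      | simp only [h1, h2, k3, k4, k5, not_lt_of_gt k3, not_lt_of_gt k4, not_lt_of_gt k5,
          and_true, and_false, if_true, if_false, add_zero,
          zero_add, and_self]
  · rw [if_neg h]
    symm
    have e : ∀ {P : Prop} [Decidable P], (P → a < b ∧ b < c ∧ d ≠ a ∧ d ≠ b ∧ d ≠ c) →
        (if P then g else 0) = 0 := fun hP => if_neg (fun h' => h (hP h'))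
    rw [e (P := a < b ∧ b < c ∧ c < d) (by rintro ⟨x, y, z⟩; refine ⟨?_, ?_, ?_, ?_, ?_⟩ <;> order),
      e (P := a < b ∧ b < d ∧ d < c) (by rintro ⟨x, y, z⟩; refine ⟨?_, ?_, ?_, ?_, ?_⟩ <;> order),
      e (P := a < d ∧ d < b ∧ b < c) (by rintro ⟨x, y, z⟩; refine ⟨?_, ?_, ?_, ?_, ?_⟩ <;> order),
      e (P := d < a ∧ a < b ∧ b < c) (by rintro ⟨x, y, z⟩; refine ⟨?_, ?_, ?_, ?_, ?_⟩ <;> order)]
    simp

/-- triples `a < b < c` and one further point -/
theorem L31 (g : ι → ι → ι → ι → ℝ) :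
    S4 (fun a b c d => if a < b ∧ b < c ∧ d ≠ a ∧ d ≠ b ∧ d ≠ c then g a b c d else 0) =
      I4 (sp3 g) := by
  have h : I4 (sp3 g) = I4 (fun p q r s => g p q r s + g p q s r + g p r s q + g q r s p) := rfl
  rw [h]
  simp only [I4_add]
  rw [← ren0, ← ren1, ← ren3, ← ren7]
  rw [← S4_add, ← S4_add, ← S4_add]
  congr 1
  funext a b c d
  exact pt3 _ a b c d

private theorem pt2 (g : ℝ) (a b c d : ι) :
    (if a < b ∧ c < d ∧ c ≠ a ∧ c ≠ b ∧ d ≠ a ∧ d ≠ b then g else 0) =
      (if a < b ∧ b < c ∧ c < d then g else 0) +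
      (if a < c ∧ c < b ∧ b < d then g else 0) +
      (if a < c ∧ c < d ∧ d < b then g else 0) +
      (if c < a ∧ a < b ∧ b < d then g else 0) +
      (if c < a ∧ a < d ∧ d < b then g else 0) +
      (if c < d ∧ d < a ∧ a < b then g else 0) := by
  by_cases h : a < b ∧ c < d ∧ c ≠ a ∧ c ≠ b ∧ d ≠ a ∧ d ≠ b
  · obtain ⟨h1, h2, h3, h4, h5, h6⟩ := h
    rw [if_pos ⟨h1, h2, h3, h4, h5, h6⟩]
    rcases lt_or_gt_of_ne h3 with k3 | k3 <;> rcases lt_or_gt_of_ne h4 with k4 | k4 <;>
      rcases lt_or_gt_of_ne h5 with k5 | k5 <;> rcases lt_or_gt_of_ne h6 with k6 | k6 <;>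
      first
      | (exfalso; order)
      | simp only [h1, h2, k3, k4, k5, k6, not_lt_of_gt k3, not_lt_of_gt k4, not_lt_of_gt k5,
          not_lt_of_gt k6, and_true, and_false, if_true, if_false, add_zero,
          zero_add, and_self]
  · rw [if_neg h]
    symm
    have e : ∀ {P : Prop} [Decidable P], (P → a < b ∧ c < d ∧ c ≠ a ∧ c ≠ b ∧ d ≠ a ∧ d ≠ b) →
        (if P then g else 0) = 0 := fun hP => if_neg (fun h' => h (hP h'))
    rw [e (P := a < b ∧ b < c ∧ c < d) (by rintro ⟨x, y, z⟩; refine ⟨?_, ?_, ?_, ?_, ?_, ?_⟩ <;> order),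
      e (P := a < c ∧ c < b ∧ b < d) (by rintro ⟨x, y, z⟩; refine ⟨?_, ?_, ?_, ?_, ?_, ?_⟩ <;> order),
      e (P := a < c ∧ c < d ∧ d < b) (by rintro ⟨x, y, z⟩; refine ⟨?_, ?_, ?_, ?_, ?_, ?_⟩ <;> order),
      e (P := c < a ∧ a < b ∧ b < d) (by rintro ⟨x, y, z⟩; refine ⟨?_, ?_, ?_, ?_, ?_, ?_⟩ <;> order),
      e (P := c < a ∧ a < d ∧ d < b) (by rintro ⟨x, y, z⟩; refine ⟨?_, ?_, ?_, ?_, ?_, ?_⟩ <;> order),
      e (P := c < d ∧ d < a ∧ a < b) (by rintro ⟨x, y, z⟩; refine ⟨?_, ?_, ?_, ?_, ?_, ?_⟩ <;> order)]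
    simp

/-- pairs `a < b` and disjoint pairs `c < d` -/
theorem L22 (g : ι → ι → ι → ι → ℝ) :
    S4 (fun a b c d => if a < b ∧ c < d ∧ c ≠ a ∧ c ≠ b ∧ d ≠ a ∧ d ≠ b then g a b c d else 0) =
      I4 (sp2 g) := by
  have h : I4 (sp2 g) = I4 (fun p q r s => g p q r s + g p r q s + g p s q r + g q r p s +
    g q s p r + g r s p q) := rfl
  rw [h]
  simp only [I4_add]
  rw [← ren0, ← ren2, ← ren4, ← ren6, ← ren8, ← ren10]
  rw [← S4_add, ← S4_add, ← S4_add, ← S4_add, ← S4_add]
  congr 1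
  funext a b c d
  exact pt2 _ a b c d

theorem S4_le {f g : ι → ι → ι → ι → ℝ} (h : ∀ a b c d, f a b c d ≤ g a b c d) : S4 f ≤ S4 g :=
  sum_le_sum fun _ _ => sum_le_sum fun _ _ => sum_le_sum fun _ _ => sum_le_sum fun _ _ => h _ _ _ _

theorem S4_sub (f g : ι → ι → ι → ι → ℝ) :
    S4 (fun p q r s => f p q r s - g p q r s) = S4 f - S4 g := by
  simp only [S4, sum_sub_distrib]

theorem I4_le {f g : ι → ι → ι → ι → ℝ}
    (h : ∀ p q r s, p < q → q < r → r < s → f p q r s ≤ g p q r s) : I4 f ≤ I4 g := by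
  refine S4_le fun p q r s => ?_
  split_ifs with h1
  · exact h p q r s h1.1 h1.2.1 h1.2.2
  · exact le_refl _

private theorem sum_single4 (B : ℝ) (k : ι → ι → ι → ι) :
    ∑ a : ι, ∑ b : ι, ∑ c : ι, ∑ d : ι, (if d = k a b c then B else 0) =
      B * (Fintype.card ι : ℝ) ^ 3 := by
  simp only [sum_ite_eq', mem_univ, if_true, sum_const, card_univ, nsmul_eq_mul]
  ring

/-- rows with three leading points -/
theorem I4_sp3_ge (A : ι → ι → ι → ι → ℝ) (B E : ℝ) (hB : ∀ p q r x, |A p q r x| ≤ B)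
    (h : -E ≤ S4 fun p q r x => if p < q ∧ q < r then A p q r x else 0) :
    -(E + 3 * B * (Fintype.card ι : ℝ) ^ 3) ≤ I4 (sp3 A) := by
  rw [← L31]
  have h1 : S4 (fun p q r x => (if p < q ∧ q < r then A p q r x else 0) -
      (if p < q ∧ q < r ∧ x ≠ p ∧ x ≠ q ∧ x ≠ r then A p q r x else 0)) ≤
      S4 (fun p q r x : ι => (if x = p then B else 0) + (if x = q then B else 0) +
        (if x = r then B else 0)) := by
    refine S4_le fun p q r x => ?_
    have hB0 : 0 ≤ B := (abs_nonneg _).trans (hB p q r x)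
    have hA := (abs_le.1 (hB p q r x)).2
    by_cases hs : p < q ∧ q < r
    · by_cases hx : x ≠ p ∧ x ≠ q ∧ x ≠ r
      · rw [if_pos hs, if_pos ⟨hs.1, hs.2, hx⟩, sub_self]
        positivity
      · rw [if_pos hs, if_neg (fun h => hx h.2.2), sub_zero]
        by_cases h1 : x = p
        · rw [if_pos h1]
          have : 0 ≤ (if x = q then B else 0) := by split_ifs <;> linarith
          have : 0 ≤ (if x = r then B else 0) := by split_ifs <;> linarith
          linarith
        · by_cases h2 : x = q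
          · rw [if_neg h1, if_pos h2]
            have : 0 ≤ (if x = r then B else 0) := by split_ifs <;> linarith
            linarith
          · have h3 : x = r := by
              by_contra h3
              exact hx ⟨h1, h2, h3⟩
            rw [if_neg h1, if_neg h2, if_pos h3]
            linarith
    · rw [if_neg hs, if_neg (fun h => hs ⟨h.1, h.2.1⟩), sub_self]
      positivity
  rw [S4_sub] at h1
  have h2 : S4 (fun p q r x : ι => (if x = p then B else 0) + (if x = q then B else 0) +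
        (if x = r then B else 0)) = 3 * B * (Fintype.card ι : ℝ) ^ 3 := by
    rw [S4_add, S4_add]
    have e1 := sum_single4 (ι := ι) B (fun a _ _ => a)
    have e2 := sum_single4 (ι := ι) B (fun _ b _ => b)
    have e3 := sum_single4 (ι := ι) B (fun _ _ c => c)
    unfold S4
    rw [e1, e2, e3]
    ring
  rw [h2] at h1
  linarith

/-- rows with two leading points -/
theorem I4_sp2_ge (A : ι → ι → ι → ι → ℝ) (B E : ℝ) (hB : ∀ p q r x, |A p q r x| ≤ B)
    (h : -E ≤ S4 fun i j r t => if i < j ∧ r < t then A i j r t else 0) :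
    -(E + 4 * B * (Fintype.card ι : ℝ) ^ 3) ≤ I4 (sp2 A) := by
  rw [← L22]
  have h1 : S4 (fun p q r x => (if p < q ∧ r < x then A p q r x else 0) -
      (if p < q ∧ r < x ∧ r ≠ p ∧ r ≠ q ∧ x ≠ p ∧ x ≠ q then A p q r x else 0)) ≤
      S4 (fun p q r x : ι => (if r = p then B else 0) + (if r = q then B else 0) +
        (if x = p then B else 0) + (if x = q then B else 0)) := by
    refine S4_le fun p q r x => ?_
    have hB0 : 0 ≤ B := (abs_nonneg _).trans (hB p q r x)
    have hA := (abs_le.1 (hB p q r x)).2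
    have g : ∀ P : Prop, ∀ [Decidable P], 0 ≤ (if P then B else 0) := by
      intro P _
      split_ifs <;> linarith
    by_cases hs : p < q ∧ r < x
    · by_cases hx : r ≠ p ∧ r ≠ q ∧ x ≠ p ∧ x ≠ q
      · rw [if_pos hs, if_pos ⟨hs.1, hs.2, hx⟩, sub_self]
        have := g (r = p)
        have := g (r = q)
        have := g (x = p)
        have := g (x = q)
        linarith
      · rw [if_pos hs, if_neg (fun h => hx h.2.2), sub_zero]
        have g1 := g (r = p)
        have g2 := g (r = q)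
        have g3 := g (x = p)
        have g4 := g (x = q)
        by_cases h1 : r = p
        · rw [if_pos h1] at g1 ⊢
          linarith
        · by_cases h2 : r = q
          · rw [if_pos h2] at g2 ⊢
            linarith
          · by_cases h3 : x = p
            · rw [if_pos h3] at g3 ⊢
              linarith
            · have h4 : x = q := by
                by_contra h4
                exact hx ⟨h1, h2, h3, h4⟩
              rw [if_pos h4] at g4 ⊢
              linarith
    · rw [if_neg hs, if_neg (fun h => hs ⟨h.1, h.2.1⟩), sub_self]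
      have := g (r = p)
      have := g (r = q)
      have := g (x = p)
      have := g (x = q)
      linarith
  rw [S4_sub] at h1
  have h2 : S4 (fun p q r x : ι => (if r = p then B else 0) + (if r = q then B else 0) +
        (if x = p then B else 0) + (if x = q then B else 0)) =
        4 * B * (Fintype.card ι : ℝ) ^ 3 := by
    rw [S4_add, S4_add, S4_add]
    have e1 := sum_single4 (ι := ι) B (fun a _ _ => a)
    have e2 := sum_single4 (ι := ι) B (fun _ b _ => b)
    have e3 : S4 (fun p q r x : ι => if r = p then B else 0) = B * (Fintype.card ι : ℝ) ^ 3 := by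
      rw [S4_t3]
      exact e1
    have e4 : S4 (fun p q r x : ι => if r = q then B else 0) = B * (Fintype.card ι : ℝ) ^ 3 := by
      rw [S4_t3]
      exact e2
    have e1' : S4 (fun p q r x : ι => if x = p then B else 0) = B * (Fintype.card ι : ℝ) ^ 3 := e1
    have e2' : S4 (fun p q r x : ι => if x = q then B else 0) = B * (Fintype.card ι : ℝ) ^ 3 := e2
    rw [e1', e2', e3, e4]
    ring
  rw [h2] at h1
  linarith

/-- **One root, four free points**: the rows cannot be negative on average. -/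
theorem rows_ge (A3 A2 : ι → ι → ι → ι → ℝ) (B3 B2 E3 E2 : ℝ)
    (hB3 : ∀ p q r x, |A3 p q r x| ≤ B3) (hB2 : ∀ p q r x, |A2 p q r x| ≤ B2)
    (h3 : -E3 ≤ S4 fun p q r x => if p < q ∧ q < r then A3 p q r x else 0)
    (h2 : -E2 ≤ S4 fun i j r t => if i < j ∧ r < t then A2 i j r t else 0) :
    -(E3 + E2 + (3 * B3 + 4 * B2) * (Fintype.card ι : ℝ) ^ 3) ≤
      I4 (fun p q r s => sp3 A3 p q r s + sp2 A2 p q r s) := by
  rw [I4_add]
  have k1 := I4_sp3_ge A3 B3 E3 hB3 h3
  have k2 := I4_sp2_ge A2 B2 E2 hB2 h2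
  have e1 : I4 (fun p q r s => sp3 A3 p q r s) = I4 (sp3 A3) := rfl
  have e2 : I4 (fun p q r s => sp2 A2 p q r s) = I4 (sp2 A2) := rfl
  rw [e1, e2]
  linarith

end Pool.Agent.AKC
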