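import Pool.Agent.AKC.Cell

set_option autoImplicit false
set_option linter.unusedSectionVars false
set_option linter.unusedSimpArgs false

/-!
# Sums over five points of a linearly ordered set: triples and pairs
-/

namespace Pool.Agent.AKC

open Finset Pool.Agent.FCK

variable {ι : Type*} [Fintype ι] [LinearOrder ι]

/-- sum over all quintuples -/
def S5 (f : ι → ι → ι → ι → ι → ℝ) : ℝ := ∑ p, ∑ q, ∑ r, ∑ s, ∑ t, f p q r s t

theorem S5_add (f g : ι → ι → ι → ι → ι → ℝ) :
    S5 (fun p q r s t => f p q r s t + g p q r s t) = S5 f + S5 g := by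
  simp only [S5, sum_add_distrib]

theorem S5_sub (f g : ι → ι → ι → ι → ι → ℝ) :
    S5 (fun p q r s t => f p q r s t - g p q r s t) = S5 f - S5 g := by
  simp only [S5, sum_sub_distrib]

theorem S5_t1 (f : ι → ι → ι → ι → ι → ℝ) : S5 f = S5 (fun p q r s t => f q p r s t) := sum_comm

theorem S5_t2 (f : ι → ι → ι → ι → ι → ℝ) : S5 f = S5 (fun p q r s t => f p r q s t) :=
  sum_congr rfl fun _ _ => sum_comm

theorem S5_t3 (f : ι → ι → ι → ι → ι → ℝ) : S5 f = S5 (fun p q r s t => f p q s r t) :=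
  sum_congr rfl fun _ _ => sum_congr rfl fun _ _ => sum_comm

theorem S5_t4 (f : ι → ι → ι → ι → ι → ℝ) : S5 f = S5 (fun p q r s t => f p q r t s) :=
  sum_congr rfl fun _ _ => sum_congr rfl fun _ _ => sum_congr rfl fun _ _ => sum_comm

/-- sum over the increasing quintuples -/
def I5 (f : ι → ι → ι → ι → ι → ℝ) : ℝ :=
  S5 (fun p q r s t => if p < q ∧ q < r ∧ r < s ∧ s < t then f p q r s t else 0)

theorem I5_add (f g : ι → ι → ι → ι → ι → ℝ) :
    I5 (fun p q r s t => f p q r s t + g p q r s t) = I5 f + I5 g := by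
  rw [I5, I5, I5, ← S5_add]
  congr 1
  funext p q r s t
  split_ifs <;> simp

theorem S5_le {f g : ι → ι → ι → ι → ι → ℝ} (h : ∀ a b c d e, f a b c d e ≤ g a b c d e) :
    S5 f ≤ S5 g :=
  sum_le_sum fun _ _ => sum_le_sum fun _ _ => sum_le_sum fun _ _ => sum_le_sum fun _ _ =>
    sum_le_sum fun _ _ => h _ _ _ _ _

/-- the ten ways to split a quintuple in a triple and a pair -/
def sp5 (A : ι → ι → ι → ι → ι → ℝ) (p q r s t : ι) : ℝ :=
  A p q r s t + A p q s r t + A p q t r s + A p r s q t + A p r t q s + A p s t q r +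
    A q r s p t + A q r t p s + A q s t p r + A r s t p q

theorem rn0 (g : ι → ι → ι → ι → ι → ℝ) :
    S5 (fun a b c y z => if a < b ∧ b < c ∧ c < y ∧ y < z then g a b c y z else 0) =
      I5 (fun p q r s t => g p q r s t) := by
  rfl

theorem rn1 (g : ι → ι → ι → ι → ι → ℝ) :
    S5 (fun a b c y z => if a < b ∧ b < y ∧ y < c ∧ c < z then g a b c y z else 0) =
      I5 (fun p q r s t => g p q s r t) := by
  rw [S5_t3]
  rfl

theorem rn2 (g : ι → ι → ι → ι → ι → ℝ) :
    S5 (fun a b c y z => if a < b ∧ b < y ∧ y < z ∧ z < c then g a b c y z else 0) =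
      I5 (fun p q r s t => g p q t r s) := by
  rw [S5_t3, S5_t4]
  rfl

theorem rn3 (g : ι → ι → ι → ι → ι → ℝ) :
    S5 (fun a b c y z => if a < y ∧ y < b ∧ b < c ∧ c < z then g a b c y z else 0) =
      I5 (fun p q r s t => g p r s q t) := by
  rw [S5_t3, S5_t2]
  rfl

theorem rn4 (g : ι → ι → ι → ι → ι → ℝ) :
    S5 (fun a b c y z => if a < y ∧ y < b ∧ b < z ∧ z < c then g a b c y z else 0) =
      I5 (fun p q r s t => g p r t q s) := by
  rw [S5_t3, S5_t2, S5_t4]
  rfl

theorem rn5 (g : ι → ι → ι → ι → ι → ℝ) :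
    S5 (fun a b c y z => if a < y ∧ y < z ∧ z < b ∧ b < c then g a b c y z else 0) =
      I5 (fun p q r s t => g p s t q r) := by
  rw [S5_t3, S5_t2, S5_t4, S5_t3]
  rfl

theorem rn6 (g : ι → ι → ι → ι → ι → ℝ) :
    S5 (fun a b c y z => if y < a ∧ a < b ∧ b < c ∧ c < z then g a b c y z else 0) =
      I5 (fun p q r s t => g q r s p t) := by
  rw [S5_t3, S5_t2, S5_t1]
  rfl

theorem rn7 (g : ι → ι → ι → ι → ι → ℝ) :
    S5 (fun a b c y z => if y < a ∧ a < b ∧ b < z ∧ z < c then g a b c y z else 0) =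
      I5 (fun p q r s t => g q r t p s) := by
  rw [S5_t3, S5_t2, S5_t1, S5_t4]
  rfl

theorem rn8 (g : ι → ι → ι → ι → ι → ℝ) :
    S5 (fun a b c y z => if y < a ∧ a < z ∧ z < b ∧ b < c then g a b c y z else 0) =
      I5 (fun p q r s t => g q s t p r) := by
  rw [S5_t3, S5_t2, S5_t1, S5_t4, S5_t3]
  rfl

theorem rn9 (g : ι → ι → ι → ι → ι → ℝ) :
    S5 (fun a b c y z => if y < z ∧ z < a ∧ a < b ∧ b < c then g a b c y z else 0) =
      I5 (fun p q r s t => g r s t p q) := by
  rw [S5_t3, S5_t2, S5_t1, S5_t4, S5_t3, S5_t2]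
  rfl

/-- the pair is disjoint from the triple -/
def Dj (a b c y z : ι) : Prop := y ≠ a ∧ y ≠ b ∧ y ≠ c ∧ z ≠ a ∧ z ≠ b ∧ z ≠ c

instance (a b c y z : ι) : Decidable (Dj a b c y z) := by unfold Dj; infer_instance

private theorem pt5 (g : ℝ) (a b c y z : ι) :
    (if a < b ∧ b < c ∧ y < z ∧ Dj a b c y z then g else 0) =
      (if a < b ∧ b < c ∧ c < y ∧ y < z then g else 0) +
      (if a < b ∧ b < y ∧ y < c ∧ c < z then g else 0) +
      (if a < b ∧ b < y ∧ y < z ∧ z < c then g else 0) +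
      (if a < y ∧ y < b ∧ b < c ∧ c < z then g else 0) +
      (if a < y ∧ y < b ∧ b < z ∧ z < c then g else 0) +
      (if a < y ∧ y < z ∧ z < b ∧ b < c then g else 0) +
      (if y < a ∧ a < b ∧ b < c ∧ c < z then g else 0) +
      (if y < a ∧ a < b ∧ b < z ∧ z < c then g else 0) +
      (if y < a ∧ a < z ∧ z < b ∧ b < c then g else 0) +
      (if y < z ∧ z < a ∧ a < b ∧ b < c then g else 0) := by
  by_cases h : a < b ∧ b < c ∧ y < z ∧ Dj a b c y z
  · rw [if_pos h]
    obtain ⟨h1, h2, h3, k1, k2, k3, k4, k5, k6⟩ := h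
    rcases lt_or_gt_of_ne k1 with j1 | j1
    · rcases lt_or_gt_of_ne k4 with j4 | j4
      · have e1 : z < b := j4.trans h1
        have e2 : y < b := j1.trans h1
        simp only [h1, h2, h3, j1, j4, e1, e2, not_lt_of_gt j1, not_lt_of_gt j4, not_lt_of_gt e1,
          not_lt_of_gt e2, not_lt_of_gt (e1.trans h2), not_lt_of_gt (e2.trans h2), and_true,
          and_false, false_and, true_and, if_true, if_false, add_zero, zero_add]
      · rcases lt_or_gt_of_ne k5 with j5 | j5
        · have e2 : y < b := j1.trans h1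
          simp only [h1, h2, h3, j1, j4, j5, e2, not_lt_of_gt j1, not_lt_of_gt j4,
            not_lt_of_gt j5, not_lt_of_gt e2, not_lt_of_gt (j5.trans h2),
            not_lt_of_gt (e2.trans h2), and_true,
            and_false, false_and, true_and, if_true, if_false, add_zero, zero_add]
        · have e2 : y < b := j1.trans h1
          rcases lt_or_gt_of_ne k6 with j6 | j6
          · simp only [h1, h2, h3, j1, j4, j5, j6, e2, not_lt_of_gt j1, not_lt_of_gt j4,
              not_lt_of_gt j5, not_lt_of_gt j6, not_lt_of_gt e2,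
              not_lt_of_gt (e2.trans h2), and_true,
              and_false, false_and, true_and, if_true, if_false, add_zero, zero_add]
          · simp only [h1, h2, h3, j1, j4, j5, j6, e2, not_lt_of_gt j1, not_lt_of_gt j4,
              not_lt_of_gt j5, not_lt_of_gt j6, not_lt_of_gt e2,
              not_lt_of_gt (e2.trans h2), and_true,
              and_false, false_and, true_and, if_true, if_false, add_zero, zero_add]
    · have f1 : a < z := j1.trans h3
      rcases lt_or_gt_of_ne k2 with j2 | j2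
      · rcases lt_or_gt_of_ne k5 with j5 | j5
        · simp only [h1, h2, h3, j1, j2, j5, f1, not_lt_of_gt j1, not_lt_of_gt j2,
            not_lt_of_gt j5, not_lt_of_gt f1, not_lt_of_gt (j5.trans h2),
            not_lt_of_gt (j2.trans h2), and_true,
            and_false, false_and, true_and, if_true, if_false, add_zero, zero_add]
        · rcases lt_or_gt_of_ne k6 with j6 | j6
          · simp only [h1, h2, h3, j1, j2, j5, j6, f1, not_lt_of_gt j1, not_lt_of_gt j2,
              not_lt_of_gt j5, not_lt_of_gt j6, not_lt_of_gt f1,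
              not_lt_of_gt (j2.trans h2), and_true,
              and_false, false_and, true_and, if_true, if_false, add_zero, zero_add]
          · simp only [h1, h2, h3, j1, j2, j5, j6, f1, not_lt_of_gt j1, not_lt_of_gt j2,
              not_lt_of_gt j5, not_lt_of_gt j6, not_lt_of_gt f1,
              not_lt_of_gt (j2.trans h2), and_true,
              and_false, false_and, true_and, if_true, if_false, add_zero, zero_add]
      · have f2 : b < z := j2.trans h3
        rcases lt_or_gt_of_ne k3 with j3 | j3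
        · rcases lt_or_gt_of_ne k6 with j6 | j6
          · simp only [h1, h2, h3, j1, j2, j3, j6, f1, f2, not_lt_of_gt j1, not_lt_of_gt j2,
              not_lt_of_gt j3, not_lt_of_gt j6, not_lt_of_gt f1, not_lt_of_gt f2, and_true,
              and_false, false_and, true_and, if_true, if_false, add_zero, zero_add]
          · simp only [h1, h2, h3, j1, j2, j3, j6, f1, f2, not_lt_of_gt j1, not_lt_of_gt j2,
              not_lt_of_gt j3, not_lt_of_gt j6, not_lt_of_gt f1, not_lt_of_gt f2, and_true,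
              and_false, false_and, true_and, if_true, if_false, add_zero, zero_add]
        · have f3 : c < z := j3.trans h3
          simp only [h1, h2, h3, j1, j2, j3, f3, f1, f2, not_lt_of_gt j1, not_lt_of_gt j2,
            not_lt_of_gt j3, not_lt_of_gt f3, not_lt_of_gt f1, not_lt_of_gt f2, and_true,
            and_false, false_and, true_and, if_true, if_false, add_zero, zero_add]
  · rw [if_neg h]
    symm
    have e : ∀ {P : Prop} [Decidable P], (P → a < b ∧ b < c ∧ y < z ∧ Dj a b c y z) →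
        (if P then g else 0) = 0 := fun hP => if_neg (fun h' => h (hP h'))
    unfold Dj at e
    rw [e (P := a < b ∧ b < c ∧ c < y ∧ y < z) (by
        rintro ⟨x1, x2, x3, x4⟩; refine ⟨?_, ?_, ?_, ?_, ?_, ?_, ?_, ?_, ?_⟩ <;> order),
      e (P := a < b ∧ b < y ∧ y < c ∧ c < z) (by
        rintro ⟨x1, x2, x3, x4⟩; refine ⟨?_, ?_, ?_, ?_, ?_, ?_, ?_, ?_, ?_⟩ <;> order),
      e (P := a < b ∧ b < y ∧ y < z ∧ z < c) (by
        rintro ⟨x1, x2, x3, x4⟩; refine ⟨?_, ?_, ?_, ?_, ?_, ?_, ?_, ?_, ?_⟩ <;> order),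
      e (P := a < y ∧ y < b ∧ b < c ∧ c < z) (by
        rintro ⟨x1, x2, x3, x4⟩; refine ⟨?_, ?_, ?_, ?_, ?_, ?_, ?_, ?_, ?_⟩ <;> order),
      e (P := a < y ∧ y < b ∧ b < z ∧ z < c) (by
        rintro ⟨x1, x2, x3, x4⟩; refine ⟨?_, ?_, ?_, ?_, ?_, ?_, ?_, ?_, ?_⟩ <;> order),
      e (P := a < y ∧ y < z ∧ z < b ∧ b < c) (by
        rintro ⟨x1, x2, x3, x4⟩; refine ⟨?_, ?_, ?_, ?_, ?_, ?_, ?_, ?_, ?_⟩ <;> order),
      e (P := y < a ∧ a < b ∧ b < c ∧ c < z) (by
        rintro ⟨x1, x2, x3, x4⟩; refine ⟨?_, ?_, ?_, ?_, ?_, ?_, ?_, ?_, ?_⟩ <;> order),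
      e (P := y < a ∧ a < b ∧ b < z ∧ z < c) (by
        rintro ⟨x1, x2, x3, x4⟩; refine ⟨?_, ?_, ?_, ?_, ?_, ?_, ?_, ?_, ?_⟩ <;> order),
      e (P := y < a ∧ a < z ∧ z < b ∧ b < c) (by
        rintro ⟨x1, x2, x3, x4⟩; refine ⟨?_, ?_, ?_, ?_, ?_, ?_, ?_, ?_, ?_⟩ <;> order),
      e (P := y < z ∧ z < a ∧ a < b ∧ b < c) (by
        rintro ⟨x1, x2, x3, x4⟩; refine ⟨?_, ?_, ?_, ?_, ?_, ?_, ?_, ?_, ?_⟩ <;> order)]
    simp

/-- triples `a < b < c` and disjoint pairs `y < z` -/
theorem L32 (g : ι → ι → ι → ι → ι → ℝ) :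
    S5 (fun a b c y z => if a < b ∧ b < c ∧ y < z ∧ Dj a b c y z then g a b c y z else 0) =
      I5 (sp5 g) := by
  have h : I5 (sp5 g) = I5 (fun p q r s t => g p q r s t + g p q s r t + g p q t r s +
    g p r s q t + g p r t q s + g p s t q r + g q r s p t + g q r t p s + g q s t p r +
    g r s t p q) := rfl
  rw [h]
  simp only [I5_add]
  rw [← rn0, ← rn1, ← rn2, ← rn3, ← rn4, ← rn5, ← rn6, ← rn7, ← rn8, ← rn9]
  rw [← S5_add, ← S5_add, ← S5_add, ← S5_add, ← S5_add, ← S5_add, ← S5_add, ← S5_add, ← S5_add]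
  congr 1
  funext a b c y z
  exact pt5 _ a b c y z

private theorem sum_single5 (B : ℝ) (k : ι → ι → ι → ι → ι) :
    ∑ a : ι, ∑ b : ι, ∑ c : ι, ∑ d : ι, ∑ e : ι, (if e = k a b c d then B else 0) =
      B * (Fintype.card ι : ℝ) ^ 4 := by
  simp only [sum_ite_eq', mem_univ, if_true, sum_const, card_univ, nsmul_eq_mul]
  ring

/-- rows with a leading triple -/
theorem I5_sp5_ge (A : ι → ι → ι → ι → ι → ℝ) (B E : ℝ) (hB : ∀ a b c y z, |A a b c y z| ≤ B)
    (h : -E ≤ S5 fun a b c y z => if a < b ∧ b < c ∧ y < z then A a b c y z else 0) :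
    -(E + 6 * B * (Fintype.card ι : ℝ) ^ 4) ≤ I5 (sp5 A) := by
  rw [← L32]
  have h1 : S5 (fun a b c y z => (if a < b ∧ b < c ∧ y < z then A a b c y z else 0) -
      (if a < b ∧ b < c ∧ y < z ∧ Dj a b c y z then A a b c y z else 0)) ≤
      S5 (fun a b c y z : ι => (if y = a then B else 0) + (if y = b then B else 0) +
        (if y = c then B else 0) + (if z = a then B else 0) + (if z = b then B else 0) +
        (if z = c then B else 0)) := by
    refine S5_le fun a b c y z => ?_
    have hB0 : 0 ≤ B := (abs_nonneg _).trans (hB a b c y z)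
    have hA := (abs_le.1 (hB a b c y z)).2
    have g : ∀ P : Prop, ∀ [Decidable P], 0 ≤ (if P then B else 0) := by
      intro P _
      split_ifs <;> linarith
    have g1 := g (y = a)
    have g2 := g (y = b)
    have g3 := g (y = c)
    have g4 := g (z = a)
    have g5 := g (z = b)
    have g6 := g (z = c)
    by_cases hs : a < b ∧ b < c ∧ y < z
    · by_cases hx : Dj a b c y z
      · rw [if_pos hs, if_pos ⟨hs.1, hs.2.1, hs.2.2, hx⟩, sub_self]
        linarith
      · rw [if_pos hs, if_neg (fun h => hx h.2.2.2), sub_zero]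
        unfold Dj at hx
        by_cases k1 : y = a
        · rw [if_pos k1] at g1 ⊢
          linarith
        by_cases k2 : y = b
        · rw [if_pos k2] at g2 ⊢
          linarith
        by_cases k3 : y = c
        · rw [if_pos k3] at g3 ⊢
          linarith
        by_cases k4 : z = a
        · rw [if_pos k4] at g4 ⊢
          linarith
        by_cases k5 : z = b
        · rw [if_pos k5] at g5 ⊢
          linarith
        have k6 : z = c := by
          by_contra k6
          exact hx ⟨k1, k2, k3, k4, k5, k6⟩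
        rw [if_pos k6] at g6 ⊢
        linarith
    · rw [if_neg hs, if_neg (fun h => hs ⟨h.1, h.2.1, h.2.2.1⟩), sub_self]
      linarith
  rw [S5_sub] at h1
  have h2 : S5 (fun a b c y z : ι => (if y = a then B else 0) + (if y = b then B else 0) +
        (if y = c then B else 0) + (if z = a then B else 0) + (if z = b then B else 0) +
        (if z = c then B else 0)) = 6 * B * (Fintype.card ι : ℝ) ^ 4 := by
    rw [S5_add, S5_add, S5_add, S5_add, S5_add]
    have e1 := sum_single5 (ι := ι) B (fun a _ _ _ => a)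
    have e2 := sum_single5 (ι := ι) B (fun _ b _ _ => b)
    have e3 := sum_single5 (ι := ι) B (fun _ _ c _ => c)
    have f1 : S5 (fun a b c y z : ι => if y = a then B else 0) =
        B * (Fintype.card ι : ℝ) ^ 4 := by
      rw [S5_t4]
      exact e1
    have f2 : S5 (fun a b c y z : ι => if y = b then B else 0) =
        B * (Fintype.card ι : ℝ) ^ 4 := by
      rw [S5_t4]
      exact e2
    have f3 : S5 (fun a b c y z : ι => if y = c then B else 0) =
        B * (Fintype.card ι : ℝ) ^ 4 := by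
      rw [S5_t4]
      exact e3
    have e1' : S5 (fun a b c y z : ι => if z = a then B else 0) =
        B * (Fintype.card ι : ℝ) ^ 4 := e1
    have e2' : S5 (fun a b c y z : ι => if z = b then B else 0) =
        B * (Fintype.card ι : ℝ) ^ 4 := e2
    have e3' : S5 (fun a b c y z : ι => if z = c then B else 0) =
        B * (Fintype.card ι : ℝ) ^ 4 := e3
    rw [f1, f2, f3, e1', e2', e3']
    ring
  rw [h2] at h1
  linarith

/-- rows given by their sums over the last two points -/
theorem S5_ge_of_sym {c B : ℝ} {g : ι → ι → ι → ι → ι → ℝ}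
    (hB : ∀ p q r y z, |g p q r y z| ≤ B) (hc : 0 ≤ c) (hB0 : 0 ≤ B)
    (h : ∀ p q r, p < q → q < r → -c ≤ ∑ y, ∑ z, g p q r y z) :
    -((c + B * Fintype.card ι) * (Fintype.card ι : ℝ) ^ 3) ≤
      S5 fun a b c y z => if a < b ∧ b < c ∧ y < z then g a b c y z + g a b c z y else 0 := by
  have h1 : ∑ _p : ι, ∑ _q : ι, ∑ _r : ι, (-(c + B * Fintype.card ι)) =
      -((c + B * Fintype.card ι) * (Fintype.card ι : ℝ) ^ 3) := by
    simp only [sum_const, card_univ, nsmul_eq_mul]
    ring
  rw [← h1]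
  refine sum_le_sum fun p _ => sum_le_sum fun q _ => sum_le_sum fun r _ => ?_
  by_cases hp : p < q ∧ q < r
  · simp only [hp.1, hp.2, true_and]
    rw [sum_pairs (g p q r)]
    have h2 := h p q r hp.1 hp.2
    have h3 : ∑ y, g p q r y y ≤ B * Fintype.card ι := by
      calc ∑ y, g p q r y y ≤ ∑ _y : ι, B := sum_le_sum fun y _ => (le_abs_self _).trans (hB ..)
        _ = B * Fintype.card ι := by
          rw [sum_const, card_univ, nsmul_eq_mul]
          ring
    linarith
  · have e : ∀ y z : ι, (if p < q ∧ q < r ∧ y < z then g p q r y z + g p q r z y else 0) = 0 :=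
      fun y z => if_neg (fun k => hp ⟨k.1, k.2.1⟩)
    simp only [e, sum_const_zero]
    have : 0 ≤ B * (Fintype.card ι : ℝ) := by positivity
    linarith

/-- the number of increasing quintuples -/
theorem I5_one : (Fintype.card ι : ℝ) ^ 5 / 120 - (Fintype.card ι : ℝ) ^ 4 ≤
    I5 (fun _ _ _ _ _ : ι => (1 : ℝ)) := by
  set n : ℝ := (Fintype.card ι : ℝ) with hn
  have hn0 : 0 ≤ n := Nat.cast_nonneg _
  have hp : ∑ r : ι, ∑ t : ι, (if r < t then (1 : ℝ) + 1 else 0) = n ^ 2 - n := by
    rw [sum_pairs (fun _ _ : ι => (1 : ℝ))]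
    simp only [sum_const, card_univ, nsmul_eq_mul, mul_one]
    rw [← hn]
    ring
  have hp' : ∑ r : ι, ∑ t : ι, (if r < t then (1 : ℝ) else 0) = (n ^ 2 - n) / 2 := by
    have e : ∑ r : ι, ∑ t : ι, (if r < t then (1 : ℝ) + 1 else 0) =
        2 * ∑ r : ι, ∑ t : ι, (if r < t then (1 : ℝ) else 0) := by
      rw [mul_sum]
      refine sum_congr rfl fun r _ => ?_
      rw [mul_sum]
      refine sum_congr rfl fun t _ => ?_
      split_ifs <;> norm_num
    rw [e] at hp
    linarith
  -- triples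
  set f : ι → ι → ι → ℝ := fun a b c => if a ≠ b ∧ b ≠ c ∧ a ≠ c then 1 else 0 with hf
  have f1 : ∀ a b c, f a b c = f b a c := by
    intro a b c
    simp only [hf]
    have : (a ≠ b ∧ b ≠ c ∧ a ≠ c) ↔ (b ≠ a ∧ a ≠ c ∧ b ≠ c) := by
      constructor
      · rintro ⟨h1, h2, h3⟩
        exact ⟨h1.symm, h3, h2⟩
      · rintro ⟨h1, h2, h3⟩
        exact ⟨h1.symm, h3, h2⟩
    simp only [this]
  have f2 : ∀ a b c, f a b c = f a c b := by
    intro a b c
    simp only [hf]
    have : (a ≠ b ∧ b ≠ c ∧ a ≠ c) ↔ (a ≠ c ∧ c ≠ b ∧ a ≠ b) := by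
      constructor
      · rintro ⟨h1, h2, h3⟩
        exact ⟨h3, h2.symm, h1⟩
      · rintro ⟨h1, h2, h3⟩
        exact ⟨h3, h2.symm, h1⟩
    simp only [this]
  have f0 : ∀ a c, f a a c = 0 := by
    intro a c
    simp [hf]
  have h6 := sum_incr3 f f1 f2 f0
  have h7 : n ^ 3 - 3 * n ^ 2 ≤ ∑ a, ∑ b, ∑ c, f a b c := by
    have e1 : ∀ a b c : ι, (1 : ℝ) - ((if a = b then 1 else 0) + (if b = c then 1 else 0) +
        (if a = c then 1 else 0)) ≤ f a b c := by
      intro a b c
      simp only [hf]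
      have g : ∀ P : Prop, ∀ [Decidable P], (0 : ℝ) ≤ (if P then 1 else 0) := by
        intro P _
        split_ifs <;> norm_num
      have g1 := g (a = b)
      have g2 := g (b = c)
      have g3 := g (a = c)
      by_cases k1 : a = b
      · rw [if_pos k1] at g1 ⊢
        have := g (a ≠ b ∧ b ≠ c ∧ a ≠ c)
        linarith
      by_cases k2 : b = c
      · rw [if_pos k2] at g2 ⊢
        have := g (a ≠ b ∧ b ≠ c ∧ a ≠ c)
        linarith
      by_cases k3 : a = c
      · rw [if_pos k3] at g3 ⊢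
        have := g (a ≠ b ∧ b ≠ c ∧ a ≠ c)
        linarith
      rw [if_neg k1, if_neg k2, if_neg k3, if_pos ⟨k1, k2, k3⟩]
      norm_num
    have e2 : ∑ a : ι, ∑ b : ι, ∑ c : ι, ((1 : ℝ) - ((if a = b then 1 else 0) +
        (if b = c then 1 else 0) + (if a = c then 1 else 0))) = n ^ 3 - 3 * n ^ 2 := by
      simp only [sum_sub_distrib, sum_add_distrib, sum_const, card_univ, nsmul_eq_mul, mul_one,
        sum_ite_eq, mem_univ, if_true]
      have e3 : ∑ a : ι, ∑ b : ι, (n : ℝ) * (if a = b then (1 : ℝ) else 0) = n ^ 2 := by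
        have : ∀ a : ι, ∑ b : ι, n * (if a = b then (1 : ℝ) else 0) = n := by
          intro a
          rw [← mul_sum, sum_ite_eq, if_pos (mem_univ _), mul_one]
        simp only [this, sum_const, card_univ, nsmul_eq_mul]
        rw [← hn]
        ring
      rw [← hn]
      rw [e3]
      ring
    rw [← e2]
    exact sum_le_sum fun a _ => sum_le_sum fun b _ => sum_le_sum fun c _ => e1 a b c
  have h8 : ∑ a : ι, ∑ b : ι, ∑ c : ι, (if a < b ∧ b < c then f a b c else 0) =
      ∑ a : ι, ∑ b : ι, ∑ c : ι, (if a < b ∧ b < c then (1 : ℝ) else 0) := by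
    refine sum_congr rfl fun a _ => sum_congr rfl fun b _ => sum_congr rfl fun c _ => ?_
    by_cases k : a < b ∧ b < c
    · rw [if_pos k, if_pos k]
      simp only [hf]
      rw [if_pos ⟨k.1.ne, k.2.ne, (k.1.trans k.2).ne⟩]
    · rw [if_neg k, if_neg k]
  set T3 : ℝ := ∑ a : ι, ∑ b : ι, ∑ c : ι, (if a < b ∧ b < c then (1 : ℝ) else 0) with hT3
  rw [h8] at h6
  have hS : S5 (fun a b c y z : ι => if a < b ∧ b < c ∧ y < z then (1 : ℝ) else 0) =
      T3 * ((n ^ 2 - n) / 2) := by
    rw [← hp', hT3, sum_mul]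
    unfold S5
    refine sum_congr rfl fun a _ => ?_
    rw [sum_mul]
    refine sum_congr rfl fun b _ => ?_
    rw [sum_mul]
    refine sum_congr rfl fun c _ => ?_
    by_cases k : a < b ∧ b < c
    · simp [k.1, k.2]
    · rw [if_neg k, zero_mul]
      refine sum_eq_zero fun y _ => sum_eq_zero fun z _ => if_neg fun k' => k ⟨k'.1, k'.2.1⟩
  have h1 := I5_sp5_ge (ι := ι) (fun _ _ _ _ _ => (1 : ℝ)) 1 (-(T3 * ((n ^ 2 - n) / 2)))
    (fun _ _ _ _ _ => by norm_num) (by rw [hS]; simp)
  have h2 : I5 (sp5 fun _ _ _ _ _ : ι => (1 : ℝ)) = 10 * I5 (fun _ _ _ _ _ : ι => (1 : ℝ)) := by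
    unfold I5 S5 sp5
    rw [mul_sum]
    refine sum_congr rfl fun i _ => ?_
    rw [mul_sum]
    refine sum_congr rfl fun j _ => ?_
    rw [mul_sum]
    refine sum_congr rfl fun r _ => ?_
    rw [mul_sum]
    refine sum_congr rfl fun t _ => ?_
    rw [mul_sum]
    refine sum_congr rfl fun u _ => ?_
    beta_reduce
    split_ifs <;> norm_num
  rw [h2, ← hn] at h1
  have h9 : (n ^ 3 - 3 * n ^ 2) / 6 ≤ T3 := by linarith
  by_cases hn1 : 1 ≤ n
  · have k1 : 0 ≤ (n ^ 2 - n) / 2 := by nlinarith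
    have k2 : (n ^ 3 - 3 * n ^ 2) / 6 * ((n ^ 2 - n) / 2) ≤ T3 * ((n ^ 2 - n) / 2) :=
      mul_le_mul_of_nonneg_right h9 k1
    have k3 : (n ^ 3 - 3 * n ^ 2) / 6 * ((n ^ 2 - n) / 2) =
        n ^ 5 / 12 - n ^ 4 / 3 + n ^ 3 / 4 := by ring
    have k4 : 0 ≤ n ^ 3 := by positivity
    have k5 : 0 ≤ n ^ 4 := by positivity
    nlinarith
  · have hz : n = 0 := by
      have : Fintype.card ι < 1 := by
        by_contra hc
        push Not at hc
        exact hn1 (by rw [hn]; exact_mod_cast hc)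
      rw [hn]
      have : Fintype.card ι = 0 := by omega
      rw [this]
      norm_num
    rw [hz] at h1 ⊢
    have hT0 : 0 ≤ T3 * (((0 : ℝ) ^ 2 - 0) / 2) := by norm_num
    norm_num at h1 ⊢
    linarith

theorem S5_smul (c : ℝ) (f : ι → ι → ι → ι → ι → ℝ) :
    S5 (fun p q r s t => c * f p q r s t) = c * S5 f := by
  unfold S5
  rw [mul_sum]
  refine sum_congr rfl fun i _ => ?_
  rw [mul_sum]
  refine sum_congr rfl fun j _ => ?_
  rw [mul_sum]
  refine sum_congr rfl fun r _ => ?_
  rw [mul_sum]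
  refine sum_congr rfl fun s _ => ?_
  rw [mul_sum]

theorem I5_const (c : ℝ) :
    I5 (fun _ _ _ _ _ : ι => c) = c * I5 (fun _ _ _ _ _ : ι => (1 : ℝ)) := by
  unfold I5
  rw [← S5_smul]
  congr 1
  funext p q r s t
  split_ifs <;> simp

/-- **five points**: the conclusion from a checked certificate with margin `og` -/
theorem five_false {A : ι → ι → ι → ι → ι → ℝ} {og B E C1 : ℝ} (hog : 0 ≤ og)
    (hB : ∀ a b c y z, |A a b c y z| ≤ B)
    (h : -E ≤ S5 fun a b c y z => if a < b ∧ b < c ∧ y < z then A a b c y z else 0)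
    (hcert : -(C1 * (Fintype.card ι : ℝ) ^ 4) ≤ I5 fun p q r s t => -og - sp5 A p q r s t) :
    og * ((Fintype.card ι : ℝ) ^ 5 / 120 - (Fintype.card ι : ℝ) ^ 4) ≤
      E + (6 * B + C1) * (Fintype.card ι : ℝ) ^ 4 := by
  have h1 := I5_sp5_ge A B E hB h
  have h2 : I5 (fun p q r s t => -og - sp5 A p q r s t) =
      -(og * I5 (fun _ _ _ _ _ : ι => (1 : ℝ))) - I5 (sp5 A) := by
    have h4 := I5_const (ι := ι) (-og)
    have h5 : I5 (fun p q r s t : ι => -og - sp5 A p q r s t) =
        I5 (fun _ _ _ _ _ : ι => -og) - I5 (sp5 A) := by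
      unfold I5
      rw [← S5_sub]
      congr 1
      funext p q r s t
      split_ifs <;> ring
    rw [h5, h4]
    ring
  have h3 := mul_le_mul_of_nonneg_left (I5_one (ι := ι)) hog
  rw [h2] at hcert
  linarith

end Pool.Agent.AKC
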