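import Pool.Agent.AKC.Bound5

set_option autoImplicit false
set_option linter.unusedSectionVars false
set_option linter.unusedVariables false

/-!
# Sums over six points: functions of a root of four points and a pair
-/

namespace Pool.Agent.AKC

open Finset

variable {ι : Type*} [Fintype ι] [DecidableEq ι]

/-- sum over all sextuples -/
def S6 (f : ι → ι → ι → ι → ι → ι → ℝ) : ℝ :=
  ∑ a, ∑ b, ∑ c, ∑ d, ∑ y, ∑ z, f a b c d y z

/-- a function of six arguments as a function of a sextuple -/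
def un6 (f : ι → ι → ι → ι → ι → ι → ℝ) (x : Fin 6 → ι) : ℝ :=
  f (x 0) (x 1) (x 2) (x 3) (x 4) (x 5)

theorem sum_cons {k : ℕ} (f : (Fin (k + 1) → ι) → ℝ) :
    ∑ x, f x = ∑ a : ι, ∑ y : Fin k → ι, f (Fin.cons a y) := by
  rw [← (Fin.consEquiv fun _ : Fin (k + 1) => ι).sum_comp, Fintype.sum_prod_type]
  rfl

theorem sum_un6 (f : ι → ι → ι → ι → ι → ι → ℝ) : ∑ x : Fin 6 → ι, un6 f x = S6 f := by
  unfold S6
  simp only [sum_cons]
  refine sum_congr rfl fun a _ => sum_congr rfl fun b _ => sum_congr rfl fun c _ =>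
    sum_congr rfl fun d _ => sum_congr rfl fun y _ => sum_congr rfl fun z _ => ?_
  rw [Fintype.sum_unique]
  rfl

/-- the injective sextuples -/
def In6 (ι : Type*) [Fintype ι] [DecidableEq ι] : Finset (Fin 6 → ι) :=
  univ.filter fun x => Function.Injective x

theorem mem_In6 {x : Fin 6 → ι} : x ∈ In6 ι ↔ Function.Injective x := by
  simp [In6]

theorem card_In6 : (In6 ι).card = (Fintype.card ι).descFactorial 6 := by
  have h1 : (In6 ι).card = Fintype.card {x : Fin 6 → ι // Function.Injective x} := by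
    rw [In6, Fintype.card_subtype]
  rw [h1, Fintype.card_congr (Equiv.subtypeInjectiveEquivEmbedding (Fin 6) ι),
    Fintype.card_embedding_eq, Fintype.card_fin]

theorem desc_ge (n : ℕ) : (n : ℝ) ^ 6 - 15 * (n : ℝ) ^ 5 ≤ (n.descFactorial 6 : ℝ) := by
  rcases Nat.lt_or_ge n 15 with h | h
  · have h1 : (0 : ℝ) ≤ (n.descFactorial 6 : ℝ) := Nat.cast_nonneg _
    have h2 : (n : ℝ) ≤ 15 := by exact_mod_cast h.le
    have h3 : (0 : ℝ) ≤ (n : ℝ) ^ 5 := by positivity
    nlinarith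
  · have h1 : (n.descFactorial 6 : ℝ) =
        (n : ℝ) * (n - 1) * (n - 2) * (n - 3) * (n - 4) * (n - 5) := by
      obtain ⟨m, rfl⟩ : ∃ m, n = m + 5 := ⟨n - 5, by omega⟩
      simp only [Nat.descFactorial_succ, Nat.descFactorial_zero]
      rw [show m + 5 - 5 = m by omega, show m + 5 - 4 = m + 1 by omega,
        show m + 5 - 3 = m + 2 by omega, show m + 5 - 2 = m + 3 by omega,
        show m + 5 - 1 = m + 4 by omega, show m + 5 - 0 = m + 5 by omega]
      push_cast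
      ring
    rw [h1]
    have h2 : (15 : ℝ) ≤ n := by exact_mod_cast h
    have e1 : (n : ℝ) * (n - 1) * (n - 2) * (n - 3) * (n - 4) * (n - 5) -
        ((n : ℝ) ^ 6 - 15 * (n : ℝ) ^ 5) =
        (n : ℝ) * (85 * (n : ℝ) ^ 3 - 225 * (n : ℝ) ^ 2 + 274 * n - 120) := by ring
    have h3 : (0 : ℝ) ≤ 85 * (n : ℝ) ^ 3 - 225 * (n : ℝ) ^ 2 + 274 * n - 120 := by
      nlinarith [mul_nonneg (sub_nonneg.2 h2) (sq_nonneg (n : ℝ))]
    have h4 : (0 : ℝ) ≤ (n : ℝ) * (85 * (n : ℝ) ^ 3 - 225 * (n : ℝ) ^ 2 + 274 * n - 120) :=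
      mul_nonneg (by linarith) h3
    linarith

theorem sum_all_card : (∑ _x : Fin 6 → ι, (1 : ℝ)) = (Fintype.card ι : ℝ) ^ 6 := by
  rw [sum_const, card_univ, Fintype.card_fun, Fintype.card_fin, nsmul_eq_mul, mul_one]
  push_cast
  rfl

theorem In6_ge : (Fintype.card ι : ℝ) ^ 6 - 15 * (Fintype.card ι : ℝ) ^ 5 ≤
    ((In6 ι).card : ℝ) := by
  rw [card_In6]
  exact desc_ge _

/-- the sum over the injective sextuples of the sums over the reorderings -/
theorem sum_perm (F : (Fin 6 → ι) → ℝ) :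
    ∑ x ∈ In6 ι, ∑ σ : Equiv.Perm (Fin 6), F (x ∘ σ) = 720 * ∑ x ∈ In6 ι, F x := by
  rw [sum_comm]
  have h1 : ∀ σ : Equiv.Perm (Fin 6), ∑ x ∈ In6 ι, F (x ∘ σ) = ∑ x ∈ In6 ι, F x := by
    intro σ
    refine sum_nbij' (fun x => x ∘ σ) (fun x => x ∘ σ.symm) ?_ ?_ ?_ ?_ ?_
    · intro x hx
      exact mem_In6.2 ((mem_In6.1 hx).comp σ.injective)
    · intro x hx
      exact mem_In6.2 ((mem_In6.1 hx).comp σ.symm.injective)
    · intro x _
      funext i
      simp
    · intro x _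
      funext i
      simp
    · intro x _
      rfl
  rw [sum_congr rfl fun σ _ => h1 σ, sum_const, card_univ, Fintype.card_perm, Fintype.card_fin,
    nsmul_eq_mul]
  norm_num [Nat.factorial]

/-- the sum over the injective sextuples -/
theorem sum_In6_ge {F : (Fin 6 → ι) → ℝ} {B : ℝ} (hB : ∀ x, |F x| ≤ B) :
    ∑ x, F x - 15 * B * (Fintype.card ι : ℝ) ^ 5 ≤ ∑ x ∈ In6 ι, F x := by
  have h1 : ∑ x, F x = ∑ x ∈ In6 ι, F x + ∑ x ∈ univ.filter (fun x => ¬ Function.Injective x),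
      F x := by
    rw [In6, sum_filter_add_sum_filter_not]
  rcases isEmpty_or_nonempty (Fin 6 → ι) with he | he
  · have h0 : ∑ x, F x = 0 := by
      rw [univ_eq_empty, sum_empty]
    have h2 : ∑ x ∈ In6 ι, F x = 0 := by
      rw [In6, univ_eq_empty, filter_empty, sum_empty]
    have h3 : Fintype.card ι = 0 := by
      rcases Nat.eq_zero_or_pos (Fintype.card ι) with h | h
      · exact h
      · obtain ⟨a⟩ := Fintype.card_pos_iff.1 h
        exact absurd he (not_isEmpty_iff.2 ⟨fun _ => a⟩)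
    rw [h0, h2, h3]
    norm_num
  · obtain ⟨x0⟩ := he
    have B0 : 0 ≤ B := (abs_nonneg _).trans (hB x0)
    have h2 : ∑ x ∈ univ.filter (fun x : Fin 6 → ι => ¬ Function.Injective x), F x ≤
        ((univ.filter fun x : Fin 6 → ι => ¬ Function.Injective x).card : ℝ) * B := by
      rw [← nsmul_eq_mul, ← sum_const]
      exact sum_le_sum fun x _ => (le_abs_self _).trans (hB x)
    have h3 : ((univ.filter fun x : Fin 6 → ι => ¬ Function.Injective x).card : ℝ) ≤
        15 * (Fintype.card ι : ℝ) ^ 5 := by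
      have h4 : (In6 ι).card + (univ.filter fun x : Fin 6 → ι => ¬ Function.Injective x).card =
          Fintype.card (Fin 6 → ι) := by
        rw [In6, card_filter_add_card_filter_not, card_univ]
      have h5 : ((In6 ι).card : ℝ) +
          ((univ.filter fun x : Fin 6 → ι => ¬ Function.Injective x).card : ℝ) =
          (Fintype.card ι : ℝ) ^ 6 := by
        rw [← Nat.cast_add, h4, Fintype.card_fun, Fintype.card_fin]
        push_cast
        rfl
      have h6 := In6_ge (ι := ι)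
      linarith
    have h4 := mul_le_mul_of_nonneg_right h3 B0
    linarith

/-- **the contradiction of a certificate with six points** -/
theorem six_false {T : ι → ι → ι → ι → ι → ι → ℝ} {og B c : ℝ} (hog : 0 ≤ og)
    (hB : ∀ a b c d y z, |T a b c d y z| ≤ B) (hT : -c ≤ S6 T)
    (hE : ∀ x : Fin 6 → ι, Function.Injective x →
      ∑ σ : Equiv.Perm (Fin 6), un6 T (x ∘ σ) ≤ -og) :
    og * ((Fintype.card ι : ℝ) ^ 6 - 15 * (Fintype.card ι : ℝ) ^ 5) ≤
      720 * (c + 15 * B * (Fintype.card ι : ℝ) ^ 5) := by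
  have h1 := sum_perm (ι := ι) (un6 T)
  have h2 : ∑ x ∈ In6 ι, ∑ σ : Equiv.Perm (Fin 6), un6 T (x ∘ σ) ≤ ((In6 ι).card : ℝ) * -og := by
    rw [← nsmul_eq_mul, ← sum_const]
    exact sum_le_sum fun x hx => hE x (mem_In6.1 hx)
  have h3 := sum_In6_ge (ι := ι) (F := un6 T) (B := B) fun x => hB _ _ _ _ _ _
  rw [sum_un6] at h3
  have h4 := mul_le_mul_of_nonneg_right (In6_ge (ι := ι)) hog
  linarith

/-- the sum over all sextuples from the sums over the pairs -/
theorem S6_ge {g : ι → ι → ι → ι → ι → ι → ℝ} {c : ℝ} (hc : 0 ≤ c)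
    (h : ∀ a b c' d, -c ≤ ∑ y, ∑ z, g a b c' d y z) :
    -(c * (Fintype.card ι : ℝ) ^ 4) ≤ S6 g := by
  unfold S6
  have e0 : ∀ k : ℝ, ∑ _a : ι, k = (Fintype.card ι : ℝ) * k := by
    intro k
    rw [sum_const, card_univ, nsmul_eq_mul]
  calc -(c * (Fintype.card ι : ℝ) ^ 4) = ∑ _a : ι, ∑ _b : ι, ∑ _c : ι, ∑ _d : ι, -c := by
        rw [e0, e0, e0, e0]
        ring
    _ ≤ _ := sum_le_sum fun a _ => sum_le_sum fun b _ => sum_le_sum fun c' _ =>
        sum_le_sum fun d _ => h a b c' d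

/-- the final arithmetic -/
theorem arith6 {og K1 K2 : ℝ} (hog : 0 < og) (h1 : 0 ≤ K1) :
    ∃ η0 : ℝ, 0 < η0 ∧ ∃ n0 : ℕ, ∀ n η : ℝ, (n0 : ℝ) ≤ n → 0 ≤ η → η ≤ η0 →
      ¬ og * (n ^ 6 - 15 * n ^ 5) ≤ K1 * (η * n ^ 6) + K2 * n ^ 5 := by
  obtain ⟨n1, hn1⟩ := exists_nat_gt (2 * (K2 + 15 * og) / og)
  refine ⟨og / (2 * (K1 + 1)), by positivity, n1 + 1, ?_⟩
  intro n η hn hη hη1 hcon
  have hn' : (n1 : ℝ) + 1 ≤ n := by exact_mod_cast hn
  have hn0 : (0 : ℝ) ≤ n1 := Nat.cast_nonneg _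
  have k3 : K1 * η ≤ og / 2 := by
    calc K1 * η ≤ K1 * (og / (2 * (K1 + 1))) := mul_le_mul_of_nonneg_left hη1 h1
      _ ≤ (K1 + 1) * (og / (2 * (K1 + 1))) :=
        mul_le_mul_of_nonneg_right (by linarith) (by positivity)
      _ = og / 2 := by field_simp
  have k4 : 2 * (K2 + 15 * og) < n * og := by
    have : 2 * (K2 + 15 * og) / og < n := by linarith
    rwa [div_lt_iff₀ hog] at this
  have n1' : 0 < n := by linarith
  have n5 : 0 < n ^ 5 := by positivity
  have n6 : 0 < n ^ 6 := by positivity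
  have k5 : K1 * η * n ^ 6 ≤ og / 2 * n ^ 6 := mul_le_mul_of_nonneg_right k3 n6.le
  have k6 : 2 * (K2 + 15 * og) * n ^ 5 < n * og * n ^ 5 := mul_lt_mul_of_pos_right k4 n5
  have k9 : og * n ^ 6 = n * og * n ^ 5 := by ring
  nlinarith

end Pool.Agent.AKC
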