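import Pool.Agent.AKC.Forms
import Pool.Agent.AKO.Root

set_option autoImplicit false

/-!
# One root and four free points: the conclusion
-/

namespace Pool.Agent.AKC

open Finset Classical Pool.Agent.MP_0af329_co Pool.Agent.AK Pool.Agent.AKO Pool.Agent.AKH
  Pool.Agent.FCK

section count

variable {κ : Type*} [Fintype κ] [LinearOrder κ]

/-- sums over increasing triples of a symmetric function vanishing on the diagonals -/
theorem sum_incr3 (f : κ → κ → κ → ℝ) (h1 : ∀ a b c, f a b c = f b a c)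
    (h2 : ∀ a b c, f a b c = f a c b) (h0 : ∀ a c, f a a c = 0) :
    ∑ a, ∑ b, ∑ c, f a b c = 6 * ∑ a, ∑ b, ∑ c, (if a < b ∧ b < c then f a b c else 0) := by
  rw [← sum_sym3]
  refine sum_congr rfl fun a _ => sum_congr rfl fun b _ => sum_congr rfl fun c _ => ?_
  unfold sym3
  have e1 : f a c b = f a b c := (h2 a b c).symm
  have e2 : f b a c = f a b c := (h1 a b c).symm
  have e3 : f b c a = f a b c := by rw [h2 b c a, e2]
  have e4 : f c a b = f a b c := by rw [h1 c a b, e1]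
  have e5 : f c b a = f a b c := by rw [h1 c b a, e3]
  beta_reduce
  rw [e1, e2, e3, e4, e5]
  by_cases hab : a = b
  · subst hab
    rw [h0]
    simp
  by_cases hbc : b = c
  · subst hbc
    have : f a b b = 0 := by rw [← e3, h0]
    rw [this]
    simp
  by_cases hac : a = c
  · subst hac
    have : f a b a = 0 := by rw [h2 a b a, h0]
    rw [this]
    simp
  rcases lt_or_gt_of_ne hab with k1 | k1 <;> rcases lt_or_gt_of_ne hbc with k2 | k2 <;>
    rcases lt_or_gt_of_ne hac with k3 | k3 <;>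
    first
    | (exfalso; order)
    | simp [k1, k2, k3, not_lt_of_gt k1, not_lt_of_gt k2, not_lt_of_gt k3]

/-- the number of increasing quadruples -/
theorem I4_one : (Fintype.card κ : ℝ) ^ 4 / 24 - (Fintype.card κ : ℝ) ^ 3 ≤
    I4 (fun _ _ _ _ : κ => (1 : ℝ)) := by
  set n : ℝ := (Fintype.card κ : ℝ) with hn
  have hn0 : 0 ≤ n := Nat.cast_nonneg _
  have hp : ∑ r : κ, ∑ t : κ, (if r < t then (1 : ℝ) + 1 else 0) = n ^ 2 - n := by
    rw [sum_pairs (fun _ _ : κ => (1 : ℝ))]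
    simp only [sum_const, card_univ, nsmul_eq_mul, mul_one]
    rw [← hn]
    ring
  have hp' : ∑ r : κ, ∑ t : κ, (if r < t then (1 : ℝ) else 0) = (n ^ 2 - n) / 2 := by
    have e : ∑ r : κ, ∑ t : κ, (if r < t then (1 : ℝ) + 1 else 0) =
        2 * ∑ r : κ, ∑ t : κ, (if r < t then (1 : ℝ) else 0) := by
      rw [mul_sum]
      refine sum_congr rfl fun r _ => ?_
      rw [mul_sum]
      refine sum_congr rfl fun t _ => ?_
      split_ifs <;> norm_num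
    rw [e] at hp
    linarith
  have hS : S4 (fun i j r t : κ => if i < j ∧ r < t then (1 : ℝ) else 0) =
      ((n ^ 2 - n) / 2) ^ 2 := by
    rw [← hp', sq, sum_mul_sum]
    unfold S4
    refine sum_congr rfl fun i _ => ?_
    have e1 : ∀ j : κ, ∑ r : κ, ∑ t : κ, (if i < j ∧ r < t then (1 : ℝ) else 0) =
        (if i < j then (1 : ℝ) else 0) * ∑ r : κ, ∑ t : κ, (if r < t then (1 : ℝ) else 0) := by
      intro j
      by_cases h : i < j
      · simp [h]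
      · simp [h]
    rw [sum_congr rfl fun j _ => e1 j, ← sum_mul]
    rw [mul_sum]
  have h1 := I4_sp2_ge (ι := κ) (fun _ _ _ _ => (1 : ℝ)) 1 (-((n ^ 2 - n) / 2) ^ 2)
    (fun _ _ _ _ => by norm_num) (by rw [hS]; simp)
  have h2 : I4 (sp2 fun _ _ _ _ : κ => (1 : ℝ)) = 6 * I4 (fun _ _ _ _ : κ => (1 : ℝ)) := by
    unfold I4 S4 sp2
    rw [mul_sum]
    refine sum_congr rfl fun i _ => ?_
    rw [mul_sum]
    refine sum_congr rfl fun j _ => ?_
    rw [mul_sum]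
    refine sum_congr rfl fun r _ => ?_
    rw [mul_sum]
    refine sum_congr rfl fun t _ => ?_
    beta_reduce
    split_ifs <;> norm_num
  rw [h2, ← hn] at h1
  have h3 : ((n ^ 2 - n) / 2) ^ 2 = n ^ 4 / 4 - n ^ 3 / 2 + n ^ 2 / 4 := by ring
  have h4 : 0 ≤ n ^ 3 := by positivity
  have h5 : 0 ≤ n ^ 2 := by positivity
  nlinarith

theorem I4_const (c : ℝ) : I4 (fun _ _ _ _ : κ => c) = c * I4 (fun _ _ _ _ : κ => (1 : ℝ)) := by
  unfold I4 S4
  rw [mul_sum]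
  refine sum_congr rfl fun i _ => ?_
  rw [mul_sum]
  refine sum_congr rfl fun j _ => ?_
  rw [mul_sum]
  refine sum_congr rfl fun r _ => ?_
  rw [mul_sum]
  refine sum_congr rfl fun t _ => ?_
  beta_reduce
  split_ifs <;> simp

end count

theorem Nf_nonneg (S : Finset Pt) (u p q : S) : 0 ≤ Nf S u p q := by
  unfold Nf
  split_ifs <;> norm_num

theorem Nf_le (S : Finset Pt) (u p q : S) : Nf S u p q ≤ 1 := by
  unfold Nf
  split_ifs <;> norm_num

theorem Nf_swap (S : Finset Pt) (u p q : S) : Nf S u p q = Nf S u q p := by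
  unfold Nf NA
  have h : (u ≠ p ∧ p ≠ q ∧ u ≠ q ∧ (dt (X S) (Y S) u p q ≤ 0 ∨ dt (X S) (Y S) p u q ≤ 0 ∨
      dt (X S) (Y S) q u p ≤ 0)) ↔ (u ≠ q ∧ q ≠ p ∧ u ≠ p ∧ (dt (X S) (Y S) u q p ≤ 0 ∨
      dt (X S) (Y S) q u p ≤ 0 ∨ dt (X S) (Y S) p u q ≤ 0)) := by
    rw [dt_symm (X S) (Y S) u p q]
    tauto
  by_cases h1 : (u ≠ p ∧ p ≠ q ∧ u ≠ q ∧ (dt (X S) (Y S) u p q ≤ 0 ∨ dt (X S) (Y S) p u q ≤ 0 ∨
      dt (X S) (Y S) q u p ≤ 0))
  · rw [if_pos h1, if_pos (h.1 h1)]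
  · rw [if_neg h1, if_neg (fun h2 => h1 (h.2 h2))]

theorem Nf_rot (S : Finset Pt) (u p q : S) : Nf S u p q = Nf S p u q := by
  unfold Nf NA
  have h : (u ≠ p ∧ p ≠ q ∧ u ≠ q ∧ (dt (X S) (Y S) u p q ≤ 0 ∨ dt (X S) (Y S) p u q ≤ 0 ∨
      dt (X S) (Y S) q u p ≤ 0)) ↔ (p ≠ u ∧ u ≠ q ∧ p ≠ q ∧ (dt (X S) (Y S) p u q ≤ 0 ∨
      dt (X S) (Y S) u p q ≤ 0 ∨ dt (X S) (Y S) q p u ≤ 0)) := by
    rw [dt_symm (X S) (Y S) q u p]
    tauto
  by_cases h1 : (u ≠ p ∧ p ≠ q ∧ u ≠ q ∧ (dt (X S) (Y S) u p q ≤ 0 ∨ dt (X S) (Y S) p u q ≤ 0 ∨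
      dt (X S) (Y S) q u p ≤ 0))
  · rw [if_pos h1, if_pos (h.1 h1)]
  · rw [if_neg h1, if_neg (fun h2 => h1 (h.2 h2))]

theorem Nf_diag (S : Finset Pt) (u q : S) : Nf S u u q = 0 := by
  unfold Nf
  simp

section main

variable {S : Finset Pt} {η : ℝ} {v : S} {N : ℤ} {e : ℤ → S} {F : ℤ → ℝ} {I : ℤ → ℤ}

/-- degrees over the points of the view -/
theorem deg_view (hS : Near S η) (h : View (X S) (Y S) v N e F I) (u : S) :
    ∑ r : Ix N, ∑ t : Ix N, Nf S u (e r) (e t) ≤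
      (3 * dens (Set.Ici (Real.pi / 2)) + η) * (Fintype.card S : ℝ) ^ 2 := by
  have h1 := (abs_le.1 (hS.deg u)).2
  have h2 : ∑ r : Ix N, ∑ t : Ix N, Nf S u (e r) (e t) ≤ ∑ p, ∑ q, Nf S u p q := by
    have e1 : ∀ r : Ix N, ∑ t : Ix N, Nf S u (e r) (e t) ≤ ∑ q, Nf S u (e r) q := by
      intro r
      rw [h.sum_er fun q => Nf S u (e r) q]
      linarith [Nf_nonneg S u (e r) v]
    refine (sum_le_sum fun r _ => e1 r).trans ?_
    rw [h.sum_er fun p => ∑ q, Nf S u p q]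
    have : 0 ≤ ∑ q, Nf S u v q := sum_nonneg fun q _ => Nf_nonneg S u v q
    linarith
  linarith

/-- the objective -/
noncomputable def obj (S : Finset Pt) (e : ℤ → S) {N : ℤ} (p q r s : Ix N) : ℝ :=
  (Nf S (e p) (e q) (e r) + Nf S (e p) (e q) (e s) + Nf S (e p) (e r) (e s) +
    Nf S (e q) (e r) (e s)) / 4

theorem I4_obj_le (hS : Near S η) (h : View (X S) (Y S) v N e F I) :
    I4 (obj S e (N := N)) ≤ (3 * dens (Set.Ici (Real.pi / 2)) + η) *
      (Fintype.card S : ℝ) ^ 2 * (Fintype.card (Ix N) : ℝ) ^ 2 / 24 := by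
  set n : ℝ := (Fintype.card (Ix N) : ℝ) with hn
  set D : ℝ := (3 * dens (Set.Ici (Real.pi / 2)) + η) * (Fintype.card S : ℝ) ^ 2 with hD
  have hn0 : 0 ≤ n := Nat.cast_nonneg _
  have e1 : I4 (obj S e (N := N)) =
      I4 (sp3 fun p q r _ : Ix N => Nf S (e p) (e q) (e r) / 4) := by
    unfold I4
    congr 1
    funext p q r s
    split_ifs with hlt
    · unfold obj sp3
      ring
    · rfl
  rw [e1, ← L31]
  have e2 : S4 (fun a b c d : Ix N => if a < b ∧ b < c ∧ d ≠ a ∧ d ≠ b ∧ d ≠ c then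
      Nf S (e a) (e b) (e c) / 4 else 0) ≤
      S4 (fun a b c _ : Ix N => if a < b ∧ b < c then Nf S (e a) (e b) (e c) / 4 else 0) := by
    refine S4_le fun a b c d => ?_
    have h0 := Nf_nonneg S (e a) (e b) (e c)
    split_ifs with h1 h2 h2
    · exact le_refl _
    · exact absurd ⟨h1.1, h1.2.1⟩ h2
    · linarith
    · exact le_refl _
  refine e2.trans ?_
  have e3 : S4 (fun a b c _ : Ix N => if a < b ∧ b < c then Nf S (e a) (e b) (e c) / 4 else 0) =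
      n / 4 * ∑ a : Ix N, ∑ b : Ix N, ∑ c : Ix N,
        (if a < b ∧ b < c then Nf S (e a) (e b) (e c) else 0) := by
    unfold S4
    rw [mul_sum]
    refine sum_congr rfl fun a _ => ?_
    rw [mul_sum]
    refine sum_congr rfl fun b _ => ?_
    rw [mul_sum]
    refine sum_congr rfl fun c _ => ?_
    rw [sum_const, card_univ, nsmul_eq_mul, ← hn]
    split_ifs <;> ring
  rw [e3]
  have h6 := sum_incr3 (κ := Ix N) (fun a b c => Nf S (e a) (e b) (e c))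
    (fun a b c => Nf_rot S _ _ _) (fun a b c => Nf_swap S _ _ _) (fun a c => Nf_diag S _ _)
  have h7 : ∑ a : Ix N, ∑ b : Ix N, ∑ c : Ix N, Nf S (e a) (e b) (e c) ≤ n * D := by
    calc ∑ a : Ix N, ∑ b : Ix N, ∑ c : Ix N, Nf S (e a) (e b) (e c) ≤ ∑ _a : Ix N, D :=
          sum_le_sum fun a _ => deg_view hS h (e a)
      _ = n * D := by rw [sum_const, card_univ, nsmul_eq_mul]
  rw [h6] at h7
  have h8 : n / 4 * ∑ a : Ix N, ∑ b : Ix N, ∑ c : Ix N,
        (if a < b ∧ b < c then Nf S (e a) (e b) (e c) else 0) ≤ n / 4 * (n * D / 6) :=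
    mul_le_mul_of_nonneg_left (by linarith) (by linarith)
  refine h8.trans (le_of_eq ?_)
  ring

/-- **The conclusion from a certificate with one root and four free points.** -/
theorem cell_bound (hS : Near S η) (h : View (X S) (Y S) v N e F I)
    (hN : N = (Fintype.card S : ℤ) - 1)
    (hη : 0 ≤ η) (hd : 0 ≤ 3 * dens (Set.Ici (Real.pi / 2)))
    {A3 A2 : Ix N → Ix N → Ix N → Ix N → ℝ} {E3 B3 E2 B2 θ C1 : ℝ} (h3 : Row3 E3 B3 A3) (h2 : Row2 E2 B2 A2) (hθ : 0 ≤ θ)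
    (hcert : -C1 ≤ I4 fun p q r s => obj S e p q r s - θ -
      (sp3 A3 p q r s + sp2 A2 p q r s)) :
    θ * ((Fintype.card S - 1 : ℝ) ^ 4 / 24 - (Fintype.card S - 1 : ℝ) ^ 3) ≤
      (3 * dens (Set.Ici (Real.pi / 2)) + η) * (Fintype.card S : ℝ) ^ 4 / 24 + C1 + E3 + E2 +
        (3 * B3 + 4 * B2) * (Fintype.card S : ℝ) ^ 3 := by
  set n : ℝ := (Fintype.card S : ℝ) with hn
  have hcard : (Fintype.card (Ix N) : ℝ) = n - 1 := by
    rw [card_Ixr N h.pos.le, hN]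
    push_cast
    rfl
  have hn1 : 1 ≤ n := by
    rw [hn]
    have : 1 ≤ Fintype.card S := Fintype.card_pos_iff.2 ⟨v⟩
    exact_mod_cast this
  have r1 := rows_ge A3 A2 B3 B2 E3 E2 h3.1 h2.1 h3.2 h2.2
  have r2 := I4_obj_le hS h
  have r3 := I4_one (κ := Ix N)
  have r4 := I4_const (κ := Ix N) θ
  have e1 : I4 (fun p q r s : Ix N => obj S e p q r s - θ - (sp3 A3 p q r s + sp2 A2 p q r s)) =
      I4 (obj S e (N := N)) - I4 (fun _ _ _ _ : Ix N => θ) -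
        I4 (fun p q r s : Ix N => sp3 A3 p q r s + sp2 A2 p q r s) := by
    unfold I4
    rw [← S4_sub, ← S4_sub]
    congr 1
    funext p q r s
    split_ifs <;> ring
  rw [e1] at hcert
  rw [hcard] at r1 r2 r3
  have k0 : Ix N := ⟨N, Finset.mem_Ioc.2 ⟨h.pos, le_refl _⟩⟩
  have hB3 : 0 ≤ B3 := (abs_nonneg _).trans (h3.1 k0 k0 k0 k0)
  have hB2 : 0 ≤ B2 := (abs_nonneg _).trans (h2.1 k0 k0 k0 k0)
  have k1 : (n - 1) ^ 2 ≤ n ^ 2 := by nlinarith
  have k2 : (n - 1) ^ 3 ≤ n ^ 3 := pow_le_pow_left₀ (by linarith) (by linarith) 3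
  have k3 : (3 * dens (Set.Ici (Real.pi / 2)) + η) * n ^ 2 * (n - 1) ^ 2 / 24 ≤
      (3 * dens (Set.Ici (Real.pi / 2)) + η) * n ^ 4 / 24 := by
    have : (3 * dens (Set.Ici (Real.pi / 2)) + η) * n ^ 2 * (n - 1) ^ 2 ≤
        (3 * dens (Set.Ici (Real.pi / 2)) + η) * n ^ 2 * n ^ 2 :=
      mul_le_mul_of_nonneg_left k1 (mul_nonneg (by linarith) (sq_nonneg _))
    nlinarith
  have k4 : (3 * B3 + 4 * B2) * (n - 1) ^ 3 ≤ (3 * B3 + 4 * B2) * n ^ 3 :=
    mul_le_mul_of_nonneg_left k2 (by positivity)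
  have k5 : θ * ((n - 1) ^ 4 / 24 - (n - 1) ^ 3) ≤ θ * I4 (fun _ _ _ _ : Ix N => (1 : ℝ)) :=
    mul_le_mul_of_nonneg_left r3 hθ
  rw [r4] at hcert
  linarith

/-- the conclusion with a function instead of a constant -/
theorem cell_bound' (hS : Near S η) (h : View (X S) (Y S) v N e F I)
    (hN : N = (Fintype.card S : ℤ) - 1)
    (hη : 0 ≤ η) (hd : 0 ≤ 3 * dens (Set.Ici (Real.pi / 2)))
    {A3 A2 g : Ix N → Ix N → Ix N → Ix N → ℝ} {E3 B3 E2 B2 C1 : ℝ} (h3 : Row3 E3 B3 A3)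
    (h2 : Row2 E2 B2 A2)
    (hcert : -C1 ≤ I4 fun p q r s => obj S e p q r s - g p q r s -
      (sp3 A3 p q r s + sp2 A2 p q r s)) :
    I4 g ≤
      (3 * dens (Set.Ici (Real.pi / 2)) + η) * (Fintype.card S : ℝ) ^ 4 / 24 + C1 + E3 + E2 +
        (3 * B3 + 4 * B2) * (Fintype.card S : ℝ) ^ 3 := by
  set n : ℝ := (Fintype.card S : ℝ) with hn
  have hcard : (Fintype.card (Ix N) : ℝ) = n - 1 := by
    rw [card_Ixr N h.pos.le, hN]
    push_cast
    rfl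
  have hn1 : 1 ≤ n := by
    rw [hn]
    have : 1 ≤ Fintype.card S := Fintype.card_pos_iff.2 ⟨v⟩
    exact_mod_cast this
  have r1 := rows_ge A3 A2 B3 B2 E3 E2 h3.1 h2.1 h3.2 h2.2
  have r2 := I4_obj_le hS h
  have e1 : I4 (fun p q r s : Ix N => obj S e p q r s - g p q r s -
      (sp3 A3 p q r s + sp2 A2 p q r s)) =
      I4 (obj S e (N := N)) - I4 g -
        I4 (fun p q r s : Ix N => sp3 A3 p q r s + sp2 A2 p q r s) := by
    unfold I4
    rw [← S4_sub, ← S4_sub]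
    congr 1
    funext p q r s
    split_ifs <;> ring
  rw [e1] at hcert
  rw [hcard] at r1 r2
  have k0 : Ix N := ⟨N, Finset.mem_Ioc.2 ⟨h.pos, le_refl _⟩⟩
  have hB3 : 0 ≤ B3 := (abs_nonneg _).trans (h3.1 k0 k0 k0 k0)
  have hB2 : 0 ≤ B2 := (abs_nonneg _).trans (h2.1 k0 k0 k0 k0)
  have k1 : (n - 1) ^ 2 ≤ n ^ 2 := by nlinarith
  have k2 : (n - 1) ^ 3 ≤ n ^ 3 := pow_le_pow_left₀ (by linarith) (by linarith) 3
  have k3 : (3 * dens (Set.Ici (Real.pi / 2)) + η) * n ^ 2 * (n - 1) ^ 2 / 24 ≤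
      (3 * dens (Set.Ici (Real.pi / 2)) + η) * n ^ 4 / 24 := by
    have : (3 * dens (Set.Ici (Real.pi / 2)) + η) * n ^ 2 * (n - 1) ^ 2 ≤
        (3 * dens (Set.Ici (Real.pi / 2)) + η) * n ^ 2 * n ^ 2 :=
      mul_le_mul_of_nonneg_left k1 (mul_nonneg (by linarith) (sq_nonneg _))
    nlinarith
  have k4 : (3 * B3 + 4 * B2) * (n - 1) ^ 3 ≤ (3 * B3 + 4 * B2) * n ^ 3 :=
    mul_le_mul_of_nonneg_left k2 (by positivity)
  linarith

end main

end Pool.Agent.AKC
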