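import Pool.Agent.AKC.View

set_option autoImplicit false

/-!
# The five windows of a view

The starting ray carries the smallest quarter turn; the rays are coloured by the iterates of the
quarter turn map.
-/

namespace Pool.Agent.AKC

open Finset Classical Pool.Agent.AK Pool.Agent.AKH

variable {ι : Type*}

/-- colour of the ray `k` (`0 < k ≤ N`) -/
def col (I : ℤ → ℤ) (k : ℤ) : ℕ :=
  if k ≤ I 0 then 0 else if k ≤ I (I 0) then 1 else if k ≤ I (I (I 0)) then 2
    else if k ≤ I (I (I (I 0))) then 3 else 4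

theorem col_lt (I : ℤ → ℤ) (k : ℤ) : col I k < 5 := by
  unfold col
  split_ifs <;> norm_num

theorem col_mono (I : ℤ → ℤ) {i j : ℤ} (h : i ≤ j) : col I i ≤ col I j := by
  unfold col
  split_ifs <;> omega

/-- the rules for two rays `i < j` of colours `c`, `d`; `o`: counterclockwise, `w`: acute -/
def prule (c d : ℕ) (o w : Bool) : Bool :=
  match c, d with
  | 0, 0 => o && w
  | 1, 1 => o && w
  | 2, 2 => o && w
  | 3, 3 => o && w
  | 4, 4 => o
  | 0, 1 => o
  | 1, 2 => o
  | 2, 3 => o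
  | 3, 4 => o
  | 0, 2 => !w
  | 1, 3 => !w
  | 1, 4 => !w
  | 2, 4 => !w
  | 0, 3 => !w || !o
  | 0, 4 => !o
  | _, _ => false

/-- the hypotheses: `0` is the ray with the smallest quarter turn, no right angles at `v`, no three
points on a line -/
structure Deep (x y : ι → ℝ) (v : ι) (N : ℤ) (e : ℤ → ι) (F : ℤ → ℝ) (I : ℤ → ℤ) (a : ℤ) :
    Prop where
  view : View x y v N e F I
  a1 : 1 ≤ a
  I0 : I 0 = a
  min : ∀ k, k + a ≤ I k
  crn : ∀ i j, i < j → j < i + N → cr x y v (e i) (e j) ≠ 0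
  dtn : ∀ i j, i < j → j < i + N → dt x y v (e i) (e j) ≠ 0

namespace Deep

variable {x y : ι → ℝ} {v : ι} {N : ℤ} {e : ℤ → ι} {F : ℤ → ℝ} {I : ℤ → ℤ} {a : ℤ}

theorem lt1 (h : Deep x y v N e F I a) (k : ℤ) : k + 1 ≤ I k := by
  have := h.min k
  have := h.a1
  omega

/-- four quarter turns from `0` do not close up -/
theorem P4_lt (h : Deep x y v N e F I a) : I (I (I (I 0))) < N := by
  have := h.view.I4 0
  omega

theorem N_ge (h : Deep x y v N e F I a) : 4 * a < N := by
  have h1 := h.P4_lt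
  have h2 := h.min 0
  have h3 := h.min (I 0)
  have h4 := h.min (I (I 0))
  have h5 := h.min (I (I (I 0)))
  omega

theorem F0 (h : Deep x y v N e F I a) {k : ℤ} (hk : k ≤ I (I (I (I 0)))) {m : ℤ}
    (hm : I (I (I (I 0))) < m) : F k < F m := h.view.mono (by omega)

theorem crne (h : Deep x y v N e F I a) {i j : ℤ} (hij : i < j) (hj : j < i + N) :
    F j - F i ≠ Real.pi := by
  intro he
  obtain ⟨c, hc, h1, -⟩ := h.view.ang i j
  rw [he, Real.sin_pi, mul_zero] at h1
  exact h.crn i j hij hj h1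

theorem dtne (h : Deep x y v N e F I a) {i j : ℤ} (hij : i < j) (hj : j < i + N) :
    F j - F i ≠ Real.pi / 2 ∧ F j - F i ≠ 3 * Real.pi / 2 := by
  obtain ⟨c, hc, -, h1⟩ := h.view.ang i j
  constructor
  · intro he
    rw [he, Real.cos_pi_div_two, mul_zero] at h1
    exact h.dtn i j hij hj h1
  · intro he
    rw [he, show 3 * Real.pi / 2 = Real.pi / 2 + Real.pi by ring, Real.cos_add_pi,
      Real.cos_pi_div_two, neg_zero, mul_zero] at h1
    exact h.dtn i j hij hj h1

/-- **The pair rules.** -/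
theorem pair (h : Deep x y v N e F I a) {i j : ℤ} (hi : 0 < i) (hij : i < j) (hj : j ≤ N) :
    prule (col I i) (col I j) (decide (0 < cr x y v (e i) (e j)))
      (decide (0 < dt x y v (e i) (e j))) = true := by
  have hj' : j < i + N := by omega
  have hv := h.view
  have hm := hv.mono.monotone
  have hpi := Real.pi_pos
  obtain ⟨hd1, hd2⟩ := hv.diff hij hj'
  have hcr := hv.cr_pos hij hj'
  have hdt := hv.dt_pos hij hj'
  have hne := h.crne hij hj'
  obtain ⟨hne1, hne2⟩ := h.dtne hij hj'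
  set P1 := I 0 with hP1
  set P2 := I P1 with hP2
  set P3 := I P2 with hP3
  set P4 := I P3 with hP4
  have l1 : 1 ≤ P1 := by have := h.lt1 0; omega
  have l2 : P1 + 1 ≤ P2 := h.lt1 P1
  have l3 : P2 + 1 ≤ P3 := h.lt1 P2
  have l4 : P3 + 1 ≤ P4 := h.lt1 P3
  have l5 : P4 < N := h.P4_lt
  have u1 : F P1 < F 0 + Real.pi / 2 := hv.F_I 0
  have u2 : F P2 < F P1 + Real.pi / 2 := hv.F_I P1
  have u3 : F P3 < F P2 + Real.pi / 2 := hv.F_I P2
  have u4 : F P4 < F P3 + Real.pi / 2 := hv.F_I P3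
  have g1 : F 0 + Real.pi / 2 ≤ F (P1 + 1) := hv.F_of_lt (by omega)
  have g2 : F P1 + Real.pi / 2 ≤ F (P2 + 1) := hv.F_of_lt (by omega)
  have g3 : F P2 + Real.pi / 2 ≤ F (P3 + 1) := hv.F_of_lt (by omega)
  have g4 : F P3 + Real.pi / 2 ≤ F (P4 + 1) := hv.F_of_lt (by omega)
  have m1 : F (P1 + 1) ≤ F P2 := hm l2
  have m2 : F (P2 + 1) ≤ F P3 := hm l3
  have m3 : F (P3 + 1) ≤ F P4 := hm l4
  have m0 : F 0 < F P1 := hv.mono (by omega)
  have mi : F 0 < F i := hv.mono (by omega)
  have mN : F j ≤ F 0 + 2 * Real.pi := by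
    have := hv.per 0
    rw [zero_add] at this
    rw [← this]
    exact hm hj
  have hci : (i ≤ P1 ∧ col I i = 0) ∨ (P1 + 1 ≤ i ∧ i ≤ P2 ∧ col I i = 1) ∨
      (P2 + 1 ≤ i ∧ i ≤ P3 ∧ col I i = 2) ∨ (P3 + 1 ≤ i ∧ i ≤ P4 ∧ col I i = 3) ∨
      (P4 + 1 ≤ i ∧ col I i = 4) := by
    unfold col
    rw [← hP1, ← hP2, ← hP3, ← hP4]
    split_ifs <;> omega
  have hcj : (j ≤ P1 ∧ col I j = 0) ∨ (P1 + 1 ≤ j ∧ j ≤ P2 ∧ col I j = 1) ∨
      (P2 + 1 ≤ j ∧ j ≤ P3 ∧ col I j = 2) ∨ (P3 + 1 ≤ j ∧ j ≤ P4 ∧ col I j = 3) ∨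
      (P4 + 1 ≤ j ∧ col I j = 4) := by
    unfold col
    rw [← hP1, ← hP2, ← hP3, ← hP4]
    split_ifs <;> omega
  have tt : ∀ {P : Prop} [Decidable P], P → decide P = true := fun h => decide_eq_true h
  have ff : ∀ {P : Prop} [Decidable P], ¬ P → decide P = false := fun h => decide_eq_false h
  rcases hci with ⟨a1, ci⟩ | ⟨a1, a2, ci⟩ | ⟨a1, a2, ci⟩ | ⟨a1, a2, ci⟩ | ⟨a1, ci⟩
  · have b1 := hm a1
    rcases hcj with ⟨c1, cj⟩ | ⟨c1, c2, cj⟩ | ⟨c1, c2, cj⟩ | ⟨c1, c2, cj⟩ | ⟨c1, cj⟩ <;>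
      rw [ci, cj]
    · have d1 := hm c1
      have e1 : 0 < cr x y v (e i) (e j) := hcr.2 (by linarith)
      have e2 : 0 < dt x y v (e i) (e j) := hdt.2 (Or.inl (by linarith))
      simp only [prule, tt e1, tt e2, Bool.and_self]
    · have d1 := hm c2
      have e1 : 0 < cr x y v (e i) (e j) := hcr.2 (by linarith)
      simp only [prule, tt e1]
    · have d1 := hm c1
      have d2 := hm c2
      have e1 : ¬ 0 < dt x y v (e i) (e j) := by
        rw [hdt]
        rintro (k | k)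
        · linarith
        · linarith
      simp only [prule, ff e1, Bool.not_false]
    · have d1 := hm c1
      have e1 : ¬ 0 < dt x y v (e i) (e j) ∨ ¬ 0 < cr x y v (e i) (e j) := by
        rw [hdt, hcr]
        by_contra hcon
        push Not at hcon
        obtain ⟨k | k, k2⟩ := hcon
        · linarith
        · linarith
      rcases e1 with e1 | e1
      · simp only [prule, ff e1, Bool.not_false, Bool.true_or]
      · simp only [prule, ff e1, Bool.not_false, Bool.or_true]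
    · have d1 := hm c1
      have e1 : ¬ 0 < cr x y v (e i) (e j) := by
        rw [hcr]
        intro k
        linarith
      simp only [prule, ff e1, Bool.not_false]
  · have b1 := hm a1
    have b2 := hm a2
    rcases hcj with ⟨c1, cj⟩ | ⟨c1, c2, cj⟩ | ⟨c1, c2, cj⟩ | ⟨c1, c2, cj⟩ | ⟨c1, cj⟩
    · omega
    · rw [ci, cj]
      have d2 := hm c2
      have e1 : 0 < cr x y v (e i) (e j) := hcr.2 (by linarith)
      have e2 : 0 < dt x y v (e i) (e j) := hdt.2 (Or.inl (by linarith))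
      simp only [prule, tt e1, tt e2, Bool.and_self]
    · rw [ci, cj]
      have d1 := hm c2
      have e1 : 0 < cr x y v (e i) (e j) := hcr.2 (by linarith)
      simp only [prule, tt e1]
    · rw [ci, cj]
      have d1 := hm c1
      have d2 := hm c2
      have e1 : ¬ 0 < dt x y v (e i) (e j) := by
        rw [hdt]
        rintro (k | k)
        · linarith
        · linarith
      simp only [prule, ff e1, Bool.not_false]
    · rw [ci, cj]
      have d1 := hm c1
      have e1 : ¬ 0 < dt x y v (e i) (e j) := by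
        rw [hdt]
        rintro (k | k)
        · linarith
        · linarith
      simp only [prule, ff e1, Bool.not_false]
  · have b1 := hm a1
    have b2 := hm a2
    rcases hcj with ⟨c1, cj⟩ | ⟨c1, c2, cj⟩ | ⟨c1, c2, cj⟩ | ⟨c1, c2, cj⟩ | ⟨c1, cj⟩
    · omega
    · omega
    · rw [ci, cj]
      have d2 := hm c2
      have e1 : 0 < cr x y v (e i) (e j) := hcr.2 (by linarith)
      have e2 : 0 < dt x y v (e i) (e j) := hdt.2 (Or.inl (by linarith))
      simp only [prule, tt e1, tt e2, Bool.and_self]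
    · rw [ci, cj]
      have d1 := hm c2
      have e1 : 0 < cr x y v (e i) (e j) := hcr.2 (by linarith)
      simp only [prule, tt e1]
    · rw [ci, cj]
      have d1 := hm c1
      have e1 : ¬ 0 < dt x y v (e i) (e j) := by
        rw [hdt]
        rintro (k | k)
        · linarith
        · linarith
      simp only [prule, ff e1, Bool.not_false]
  · have b1 := hm a1
    have b2 := hm a2
    rcases hcj with ⟨c1, cj⟩ | ⟨c1, c2, cj⟩ | ⟨c1, c2, cj⟩ | ⟨c1, c2, cj⟩ | ⟨c1, cj⟩
    · omega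
    · omega
    · omega
    · rw [ci, cj]
      have d2 := hm c2
      have e1 : 0 < cr x y v (e i) (e j) := hcr.2 (by linarith)
      have e2 : 0 < dt x y v (e i) (e j) := hdt.2 (Or.inl (by linarith))
      simp only [prule, tt e1, tt e2, Bool.and_self]
    · rw [ci, cj]
      have e1 : 0 < cr x y v (e i) (e j) :=
        hcr.2 (lt_of_le_of_ne (by linarith) hne)
      simp only [prule, tt e1]
  · have b1 := hm a1
    rcases hcj with ⟨c1, cj⟩ | ⟨c1, c2, cj⟩ | ⟨c1, c2, cj⟩ | ⟨c1, c2, cj⟩ | ⟨c1, cj⟩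
    · omega
    · omega
    · omega
    · omega
    · rw [ci, cj]
      have e1 : 0 < cr x y v (e i) (e j) := hcr.2 (lt_of_le_of_ne (by linarith) hne)
      simp only [prule, tt e1]

end Deep

end Pool.Agent.AKC
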