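import Pool.Agent.AKC.Rows

set_option autoImplicit false

/-!
# A view starting with its smallest quarter turn
-/

namespace Pool.Agent.AKC

open Finset Classical Pool.Agent.AK Pool.Agent.AKH

variable {ι : Type*}

theorem exists_deep [Fintype ι] (x y : ι → ℝ)
    (hg : ∀ v p q : ι, v ≠ p → p ≠ q → v ≠ q → cr x y v p q ≠ 0)
    (hr : ∀ v p q : ι, v ≠ p → p ≠ q → v ≠ q → dt x y v p q ≠ 0) (v : ι)
    (hd : ∀ p, p ≠ v → x p ≠ x v ∨ y p ≠ y v) (hc : 2 ≤ Fintype.card ι)
    (hal : ∀ p, p ≠ v → 1 ≤ al x y v p) :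
    ∃ (e : ℤ → ι) (F : ℤ → ℝ) (I : ℤ → ℤ) (a : ℤ),
      Deep x y v ((Fintype.card ι : ℤ) - 1) e F I a := by
  obtain ⟨e, F, I, h⟩ := exists_view x y hg v hd hc
  set N : ℤ := (Fintype.card ι : ℤ) - 1 with hN
  have hN0 := h.pos
  -- the smallest window
  obtain ⟨k0, hk0, hmin⟩ := exists_min_image (Finset.Ioc (0 : ℤ) N) (fun k => I k - k)
    ⟨N, Finset.mem_Ioc.2 ⟨hN0, le_refl _⟩⟩
  have hIper : ∀ k m : ℤ, I (k + N * m) = I k + N * m := by
    intro k m
    induction m using Int.induction_on with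
    | zero => simp
    | succ i ih =>
      rw [show k + N * ((i : ℤ) + 1) = k + N * i + N by ring, h.I_per, ih]
      ring
    | pred i ih =>
      have h1 := h.I_per (k + N * (-(i : ℤ) - 1))
      rw [show k + N * (-(i : ℤ) - 1) + N = k + N * (-(i : ℤ)) by ring, ih] at h1
      linarith
  have hall : ∀ k, I k0 - k0 ≤ I k - k := by
    intro k
    have h1 := Int.emod_nonneg (k - 1) hN0.ne'
    have h2 := Int.emod_lt_of_pos (k - 1) hN0
    have h3 := Int.emod_add_mul_ediv (k - 1) N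
    have h4 := hmin (1 + (k - 1) % N) (Finset.mem_Ioc.2 ⟨by omega, by omega⟩)
    have h5 : k = 1 + (k - 1) % N + N * ((k - 1) / N) := by omega
    have h6 := hIper (1 + (k - 1) % N) ((k - 1) / N)
    rw [← h5] at h6
    omega
  have hne : ∀ i j, i < j → j < i + N → e i ≠ e j := h.inj
  refine ⟨_, _, _, I k0 - k0, h.shift k0, ?_, ?_, ?_, ?_, ?_⟩
  · have h1 := hal (e k0) (h.ne k0)
    have h2 := h.al_eq k0
    omega
  · simp
  · intro k
    have := hall (k + k0)
    omega
  · intro i j hi hj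
    exact hg _ _ _ (h.ne _).symm (h.inj _ _ (by omega) (by omega)) (h.ne _).symm
  · intro i j hi hj
    exact hr _ _ _ (h.ne _).symm (h.inj _ _ (by omega) (by omega)) (h.ne _).symm

end Pool.Agent.AKC
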