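import Pool.Agent.AKC.Bound5
import Pool.Agent.AKG.LinkC

set_option autoImplicit false

/-!
# Five points: nearly optimal sets in which all acute triples have large weight
-/

namespace Pool.Agent.AKC

open Finset Classical Pool.Agent.MP_0af329_co Pool.Agent.AK Pool.Agent.AKO Pool.Agent.AKG
  Pool.Agent.AKU Pool.Agent.FCK

section rows

variable {S : Finset Pt} {n : ℕ} (e : Fin n ≃ S)

/-- coordinates of the points -/
noncomputable def Xe (i : Fin n) : ℝ := X S (e i)

noncomputable def Ye (i : Fin n) : ℝ := Y S (e i)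

/-- state and code of numbered points -/
noncomputable def ste (a b c : Fin n) : ℕ := st (Xe e) (Ye e) a b c

noncomputable def cde (a b c y : Fin n) : ℕ := code (Xe e) (Ye e) a b c y

theorem ste_eq (a b c : Fin n) : ste e a b c = st (X S) (Y S) (e a) (e b) (e c) := rfl

theorem cde_eq (a b c y : Fin n) :
    cde e a b c y = code (X S) (Y S) (e a) (e b) (e c) (e y) := rfl

theorem cde_lt (a b c y : Fin n) : cde e a b c y < 4096 := code_lt ..

theorem ste_lt (a b c : Fin n) : ste e a b c < 8 := st_lt ..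

theorem sum_e (f : S → ℝ) : ∑ i, f (e i) = ∑ v, f v := Equiv.sum_comp e f

theorem sum_eZ (f : S → ℤ) : ∑ i, f (e i) = ∑ v, f v := Equiv.sum_comp e f

/-- not one of the three points -/
def Fr (a b c y : Fin n) : Prop := y ≠ a ∧ y ≠ b ∧ y ≠ c

/-- multiplier, zero at the roots -/
noncomputable def mT (m : ℕ → ℕ) (a b c y : Fin n) : ℝ :=
  if Fr a b c y then (m (cde e a b c y) : ℝ) else 0

/-- weight minus threshold, zero at the roots -/
noncomputable def wT (w : ℕ → ℤ) (th : ℤ) (a b c y : Fin n) : ℝ :=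
  if Fr a b c y then ((w (cde e a b c y) : ℝ) - th) else 0

/-- half of the row -/
noncomputable def gT (w : ℕ → ℤ) (th : ℤ) (m : ℕ → ℕ) (d : ℕ → ℕ → ℤ) (a b c y z : Fin n) : ℝ :=
  (if ste e a b c % 4 = 0 then mT e m a b c y * wT e w th a b c z else 0) +
  ((d 0 (ste e a b c) : ℝ) * (2 - 9 / 2 * Nf S (e a) (e y) (e z)) +
    (d 1 (ste e a b c) : ℝ) * (2 - 9 / 2 * Nf S (e b) (e y) (e z)) +
    (d 2 (ste e a b c) : ℝ) * (2 - 9 / 2 * Nf S (e c) (e y) (e z)))

/-- a bound of the multipliers -/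
structure B5 (w : ℕ → ℤ) (th : ℤ) (m : ℕ → ℕ) (d : ℕ → ℕ → ℤ) (b : ℝ) : Prop where
  b0 : 0 ≤ b
  m : ∀ k < 4096, (m k : ℝ) ≤ b
  w : ∀ k < 4096, |(w k : ℝ) - th| ≤ b
  th : |(th : ℝ)| ≤ b
  d : ∀ k < 3, ∀ s < 8, |(d k s : ℝ)| ≤ b

theorem exists_B5 (w : ℕ → ℤ) (th : ℤ) (m : ℕ → ℕ) (d : ℕ → ℕ → ℤ) :
    ∃ b, B5 w th m d b := by
  have z1 : 0 ≤ ∑ k ∈ range 4096, (m k : ℝ) := sum_nonneg fun _ _ => Nat.cast_nonneg _
  have z2 : 0 ≤ ∑ k ∈ range 4096, |(w k : ℝ) - th| := sum_nonneg fun _ _ => abs_nonneg _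
  have z3 : 0 ≤ ∑ k ∈ range 3, ∑ s ∈ range 8, |(d k s : ℝ)| :=
    sum_nonneg fun _ _ => sum_nonneg fun _ _ => abs_nonneg _
  have z4 := abs_nonneg (th : ℝ)
  refine ⟨∑ k ∈ range 4096, (m k : ℝ) + ∑ k ∈ range 4096, |(w k : ℝ) - th| + |(th : ℝ)| +
    ∑ k ∈ range 3, ∑ s ∈ range 8, |(d k s : ℝ)|, by linarith, ?_, ?_, ?_, ?_⟩
  · intro k hk
    have h1 := single_le_sum (f := fun k => (m k : ℝ)) (fun _ _ => Nat.cast_nonneg _)
      (mem_range.2 hk)
    linarith
  · intro k hk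
    have h1 := single_le_sum (f := fun k => |(w k : ℝ) - th|) (fun _ _ => abs_nonneg _)
      (mem_range.2 hk)
    linarith
  · linarith
  · intro k hk s hs
    have h1 := single_le_sum (f := fun s => |(d k s : ℝ)|) (fun _ _ => abs_nonneg _)
      (mem_range.2 hs)
    have h2 := single_le_sum (f := fun k => ∑ s ∈ range 8, |(d k s : ℝ)|)
      (fun _ _ => sum_nonneg fun _ _ => abs_nonneg _) (mem_range.2 hk)
    linarith

variable {e} {w : ℕ → ℤ} {th : ℤ} {m : ℕ → ℕ} {d : ℕ → ℕ → ℤ} {b : ℝ}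

theorem mT_0 (a b c y : Fin n) : 0 ≤ mT e m a b c y := by
  unfold mT
  split_ifs
  · exact Nat.cast_nonneg _
  · exact le_refl _

theorem mT_le (hb : B5 w th m d b) (p q r y : Fin n) : mT e m p q r y ≤ b := by
  unfold mT
  split_ifs
  · exact hb.m _ (cde_lt e p q r y)
  · exact hb.b0

theorem wT_abs (hb : B5 w th m d b) (p q r y : Fin n) : |wT e w th p q r y| ≤ b := by
  unfold wT
  split_ifs
  · exact hb.w _ (cde_lt e p q r y)
  · rw [abs_zero]
    exact hb.b0

theorem nf_abs (p q r : S) : |(2 : ℝ) - 9 / 2 * Nf S p q r| ≤ 3 := by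
  have h0 := Nf_nonneg S p q r
  have h1 := Nf_le S p q r
  rw [abs_le]
  constructor <;> linarith

theorem gT_abs (hb : B5 w th m d b) (p q r y z : Fin n) :
    |gT e w th m d p q r y z| ≤ b * b + (b * 3 + b * 3 + b * 3) := by
  have b0 := hb.b0
  have h1 : |(if ste e p q r % 4 = 0 then mT e m p q r y * wT e w th p q r z else 0)| ≤ b * b := by
    split_ifs
    · rw [abs_mul, abs_of_nonneg (mT_0 p q r y)]
      exact mul_le_mul (mT_le hb p q r y) (wT_abs hb p q r z) (abs_nonneg _) b0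
    · rw [abs_zero]
      positivity
  have h2 : ∀ k < 3, ∀ u : S, |(d k (ste e p q r) : ℝ) * (2 - 9 / 2 * Nf S u (e y) (e z))| ≤
      b * 3 := by
    intro k hk u
    rw [abs_mul]
    exact mul_le_mul (hb.d k hk _ (ste_lt e p q r)) (nf_abs _ _ _) (abs_nonneg _) b0
  unfold gT
  refine (abs_add_le _ _).trans (add_le_add h1 ?_)
  refine (abs_add_le _ _).trans (add_le_add ?_ (h2 2 (by norm_num) _))
  exact (abs_add_le _ _).trans (add_le_add (h2 0 (by norm_num) _) (h2 1 (by norm_num) _))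

/-- the sum of the weights -/
theorem sum_wT (hcard : (n : ℤ) = Fintype.card S) {cc : ℤ}
    (hW : ∀ r, AcT (X S) (Y S) r → th * Fintype.card S ≤ Ph (X S) (Y S) w r + cc)
    {p q r : Fin n} (hpq : p < q) (hqr : q < r) (hst : ste e p q r % 4 = 0) :
    -((|cc| + 3 * |th| : ℤ) : ℝ) ≤ ∑ z, wT e w th p q r z := by
  set R : Fin 3 → S := ![e p, e q, e r] with hR
  have hpr := hpq.trans hqr
  have hinj : Function.Injective R := (inj_iff R).2
    ⟨e.injective.ne hpq.ne, e.injective.ne hpr.ne, e.injective.ne hqr.ne⟩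
  have hac : AcT (X S) (Y S) R := ⟨hinj, hst⟩
  have h1 := hW R hac
  have h2 : ∑ z, wT e w th p q r z = ((Ph (X S) (Y S) w R - th * (Fintype.card S - 3) : ℤ) : ℝ) := by
    have e0 : ∀ z : Fin n, (∀ k, e z ≠ R k) ↔ Fr p q r z := by
      intro z
      rw [forall_fin3]
      show (e z ≠ e p ∧ e z ≠ e q ∧ e z ≠ e r) ↔ _
      unfold Fr
      rw [e.injective.ne_iff, e.injective.ne_iff, e.injective.ne_iff]
    have e1 : Ph (X S) (Y S) w R = ∑ z : Fin n, if Fr p q r z then w (cde e p q r z) else 0 := by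
      unfold Ph
      rw [← sum_eZ e]
      refine sum_congr rfl fun z _ => ?_
      by_cases g : Fr p q r z
      · rw [if_pos g, if_pos ((e0 z).2 g)]
        rfl
      · rw [if_neg g, if_neg (fun k => g ((e0 z).1 k))]
    have e2 : ∑ z : Fin n, (if Fr p q r z then th else 0) = th * (Fintype.card S - 3) := by
      have e3 : ∀ z : Fin n, (if Fr p q r z then th else 0) =
          th - ((if z = p then th else 0) + (if z = q then th else 0) +
            (if z = r then th else 0)) := by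
        intro z
        by_cases k1 : z = p
        · subst k1
          rw [if_neg (fun g => g.1 rfl), if_pos rfl, if_neg hpq.ne, if_neg hpr.ne]
          ring
        by_cases k2 : z = q
        · subst k2
          rw [if_neg (fun g => g.2.1 rfl), if_neg k1, if_pos rfl, if_neg hqr.ne]
          ring
        by_cases k3 : z = r
        · subst k3
          rw [if_neg (fun g => g.2.2 rfl), if_neg k1, if_neg k2, if_pos rfl]
          ring
        rw [if_pos ⟨k1, k2, k3⟩, if_neg k1, if_neg k2, if_neg k3]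
        ring
      rw [sum_congr rfl fun z _ => e3 z, sum_sub_distrib, sum_add_distrib, sum_add_distrib,
        sum_ite_eq', sum_ite_eq', sum_ite_eq', if_pos (mem_univ _), if_pos (mem_univ _),
        if_pos (mem_univ _), sum_const, card_univ, Fintype.card_fin, nsmul_eq_mul, ← hcard]
      ring
    rw [e1, ← e2, ← sum_sub_distrib]
    push_cast
    refine sum_congr rfl fun z _ => ?_
    unfold wT
    split_ifs
    · rfl
    · simp
  rw [h2]
  have h3 : -(|cc| + 3 * |th|) ≤ Ph (X S) (Y S) w R - th * (Fintype.card S - 3) := by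
    have h4 := le_abs_self cc
    have h5 := neg_abs_le th
    linarith
  exact_mod_cast h3

/-- the degree rows -/
theorem sum_deg {η : ℝ} (hS : Near S η) (hcard : (n : ℝ) = Fintype.card S) (u : S) :
    |∑ y : Fin n, ∑ z : Fin n, ((2 : ℝ) - 9 / 2 * Nf S u (e y) (e z)) -
      (2 - 9 / 2 * (3 * dens (Set.Ici (Real.pi / 2)))) * (n : ℝ) ^ 2| ≤
      9 / 2 * (η * (n : ℝ) ^ 2) := by
  have h1 := hS.deg u
  have h2 : ∑ y : Fin n, ∑ z : Fin n, ((2 : ℝ) - 9 / 2 * Nf S u (e y) (e z)) =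
      2 * (n : ℝ) ^ 2 - 9 / 2 * ∑ p, ∑ q, Nf S u p q := by
    have e1 : ∀ y : Fin n, ∑ z : Fin n, ((2 : ℝ) - 9 / 2 * Nf S u (e y) (e z)) =
        2 * (n : ℝ) - 9 / 2 * ∑ q, Nf S u (e y) q := by
      intro y
      rw [sum_sub_distrib, ← mul_sum, sum_e e fun q => Nf S u (e y) q, sum_const, card_univ,
        Fintype.card_fin, nsmul_eq_mul]
      ring
    have e2 : ∑ y : Fin n, 9 / 2 * ∑ q, Nf S u (e y) q = 9 / 2 * ∑ p, ∑ q, Nf S u p q := by
      rw [← mul_sum, sum_e e fun p => ∑ q, Nf S u p q]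
    rw [sum_congr rfl fun y _ => e1 y, sum_sub_distrib, e2, sum_const, card_univ,
      Fintype.card_fin, nsmul_eq_mul]
    ring
  rw [h2, hcard]
  rw [abs_le] at h1 ⊢
  constructor <;> linarith [h1.1, h1.2]

/-- **the rows are nonnegative up to the error** -/
theorem gT_sum {η : ℝ} (hb : B5 w th m d b) (hS : Near S η)
    (hcard : n = Fintype.card S)
    (hlt : 3 * dens (Set.Ici (Real.pi / 2)) ≤ 4 / 9)
    (hd : ∀ s < 8, 0 ≤ d 0 s + d 1 s + d 2 s) {cc : ℤ}
    (hW : ∀ r, AcT (X S) (Y S) r → th * Fintype.card S ≤ Ph (X S) (Y S) w r + cc)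
    {p q r : Fin n} (hpq : p < q) (hqr : q < r) :
    -(b * (|(cc : ℝ)| + 3 * b) * n + 27 / 2 * b * (η * (n : ℝ) ^ 2)) ≤
      ∑ y, ∑ z, gT e w th m d p q r y z := by
  have b0 := hb.b0
  have n0 : (0 : ℝ) ≤ n := Nat.cast_nonneg _
  have hcardr : (n : ℝ) = Fintype.card S := by rw [hcard]
  have hs := ste_lt e p q r
  unfold gT
  simp only [sum_add_distrib]
  -- the weights
  have h1 : -(b * (|(cc : ℝ)| + 3 * b) * n) ≤ ∑ y : Fin n, ∑ z : Fin n,
      (if ste e p q r % 4 = 0 then mT e m p q r y * wT e w th p q r z else 0) := by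
    by_cases g : ste e p q r % 4 = 0
    · simp only [if_pos g]
      have e1 : ∑ y : Fin n, ∑ z : Fin n, mT e m p q r y * wT e w th p q r z =
          (∑ y, mT e m p q r y) * ∑ z, wT e w th p q r z := by
        rw [sum_mul_sum]
      rw [e1]
      have h2 := sum_wT (e := e) (w := w) (th := th) (by exact_mod_cast hcard) hW hpq hqr g
      have h3 : ∑ y, mT e m p q r y ≤ b * n := by
        calc ∑ y, mT e m p q r y ≤ ∑ _y : Fin n, b := sum_le_sum fun y _ => mT_le hb p q r y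
          _ = b * n := by rw [sum_const, card_univ, Fintype.card_fin, nsmul_eq_mul, mul_comm]
      have h4 : 0 ≤ ∑ y, mT e m p q r y := sum_nonneg fun y _ => mT_0 p q r y
      have h5 : ((|cc| + 3 * |th| : ℤ) : ℝ) ≤ |(cc : ℝ)| + 3 * b := by
        push_cast
        linarith [hb.th]
      have h6 : 0 ≤ ((|cc| + 3 * |th| : ℤ) : ℝ) := by
        have : 0 ≤ |cc| + 3 * |th| := by positivity
        exact_mod_cast this
      calc -(b * (|(cc : ℝ)| + 3 * b) * n) ≤
          -((∑ y, mT e m p q r y) * ((|cc| + 3 * |th| : ℤ) : ℝ)) := by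
            have h7 : (∑ y, mT e m p q r y) * ((|cc| + 3 * |th| : ℤ) : ℝ) ≤
                (b * n) * (|(cc : ℝ)| + 3 * b) := mul_le_mul h3 h5 h6 (by positivity)
            linarith
        _ = (∑ y, mT e m p q r y) * -((|cc| + 3 * |th| : ℤ) : ℝ) := by ring
        _ ≤ _ := mul_le_mul_of_nonneg_left h2 h4
    · simp only [if_neg g, sum_const_zero]
      have : 0 ≤ b * (|(cc : ℝ)| + 3 * b) * n := by positivity
      linarith
  -- the degrees
  set lam : ℝ := (2 - 9 / 2 * (3 * dens (Set.Ici (Real.pi / 2)))) * (n : ℝ) ^ 2 with hlam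
  have l0 : 0 ≤ lam := by
    have : 0 ≤ 2 - 9 / 2 * (3 * dens (Set.Ici (Real.pi / 2))) := by linarith
    rw [hlam]
    positivity
  have h2 : ∀ (k : ℕ) (_ : k < 3) (u : S), (d k (ste e p q r) : ℝ) * lam -
      b * (9 / 2 * (η * (n : ℝ) ^ 2)) ≤
      ∑ y : Fin n, ∑ z : Fin n, (d k (ste e p q r) : ℝ) *
        (2 - 9 / 2 * Nf S u (e y) (e z)) := by
    intro k hk u
    have e1 : ∑ y : Fin n, ∑ z : Fin n, (d k (ste e p q r) : ℝ) *
        (2 - 9 / 2 * Nf S u (e y) (e z)) = (d k (ste e p q r) : ℝ) *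
        ∑ y : Fin n, ∑ z : Fin n, ((2 : ℝ) - 9 / 2 * Nf S u (e y) (e z)) := by
      simp only [mul_sum]
    rw [e1]
    set T : ℝ := ∑ y : Fin n, ∑ z : Fin n, ((2 : ℝ) - 9 / 2 * Nf S u (e y) (e z)) with hT
    have h3 := sum_deg (e := e) hS hcardr u
    rw [← hT, ← hlam] at h3
    have h4 := hb.d k hk _ hs
    have h5 : |(d k (ste e p q r) : ℝ) * (T - lam)| ≤ b * (9 / 2 * (η * (n : ℝ) ^ 2)) := by
      rw [abs_mul]
      exact mul_le_mul h4 h3 (abs_nonneg _) b0
    have h6 := (abs_le.1 h5).1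
    linarith
  have h3 := h2 0 (by norm_num) (e p)
  have h4 := h2 1 (by norm_num) (e q)
  have h5 := h2 2 (by norm_num) (e r)
  have h6 : 0 ≤ ((d 0 (ste e p q r) : ℝ) + d 1 (ste e p q r) + d 2 (ste e p q r)) * lam := by
    refine mul_nonneg ?_ l0
    exact_mod_cast hd _ hs
  linarith

/-- the row -/
noncomputable def aT (e : Fin n ≃ S) (w : ℕ → ℤ) (th : ℤ) (m : ℕ → ℕ) (d : ℕ → ℕ → ℤ)
    (a b c y z : Fin n) : ℝ := gT e w th m d a b c y z + gT e w th m d a b c z y

theorem aT_abs (hb : B5 w th m d b) (p q r y z : Fin n) :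
    |aT e w th m d p q r y z| ≤ 2 * (b * b + (b * 3 + b * 3 + b * 3)) := by
  have h1 := gT_abs (e := e) hb p q r y z
  have h2 := gT_abs (e := e) hb p q r z y
  unfold aT
  refine (abs_add_le _ _).trans ?_
  linarith

/-- the row at a disjoint pair -/
theorem aT_eq {p q r y z : Fin n} (hD : Dj p q r y z) : aT e w th m d p q r y z =
    (if ste e p q r % 4 = 0 then
      (m (cde e p q r y) : ℝ) * ((w (cde e p q r z) : ℝ) - th) +
        (m (cde e p q r z) : ℝ) * ((w (cde e p q r y) : ℝ) - th) else 0) +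
    ((d 0 (ste e p q r) : ℝ) * (4 - 9 * Nf S (e p) (e y) (e z)) +
      (d 1 (ste e p q r) : ℝ) * (4 - 9 * Nf S (e q) (e y) (e z)) +
      (d 2 (ste e p q r) : ℝ) * (4 - 9 * Nf S (e r) (e y) (e z))) := by
  obtain ⟨h1, h2, h3, h4, h5, h6⟩ := hD
  unfold aT gT mT wT
  rw [if_pos (show Fr p q r y from ⟨h1, h2, h3⟩), if_pos (show Fr p q r z from ⟨h4, h5, h6⟩),
    if_pos (show Fr p q r y from ⟨h1, h2, h3⟩), if_pos (show Fr p q r z from ⟨h4, h5, h6⟩),
    Nf_swap S (e p) (e z) (e y), Nf_swap S (e q) (e z) (e y), Nf_swap S (e r) (e z) (e y)]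
  split_ifs <;> ring

/-- the non-acute indicator of a root and a pair -/
theorem Nf_n3 {r y z : Fin n} (hyz : y < z) (h1 : r ≠ y) (h2 : r ≠ z) :
    Nf S (e r) (e y) (e z) = (na (if r < y then ste e r y z else if r < z then ste e y r z else
      ste e y z r) : ℝ) := by
  have k1 : e r ≠ e y := e.injective.ne h1
  have k2 : e r ≠ e z := e.injective.ne h2
  have k3 : e y ≠ e z := e.injective.ne hyz.ne
  split_ifs with g1 g2
  · exact Nf_na k1 k3 k2
  · rw [Nf_rot]
    exact Nf_na k1.symm k2 k3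
  · rw [Nf_rot, Nf_swap, ]
    exact Nf_na k3 k2.symm k1.symm

/-- the codes of four numbered points in increasing order -/
theorem tab_e (h : GN (X S) (Y S)) {p q r s : Fin n} (hpq : p < q) (hqr : q < r) (hrs : r < s) :
    TAB.testBit (((ste e p q r * 8 + ste e p q s) * 8 + ste e p r s) * 8 + ste e q r s) = true :=
  h.mem (e.injective.ne hpq.ne) (e.injective.ne (hpq.trans hqr).ne)
    (e.injective.ne ((hpq.trans hqr).trans hrs).ne) (e.injective.ne hqr.ne)
    (e.injective.ne (hqr.trans hrs).ne) (e.injective.ne hrs.ne)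

theorem ste_rev (h : GN (X S) (Y S)) {p q r : Fin n} (h1 : p ≠ q) (h2 : q ≠ r) (h3 : p ≠ r) :
    ste e p r q = rev (ste e p q r) :=
  st_swap _ _ (h.gen _ _ _ (e.injective.ne h1) (e.injective.ne h2) (e.injective.ne h3))

theorem ste_rot (h : GN (X S) (Y S)) {p q r : Fin n} (h1 : p ≠ q) (h2 : q ≠ r) (h3 : p ≠ r) :
    ste e q r p = rotd (ste e p q r) :=
  st_rot _ _ (h.gen _ _ _ (e.injective.ne h1) (e.injective.ne h2) (e.injective.ne h3))

/-- the final arithmetic -/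
theorem arith5 {og K1 K2 : ℝ} (hog : 0 < og) (h1 : 0 ≤ K1) :
    ∃ η0 : ℝ, 0 < η0 ∧ ∃ n0 : ℕ, ∀ n η : ℝ, (n0 : ℝ) ≤ n → 0 ≤ η → η ≤ η0 →
      ¬ og * (n ^ 5 / 120 - n ^ 4) ≤ K1 * (η * n ^ 5) + K2 * n ^ 4 := by
  obtain ⟨n1, hn1⟩ := exists_nat_gt (240 * (K2 + og) / og)
  refine ⟨og / (240 * (K1 + 1)), by positivity, n1 + 1, ?_⟩
  intro n η hn hη hη1 hcon
  have hn' : (n1 : ℝ) + 1 ≤ n := by exact_mod_cast hn
  have hn0 : (0 : ℝ) ≤ n1 := Nat.cast_nonneg _
  have k3 : K1 * η ≤ og / 240 := by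
    calc K1 * η ≤ K1 * (og / (240 * (K1 + 1))) := mul_le_mul_of_nonneg_left hη1 h1
      _ ≤ (K1 + 1) * (og / (240 * (K1 + 1))) :=
        mul_le_mul_of_nonneg_right (by linarith) (by positivity)
      _ = og / 240 := by field_simp
  have k4 : 240 * (K2 + og) < n * og := by
    have : 240 * (K2 + og) / og < n := by linarith
    rwa [div_lt_iff₀ hog] at this
  have n4 : 0 < n ^ 4 := by
    have : 0 < n := by linarith
    positivity
  have k5 : K1 * η * n ^ 5 ≤ og / 240 * n ^ 5 := by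
    refine mul_le_mul_of_nonneg_right k3 ?_
    have : 0 < n := by linarith
    positivity
  have k6 : 240 * (K2 + og) * n ^ 4 < n * og * n ^ 4 := mul_lt_mul_of_pos_right k4 n4
  have k9 : og * n ^ 5 = n * og * n ^ 4 := by ring
  nlinarith

end rows

/-- **five points**: a certificate with positive margin excludes the nearly optimal sets in which
every acute triple has weight at least `th` per point; `V` is the inequality of the certificate -/
theorem five_near {w : ℕ → ℤ} {th : ℤ} {m : ℕ → ℕ} {d : ℕ → ℕ → ℤ} {og : ℕ} {C1 : ℝ} {cc : ℤ}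
    (hog : 0 < og) (hd : ∀ s < 8, 0 ≤ d 0 s + d 1 s + d 2 s)
    (hlt : 3 * dens (Set.Ici (Real.pi / 2)) ≤ 4 / 9)
    (hV : ∀ (S : Finset Pt) (n : ℕ) (e : Fin n ≃ S), GN (X S) (Y S) →
      -(C1 * (Fintype.card (Fin n) : ℝ) ^ 4) ≤
        I5 fun p q r s t => -(og : ℝ) - sp5 (aT e w th m d) p q r s t) :
    ∃ η0 : ℝ, 0 < η0 ∧ ∃ n0 : ℕ, ∀ (S : Finset Pt) (η : ℝ), Near S η → 0 ≤ η → η ≤ η0 →
      n0 ≤ Fintype.card S →
      ¬ ∀ r, AcT (X S) (Y S) r → th * Fintype.card S ≤ Ph (X S) (Y S) w r + cc := by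
  obtain ⟨b, hb⟩ := exists_B5 w th m d
  have b0 := hb.b0
  have hog' : (0 : ℝ) < og := by exact_mod_cast hog
  set B : ℝ := b * b + (b * 3 + b * 3 + b * 3) with hB
  have hB0 : 0 ≤ B := by rw [hB]; positivity
  set K1 : ℝ := 27 / 2 * b with hK1
  set K2 : ℝ := b * (|(cc : ℝ)| + 3 * b) + B + (6 * (2 * B) + C1) with hK2
  have hK10 : 0 ≤ K1 := by rw [hK1]; positivity
  obtain ⟨η0, hη0, n0, hfin⟩ := arith5 (K2 := K2) hog' hK10
  refine ⟨η0, hη0, n0, ?_⟩
  intro S η hS hη hη1 hn hW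
  have e : Fin (Fintype.card S) ≃ S := (Fintype.equivFin S).symm
  set n : ℕ := Fintype.card S with hnn
  have h1 := S5_ge_of_sym (ι := Fin n) (g := gT e w th m d) (B := B)
    (c := b * (|(cc : ℝ)| + 3 * b) * n + 27 / 2 * b * (η * (n : ℝ) ^ 2))
    (fun p q r y z => gT_abs hb p q r y z) (by positivity) hB0
    (fun p q r hpq hqr => gT_sum hb hS hnn hlt hd hW hpq hqr)
  have h2 := five_false (ι := Fin n) (A := aT e w th m d) (og := (og : ℝ)) (B := 2 * B) hog'.le
    (fun p q r y z => aT_abs hb p q r y z) h1 (hV S n e (gn_of hS.gen hS.nr))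
  rw [Fintype.card_fin] at h2
  refine hfin n η (by exact_mod_cast hn) hη hη1 ?_
  refine h2.trans (le_of_eq ?_)
  rw [hK1, hK2]
  ring

end Pool.Agent.AKC
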