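import Pool.Agent.AKU5.Use
import Pool.Agent.AKC.Five

set_option autoImplicit false

/-!
# Five points: the engine applied to numbered points
-/

namespace Pool.Agent.AKC

open Finset Pool.Agent.MP_0af329_co Pool.Agent.AK Pool.Agent.AKO

variable {S : Finset Pt} {n : ℕ}

/-- the configuration of numbered points -/
noncomputable def Ge (e : Fin n ≃ S) : AKU5.Cfg5 (Fin n) := ⟨ste e, cde e⟩

theorem sw_eq : ∀ t < 8, AKU5.sw t = AKG.rev t := by
  intro t ht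
  interval_cases t <;> decide

theorem ro_eq : ∀ t < 8, AKU5.ro t = AKG.rotd t := by
  intro t ht
  interval_cases t <;> decide

theorem cd_eq (a b c d : ℕ) : AKU5.cd a b c d = ((a * 8 + b) * 8 + c) * 8 + d := by
  show 8 * (8 * (8 * a + b) + c) + d = _
  ring

variable {e : Fin n ≃ S}

theorem cde_eq' (a b c y : Fin n) :
    cde e a b c y = ((ste e a b c * 8 + ste e a b y) * 8 + ste e a c y) * 8 + ste e b c y := rfl

theorem Ge_ok (h : AKG.GN (X S) (Y S)) : (Ge e).Ok AKG.TAB := by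
  refine ⟨fun p q r _ _ => ste_lt e p q r, ?_, ?_, ?_, ?_, ?_⟩
  · intro p q r s hpq hqr hrs
    rw [cd_eq]
    exact tab_e h hpq hqr hrs
  · intro p q r s _ _ _
    show cde e p q r s = AKU5.cd _ _ _ _
    rw [cd_eq]
    rfl
  · intro p q r s hpq hqr hrs
    show cde e p q s r = AKU5.cd _ _ _ _
    have hpr := hpq.trans hqr
    have hqs := hqr.trans hrs
    have hps := hpr.trans hrs
    have l1 := ste_lt e p r s
    have l2 := ste_lt e q r s
    show _ = AKU5.cd (ste e p q s) (ste e p q r) (AKU5.sw (ste e p r s)) (AKU5.sw (ste e q r s))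
    rw [cd_eq, cde_eq', sw_eq _ l1, sw_eq _ l2, ste_rev h hpr.ne hrs.ne hps.ne,
      ste_rev h hqr.ne hrs.ne hqs.ne]
  · intro p q r s hpq hqr hrs
    have hpr := hpq.trans hqr
    have hqs := hqr.trans hrs
    have hps := hpr.trans hrs
    have l1 := ste_lt e p q r
    have l2 := ste_lt e p q s
    have l3 := ste_lt e q r s
    show cde e p r s q = AKU5.cd (ste e p r s) (AKU5.sw (ste e p q r)) (AKU5.sw (ste e p q s))
      (AKU5.ro (ste e q r s))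
    rw [cd_eq, cde_eq', sw_eq _ l1, sw_eq _ l2, ro_eq _ l3, ste_rev h hpq.ne hqr.ne hpr.ne,
      ste_rev h hpq.ne hqs.ne hps.ne, ste_rot h hqr.ne hrs.ne hqs.ne]
  · intro p q r s hpq hqr hrs
    have hpr := hpq.trans hqr
    have hqs := hqr.trans hrs
    have hps := hpr.trans hrs
    have l1 := ste_lt e p q r
    have l2 := ste_lt e p q s
    have l3 := ste_lt e p r s
    show cde e q r s p = AKU5.cd (ste e q r s) (AKU5.ro (ste e p q r)) (AKU5.ro (ste e p q s))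
      (AKU5.ro (ste e p r s))
    rw [cd_eq, cde_eq', ro_eq _ l1, ro_eq _ l2, ro_eq _ l3, ste_rot h hpq.ne hqr.ne hpr.ne,
      ste_rot h hpq.ne hqs.ne hps.ne, ste_rot h hpr.ne hrs.ne hps.ne]

theorem na_eq (t : ℕ) : AKY.na t = AKU.na t := rfl

/-- the row of the engine, as a real number -/
theorem RA_eq (R : AKU5.Rw) (s f g x y z : ℕ) : ((R.A s f g x y z : ℤ) : ℝ) =
    (if s % 4 = 0 then (R.m f : ℝ) * ((R.w g : ℝ) - R.th) + (R.m g : ℝ) * ((R.w f : ℝ) - R.th)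
      else 0) +
    ((R.d 0 s : ℝ) * (4 - 9 * x) + (R.d 1 s : ℝ) * (4 - 9 * y) + (R.d 2 s : ℝ) * (4 - 9 * z)) := by
  unfold AKU5.Rw.A
  split_ifs <;> push_cast <;> ring

/-- the row of the engine -/
theorem Ar_eq (R : AKU5.Rw) {a b c y z : Fin n} (hyz : y < z) (hD : Dj a b c y z) :
    AKU5.Ar (Ge e) R a b c y z = aT e R.w R.th R.m R.d a b c y z := by
  rw [aT_eq hD]
  obtain ⟨h1, h2, h3, h4, h5, h6⟩ := hD
  unfold AKU5.Ar AKU5.A AKU5.Cfg5.nt
  rw [RA_eq, Nf_n3 hyz h1.symm h4.symm, Nf_n3 hyz h2.symm h5.symm, Nf_n3 hyz h3.symm h6.symm]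
  rfl

/-- the inequality of the engine -/
theorem V5_aT (R : AKU5.Rw) {p q r s t : Fin n} (hpq : p < q) (hqr : q < r) (hrs : r < s)
    (hst : s < t) : ((AKU5.V5 (Ge e) R p q r s t : ℤ) : ℝ) =
      -(R.og : ℝ) - sp5 (aT e R.w R.th R.m R.d) p q r s t := by
  rw [AKU5.V5_real]
  unfold sp5
  have hpr := hpq.trans hqr
  have hps := hpr.trans hrs
  have hpt := hps.trans hst
  have hqs := hqr.trans hrs
  have hqt := hqs.trans hst
  have hrt := hrs.trans hst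
  rw [Ar_eq R hst ⟨hps.ne', hqs.ne', hrs.ne', hpt.ne', hqt.ne', hrt.ne'⟩,
    Ar_eq R hrt ⟨hpr.ne', hqr.ne', hrs.ne, hpt.ne', hqt.ne', hst.ne'⟩,
    Ar_eq R hrs ⟨hpr.ne', hqr.ne', hrt.ne, hps.ne', hqs.ne', hst.ne⟩,
    Ar_eq R hqt ⟨hpq.ne', hqr.ne, hqs.ne, hpt.ne', hrt.ne', hst.ne'⟩,
    Ar_eq R hqs ⟨hpq.ne', hqr.ne, hqt.ne, hps.ne', hrs.ne', hst.ne⟩,
    Ar_eq R hqr ⟨hpq.ne', hqs.ne, hqt.ne, hpr.ne', hrs.ne, hrt.ne⟩,
    Ar_eq R hpt ⟨hpq.ne, hpr.ne, hps.ne, hqt.ne', hrt.ne', hst.ne'⟩,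
    Ar_eq R hps ⟨hpq.ne, hpr.ne, hpt.ne, hqs.ne', hrs.ne', hst.ne⟩,
    Ar_eq R hpr ⟨hpq.ne, hps.ne, hpt.ne, hqr.ne', hrs.ne, hrt.ne⟩,
    Ar_eq R hpq ⟨hpr.ne, hps.ne, hpt.ne, hqr.ne, hqs.ne, hqt.ne⟩]

/-- **The unrooted part**: a checked certificate with five points excludes the nearly optimal sets
in which every acute triple has weight at least `th` per point. -/
theorem U_false {C : AKU5.Ce} {IX : ℕ} {R : AKU5.Rw} {cc : ℤ} (h : AKU5.ok C IX AKG.TAB = true)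
    (hR : AKU5.Fits C IX AKG.TAB R) (hm : ∀ a < 8, ∀ b < 8, AKU5.chk C a b = true)
    (hog : 0 < R.og) (hd : ∀ s < 8, 0 ≤ R.d 0 s + R.d 1 s + R.d 2 s)
    (hlt : 3 * dens (Set.Ici (Real.pi / 2)) ≤ 4 / 9) :
    ∃ η0 : ℝ, 0 < η0 ∧ ∃ n0 : ℕ, ∀ (S : Finset Pt) (η : ℝ), Near S η → 0 ≤ η → η ≤ η0 →
      n0 ≤ Fintype.card S →
      ¬ ∀ r, AKG.AcT (X S) (Y S) r →
        R.th * Fintype.card S ≤ AKG.Ph (X S) (Y S) R.w r + cc := by
  refine five_near (og := R.og) (C1 := 7 * AKU5.BB) (w := R.w) (th := R.th) (m := R.m) (d := R.d)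
    hog hd hlt ?_
  intro S n e hG
  have h1 := AKU5.engine (κ := Fin n) h hR (Ge_ok (e := e) hG) hm
  refine h1.trans (le_of_eq ?_)
  unfold I5
  congr 1
  funext p q r s t
  split_ifs with hlt
  · exact V5_aT R hlt.1 hlt.2.1 hlt.2.2.1 hlt.2.2.2
  · rfl

theorem TAB_AKY : AKY.TAB = AKG.TAB := by decide +kernel

/-- **The unrooted part** in the form of a certificate: `w` = weights of the types (any function
which agrees with the certificate at the codes of acute roots). -/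
theorem U_cert {C : AKU5.Ce} {IX : ℕ} {w : ℕ → ℤ} {cc : ℤ} (h : AKU5.ok C IX AKY.TAB = true)
    (hw : ∀ c < 4096, AKY.TAB.testBit c = true → c / 512 % 4 = 0 →
      w c = AKY.lq C.w (AKY.lb IX c))
    (hm : ∀ a < 8, ∀ b < 8, AKU5.chk C a b = true) (hog : 0 < C.og)
    (hlt : 3 * dens (Set.Ici (Real.pi / 2)) ≤ 4 / 9) :
    ∃ η0 : ℝ, 0 < η0 ∧ ∃ n0 : ℕ, ∀ (S : Finset Pt) (η : ℝ), Near S η → 0 ≤ η → η ≤ η0 →
      n0 ≤ Fintype.card S →
      ¬ ∀ r, AKG.AcT (X S) (Y S) r →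
        C.th * Fintype.card S ≤ AKG.Ph (X S) (Y S) w r + cc := by
  have hF : AKU5.Fits C IX AKY.TAB (AKU5.rows C IX w) := AKU5.fits hw
  have hd := AKU5.d_nonneg (w := w) h
  rw [TAB_AKY] at h hF
  exact U_false (R := AKU5.rows C IX w) h hF hm hog hd hlt

end Pool.Agent.AKC
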