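import Pool.Agent.AKC.Bound4
import Pool.Agent.AKO.Root

set_option autoImplicit false

/-!
# Rows with three or with two leading points: closure properties
-/

namespace Pool.Agent.AKC

open Finset Pool.Agent.FCK

variable {ι : Type*} [Fintype ι] [LinearOrder ι]

/-- rows with three leading points and one further point -/
def Row3 (E B : ℝ) (A : ι → ι → ι → ι → ℝ) : Prop :=
  (∀ p q r x, |A p q r x| ≤ B) ∧ -E ≤ S4 fun p q r x => if p < q ∧ q < r then A p q r x else 0

/-- rows with two leading points and two further points -/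
def Row2 (E B : ℝ) (A : ι → ι → ι → ι → ℝ) : Prop :=
  (∀ i j r t, |A i j r t| ≤ B) ∧ -E ≤ S4 fun i j r t => if i < j ∧ r < t then A i j r t else 0

theorem S4_if_add (P : ι → ι → ι → ι → Prop) [∀ a b c d, Decidable (P a b c d)]
    (f g : ι → ι → ι → ι → ℝ) :
    S4 (fun p q r s => if P p q r s then f p q r s + g p q r s else 0) =
      S4 (fun p q r s => if P p q r s then f p q r s else 0) +
        S4 (fun p q r s => if P p q r s then g p q r s else 0) := by
  rw [← S4_add]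
  congr 1
  funext p q r s
  split_ifs <;> simp

theorem Row3.add {E B E' B' : ℝ} {A A' : ι → ι → ι → ι → ℝ} (h : Row3 E B A) (h' : Row3 E' B' A') :
    Row3 (E + E') (B + B') fun p q r x => A p q r x + A' p q r x := by
  refine ⟨fun p q r x => (abs_add_le _ _).trans (add_le_add (h.1 _ _ _ _) (h'.1 _ _ _ _)), ?_⟩
  rw [S4_if_add (fun p q r _ => p < q ∧ q < r)]
  linarith [h.2, h'.2]

theorem Row2.add {E B E' B' : ℝ} {A A' : ι → ι → ι → ι → ℝ} (h : Row2 E B A) (h' : Row2 E' B' A') :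
    Row2 (E + E') (B + B') fun p q r x => A p q r x + A' p q r x := by
  refine ⟨fun p q r x => (abs_add_le _ _).trans (add_le_add (h.1 _ _ _ _) (h'.1 _ _ _ _)), ?_⟩
  rw [S4_if_add (fun i j r t => i < j ∧ r < t)]
  linarith [h.2, h'.2]

theorem Row3.zero : Row3 (ι := ι) 0 0 fun _ _ _ _ => 0 := by
  refine ⟨fun _ _ _ _ => by simp, ?_⟩
  simp [S4]

theorem Row2.zero : Row2 (ι := ι) 0 0 fun _ _ _ _ => 0 := by
  refine ⟨fun _ _ _ _ => by simp, ?_⟩
  simp [S4]

theorem Row3.sum {K : Type*} (s : Finset K) {E B : K → ℝ} {A : K → ι → ι → ι → ι → ℝ}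
    (h : ∀ k ∈ s, Row3 (E k) (B k) (A k)) :
    Row3 (∑ k ∈ s, E k) (∑ k ∈ s, B k) fun p q r x => ∑ k ∈ s, A k p q r x := by
  classical
  induction s using Finset.induction_on with
  | empty => simpa using Row3.zero
  | insert a s ha ih =>
    simp only [sum_insert ha]
    exact (h a (mem_insert_self a s)).add (ih fun k hk => h k (mem_insert_of_mem hk))

theorem Row2.sum {K : Type*} (s : Finset K) {E B : K → ℝ} {A : K → ι → ι → ι → ι → ℝ}
    (h : ∀ k ∈ s, Row2 (E k) (B k) (A k)) :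
    Row2 (∑ k ∈ s, E k) (∑ k ∈ s, B k) fun p q r x => ∑ k ∈ s, A k p q r x := by
  classical
  induction s using Finset.induction_on with
  | empty => simpa using Row2.zero
  | insert a s ha ih =>
    simp only [sum_insert ha]
    exact (h a (mem_insert_self a s)).add (ih fun k hk => h k (mem_insert_of_mem hk))

theorem Row3.of_pt {c B : ℝ} (hc : 0 ≤ c) {A : ι → ι → ι → ι → ℝ}
    (hB : ∀ p q r x, |A p q r x| ≤ B)
    (h : ∀ p q r, p < q → q < r → -c ≤ ∑ x, A p q r x) :
    Row3 (c * (Fintype.card ι : ℝ) ^ 3) B A := by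
  refine ⟨hB, ?_⟩
  have h1 : ∑ _p : ι, ∑ _q : ι, ∑ _r : ι, (-c) = -(c * (Fintype.card ι : ℝ) ^ 3) := by
    simp only [sum_const, card_univ, nsmul_eq_mul]
    ring
  rw [← h1]
  refine sum_le_sum fun p _ => sum_le_sum fun q _ => sum_le_sum fun r _ => ?_
  by_cases hp : p < q ∧ q < r
  · simp only [if_pos hp]
    exact h p q r hp.1 hp.2
  · simp only [if_neg hp, sum_const_zero]
    linarith

theorem Row2.of_pt {c B : ℝ} (hc : 0 ≤ c) {A : ι → ι → ι → ι → ℝ}
    (hB : ∀ p q r x, |A p q r x| ≤ B)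
    (h : ∀ i j, i < j → -c ≤ ∑ r, ∑ t, if r < t then A i j r t else 0) :
    Row2 (c * (Fintype.card ι : ℝ) ^ 2) B A := by
  refine ⟨hB, ?_⟩
  have h1 : ∑ _p : ι, ∑ _q : ι, (-c) = -(c * (Fintype.card ι : ℝ) ^ 2) := by
    simp only [sum_const, card_univ, nsmul_eq_mul]
    ring
  rw [← h1]
  refine sum_le_sum fun p _ => sum_le_sum fun q _ => ?_
  by_cases hp : p < q
  · simp only [hp, true_and]
    exact h p q hp
  · simp only [hp, false_and, if_false, sum_const_zero]
    linarith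

/-- sums over unordered pairs -/
theorem sum_pairs (g : ι → ι → ℝ) :
    ∑ r, ∑ t, (if r < t then g r t + g t r else 0) = ∑ r, ∑ t, g r t - ∑ r, g r r := by
  have h1 : ∑ r : ι, ∑ t : ι, (if r < t then g r t + g t r else 0) =
      ∑ r, ∑ t, (if r < t then g r t else 0) + ∑ r, ∑ t, (if t < r then g r t else 0) := by
    have h2 : ∑ r : ι, ∑ t : ι, (if t < r then g r t else 0) =
        ∑ r, ∑ t, (if r < t then g t r else 0) := sum_comm
    rw [h2, ← sum_add_distrib]
    refine sum_congr rfl fun r _ => ?_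
    rw [← sum_add_distrib]
    refine sum_congr rfl fun t _ => ?_
    split_ifs <;> simp
  rw [h1, ← sum_add_distrib, ← sum_sub_distrib]
  refine sum_congr rfl fun r _ => ?_
  rw [← sum_add_distrib]
  have h3 : g r r = ∑ t, (if t = r then g r t else 0) := by
    rw [sum_ite_eq' univ r]
    simp
  rw [h3, ← sum_sub_distrib]
  refine sum_congr rfl fun t _ => ?_
  rcases lt_trichotomy r t with h | h | h
  · simp [h, not_lt_of_gt h, h.ne']
  · subst h
    simp
  · simp [h, not_lt_of_gt h, h.ne]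

/-- symmetrised rows -/
theorem Row2.of_sym {c B : ℝ} {g : ι → ι → ι → ι → ℝ} (hB : ∀ p q r x, |g p q r x| ≤ B)
    (h : ∀ i j, i < j → -c ≤ ∑ r, ∑ t, g i j r t) (hc : 0 ≤ c) (hB0 : 0 ≤ B) :
    Row2 ((c + B * Fintype.card ι) * (Fintype.card ι : ℝ) ^ 2) (B + B)
      fun i j r t => g i j r t + g i j t r := by
  refine Row2.of_pt (by positivity) (fun p q r x => (abs_add_le _ _).trans
    (add_le_add (hB _ _ _ _) (hB _ _ _ _))) ?_
  intro i j hij
  rw [sum_pairs]
  have h1 := h i j hij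
  have h2 : ∑ r, g i j r r ≤ B * Fintype.card ι := by
    calc ∑ r, g i j r r ≤ ∑ _r : ι, B := sum_le_sum fun r _ => (le_abs_self _).trans (hB _ _ _ _)
      _ = B * Fintype.card ι := by
        rw [sum_const, card_univ, nsmul_eq_mul]
        ring
  linarith

/-- a valid linear form with a nonnegative multiplier -/
theorem Row3.of_form {b c B : ℝ} {lam : ι → ι → ι → ℝ} {L : ι → ι → ι → ι → ℝ}
    (h0 : ∀ p q r, 0 ≤ lam p q r) (h1 : ∀ p q r, lam p q r ≤ b)
    (hL : ∀ p q r x, |L p q r x| ≤ B) (hc : 0 ≤ c)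
    (h : ∀ p q r, p < q → q < r → -c ≤ ∑ x, L p q r x) :
    Row3 (b * c * (Fintype.card ι : ℝ) ^ 3) (b * B) fun p q r x => lam p q r * L p q r x := by
  by_cases hι : Nonempty ι
  · obtain ⟨p0⟩ := hι
    have hb : 0 ≤ b := (h0 p0 p0 p0).trans (h1 p0 p0 p0)
    refine Row3.of_pt (by positivity) ?_ ?_
    · intro p q r x
      rw [abs_mul, abs_of_nonneg (h0 p q r)]
      exact mul_le_mul (h1 p q r) (hL p q r x) (abs_nonneg _) hb
    · intro p q r hpq hqr
      rw [← mul_sum]
      have h2 := h p q r hpq hqr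
      have h3 : lam p q r * -c ≤ lam p q r * ∑ x, L p q r x :=
        mul_le_mul_of_nonneg_left h2 (h0 p q r)
      have h4 : lam p q r * c ≤ b * c := mul_le_mul_of_nonneg_right (h1 p q r) hc
      linarith
  · rw [not_nonempty_iff] at hι
    refine ⟨fun p => (hι.false p).elim, ?_⟩
    simp [S4]

/-- a product of two valid linear forms -/
theorem Row2.of_prod {b B : ℝ} {lam : ι → ι → ℝ} {L L' : ι → ι → ι → ℝ}
    (h0 : ∀ i j, 0 ≤ lam i j) (h1 : ∀ i j, lam i j ≤ b) (hb : 0 ≤ b) (hB : 0 ≤ B)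
    (hL : ∀ i j x, |L i j x| ≤ B) (hL' : ∀ i j x, |L' i j x| ≤ B)
    (h : ∀ i j, i < j → 0 ≤ ∑ x, L i j x) (h' : ∀ i j, i < j → 0 ≤ ∑ x, L' i j x) :
    Row2 (b * B ^ 2 * (Fintype.card ι : ℝ) ^ 3) (b * B ^ 2 + b * B ^ 2)
      fun i j r t => lam i j * (L i j r * L' i j t) + lam i j * (L i j t * L' i j r) := by
  have hg : ∀ p q r x, |lam p q * (L p q r * L' p q x)| ≤ b * B ^ 2 := by
    intro p q r x
    rw [abs_mul, abs_mul, abs_of_nonneg (h0 p q), sq]
    exact mul_le_mul (h1 p q) (mul_le_mul (hL _ _ _) (hL' _ _ _) (abs_nonneg _) hB)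
      (mul_nonneg (abs_nonneg _) (abs_nonneg _)) hb
  have h2 := Row2.of_sym (g := fun i j r t => lam i j * (L i j r * L' i j t)) (c := 0) hg ?_
    le_rfl (by positivity)
  · have e : (0 + b * B ^ 2 * (Fintype.card ι : ℝ)) * (Fintype.card ι : ℝ) ^ 2 =
        b * B ^ 2 * (Fintype.card ι : ℝ) ^ 3 := by ring
    rw [e] at h2
    exact h2
  · intro i j hij
    have e : ∑ r, ∑ t, lam i j * (L i j r * L' i j t) =
        lam i j * ((∑ r, L i j r) * ∑ t, L' i j t) := by
      rw [sum_mul_sum, mul_sum]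
      refine sum_congr rfl fun r _ => ?_
      rw [mul_sum]
    rw [e, neg_zero]
    exact mul_nonneg (h0 i j) (mul_nonneg (h i j hij) (h' i j hij))

/-- bracket rows: `mu` for the pair, `nu ≤ mu` for the pair and the point `p` -/
theorem Row2.of_br {b c κ2 t0 : ℝ} {mu : ι → ι → ℝ} {nu : ι → ι → ι → ℝ} {w : ι → ι → ℝ}
    (hmu : ∀ i j, mu i j ≤ b) (hb : 0 ≤ b)
    (hnu0 : ∀ i j p, 0 ≤ nu i j p) (hnu : ∀ i j p, nu i j p ≤ mu i j)
    (hw : ∀ p x, |t0 - w p x| ≤ 1) (hκ0 : 0 ≤ κ2) (hκ1 : κ2 ≤ 1) (hc : 0 ≤ c)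
    (hbr : ∑ p, max (t0 * Fintype.card ι - ∑ x, w p x) 0 ≤
      κ2 * (Fintype.card ι : ℝ) ^ 2 + c * Fintype.card ι) :
    Row2 ((b * c + 2 * b) * (Fintype.card ι : ℝ) ^ 3) (2 * b + 2 * b)
      fun i j p x => (mu i j * κ2 - nu i j p * (t0 - w p x)) +
        (mu i j * κ2 - nu i j x * (t0 - w x p)) := by
  by_cases hι : Nonempty ι
  swap
  · rw [not_nonempty_iff] at hι
    refine ⟨fun p => (hι.false p).elim, ?_⟩
    simp [S4]
  obtain ⟨p0⟩ := hι
  have hmu0 : ∀ i j, 0 ≤ mu i j := fun i j => (hnu0 i j p0).trans (hnu i j p0)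
  have hg : ∀ i j p x, |mu i j * κ2 - nu i j p * (t0 - w p x)| ≤ 2 * b := by
    intro i j p x
    have h1 : |mu i j * κ2| ≤ b := by
      rw [abs_of_nonneg (mul_nonneg (hmu0 i j) hκ0)]
      calc mu i j * κ2 ≤ b * 1 := mul_le_mul (hmu i j) hκ1 hκ0 hb
        _ = b := mul_one b
    have h2 : |nu i j p * (t0 - w p x)| ≤ b := by
      rw [abs_mul, abs_of_nonneg (hnu0 i j p)]
      calc nu i j p * |t0 - w p x| ≤ b * 1 :=
            mul_le_mul ((hnu i j p).trans (hmu i j)) (hw p x) (abs_nonneg _) hb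
        _ = b := mul_one b
    have h3 := abs_sub (mu i j * κ2) (nu i j p * (t0 - w p x))
    linarith
  have h2 := Row2.of_sym (g := fun i j p x => mu i j * κ2 - nu i j p * (t0 - w p x))
    (c := b * c * Fintype.card ι) hg ?_ (by positivity) (by positivity)
  · have e : (b * c * (Fintype.card ι : ℝ) + 2 * b * (Fintype.card ι : ℝ)) *
        (Fintype.card ι : ℝ) ^ 2 = (b * c + 2 * b) * (Fintype.card ι : ℝ) ^ 3 := by ring
    rw [e] at h2
    exact h2
  · intro i j hij
    have e : ∑ p, ∑ x, (mu i j * κ2 - nu i j p * (t0 - w p x)) =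
        mu i j * κ2 * (Fintype.card ι : ℝ) ^ 2 -
          ∑ p, nu i j p * (t0 * Fintype.card ι - ∑ x, w p x) := by
      have e1 : ∀ p, ∑ x, (mu i j * κ2 - nu i j p * (t0 - w p x)) =
          mu i j * κ2 * Fintype.card ι - nu i j p * (t0 * Fintype.card ι - ∑ x, w p x) := by
        intro p
        rw [sum_sub_distrib, sum_const, card_univ, nsmul_eq_mul, ← mul_sum, sum_sub_distrib,
          sum_const, card_univ, nsmul_eq_mul]
        ring
      rw [sum_congr rfl fun p _ => e1 p, sum_sub_distrib]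
      simp only [sum_const, card_univ, nsmul_eq_mul]
      ring
    rw [e]
    have h3 : ∑ p, nu i j p * (t0 * Fintype.card ι - ∑ x, w p x) ≤
        mu i j * ∑ p, max (t0 * Fintype.card ι - ∑ x, w p x) 0 := by
      rw [mul_sum]
      refine sum_le_sum fun p _ => ?_
      calc nu i j p * (t0 * Fintype.card ι - ∑ x, w p x)
          ≤ nu i j p * max (t0 * Fintype.card ι - ∑ x, w p x) 0 :=
            mul_le_mul_of_nonneg_left (le_max_left _ _) (hnu0 i j p)
        _ ≤ mu i j * max (t0 * Fintype.card ι - ∑ x, w p x) 0 :=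
            mul_le_mul_of_nonneg_right (hnu i j p) (le_max_right _ _)
    have h4 : mu i j * ∑ p, max (t0 * Fintype.card ι - ∑ x, w p x) 0 ≤
        mu i j * (κ2 * (Fintype.card ι : ℝ) ^ 2 + c * Fintype.card ι) :=
      mul_le_mul_of_nonneg_left hbr (hmu0 i j)
    have h5 : mu i j * (c * Fintype.card ι) ≤ b * (c * Fintype.card ι) :=
      mul_le_mul_of_nonneg_right (hmu i j) (by positivity)
    linarith

/-- degree rows: `D r t` is symmetric -/
theorem Row2.of_deg {b c t0 : ℝ} {lam : ι → ι → ℝ} {D : ι → ι → ι → ι → ℝ}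
    (h0 : ∀ i j, 0 ≤ lam i j) (h1 : ∀ i j, lam i j ≤ b) (hb : 0 ≤ b) (hc : 0 ≤ c)
    (ht0 : 0 ≤ t0) (ht1 : t0 ≤ 1)
    (hD0 : ∀ i j r t, 0 ≤ D i j r t) (hD1 : ∀ i j r t, D i j r t ≤ 1)
    (hsym : ∀ i j r t, D i j r t = D i j t r)
    (hdeg : ∀ i j, i < j → ∑ r, ∑ t, D i j r t ≤ t0 * (Fintype.card ι : ℝ) ^ 2 + c) :
    Row2 ((b * c + b * Fintype.card ι) * (Fintype.card ι : ℝ) ^ 2) (b + b)
      fun i j r t => 2 * (lam i j * (t0 - D i j r t)) := by
  have hg : ∀ i j p x, |lam i j * (t0 - D i j p x)| ≤ b := by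
    intro i j p x
    rw [abs_mul, abs_of_nonneg (h0 i j)]
    calc lam i j * |t0 - D i j p x| ≤ b * 1 := by
          refine mul_le_mul (h1 i j) ?_ (abs_nonneg _) hb
          rw [abs_le]
          have := hD0 i j p x
          have := hD1 i j p x
          constructor <;> linarith
      _ = b := mul_one b
  have h2 := Row2.of_sym (g := fun i j r t => lam i j * (t0 - D i j r t)) (c := b * c) hg ?_
    (by positivity) hb
  · have e : (fun i j r t : ι => 2 * (lam i j * (t0 - D i j r t))) =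
        fun i j r t => lam i j * (t0 - D i j r t) + lam i j * (t0 - D i j t r) := by
      funext i j r t
      rw [hsym i j t r]
      ring
    rw [e]
    exact h2
  · intro i j hij
    have e : ∑ r, ∑ t, lam i j * (t0 - D i j r t) =
        lam i j * (t0 * (Fintype.card ι : ℝ) ^ 2 - ∑ r, ∑ t, D i j r t) := by
      have e1 : ∀ r, ∑ t, lam i j * (t0 - D i j r t) =
          lam i j * (t0 * Fintype.card ι - ∑ t, D i j r t) := by
        intro r
        rw [← mul_sum, sum_sub_distrib]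
        simp only [sum_const, card_univ, nsmul_eq_mul]
        ring
      rw [sum_congr rfl fun r _ => e1 r, ← mul_sum, sum_sub_distrib]
      simp only [sum_const, card_univ, nsmul_eq_mul]
      ring
    rw [e]
    have h3 := hdeg i j hij
    have h4 : lam i j * -c ≤ lam i j * (t0 * (Fintype.card ι : ℝ) ^ 2 - ∑ r, ∑ t, D i j r t) :=
      mul_le_mul_of_nonneg_left (by linarith) (h0 i j)
    have h5 : lam i j * c ≤ b * c := mul_le_mul_of_nonneg_right (h1 i j) hc
    linarith

/-- products of a function of the leading pair and a function of the other pair -/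
theorem Row2.of_prod2 {b B : ℝ} (hb : 0 ≤ b) (hB : 0 ≤ B) {f g : ι → ι → ℝ}
    (hf : ∀ i j, |f i j| ≤ B) (hg : ∀ i j, |g i j| ≤ B)
    (h : 0 ≤ ∑ i, ∑ j, if i < j then f i j else 0)
    (h' : 0 ≤ ∑ i, ∑ j, if i < j then g i j else 0) :
    Row2 0 (b * B ^ 2) fun i j r t => b * (f i j * g r t) := by
  refine ⟨fun i j r t => ?_, ?_⟩
  · rw [abs_mul, abs_mul, abs_of_nonneg hb, sq]
    exact mul_le_mul_of_nonneg_left (mul_le_mul (hf _ _) (hg _ _) (abs_nonneg _) hB) hb
  · have e1 : S4 (fun i j r t : ι => if i < j ∧ r < t then b * (f i j * g r t) else 0) =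
        b * ((∑ i, ∑ j, if i < j then f i j else 0) * ∑ i, ∑ j, if i < j then g i j else 0) := by
      unfold S4
      rw [sum_mul, mul_sum]
      refine sum_congr rfl fun i _ => ?_
      rw [sum_mul, mul_sum]
      refine sum_congr rfl fun j _ => ?_
      by_cases k : i < j
      · simp only [k, true_and, if_true]
        rw [mul_sum, mul_sum]
        refine sum_congr rfl fun r _ => ?_
        rw [mul_sum, mul_sum]
        refine sum_congr rfl fun t _ => ?_
        split_ifs <;> simp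
      · simp [k]
    rw [e1, neg_zero]
    exact mul_nonneg hb (mul_nonneg h h')

/-- psd blocks on the faces over a pair -/
theorem Row2.of_psd {K A : Type*} [Fintype A] [DecidableEq A] (M : K → A → A → ℝ) {B : ℝ}
    (hB : ∀ k a b, |M k a b| ≤ B) (hB0 : 0 ≤ B)
    (hM : ∀ k, ∀ z : A → ℝ, 0 ≤ ∑ a, ∑ b, M k a b * (z a * z b))
    (τ : ι → ι → K) (f : ι → ι → ι → A) :
    Row2 (B * (Fintype.card ι : ℝ) ^ 3) (B + B)
      fun i j r t => M (τ i j) (f i j r) (f i j t) + M (τ i j) (f i j t) (f i j r) := by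
  have h2 := Row2.of_sym (g := fun i j r t => M (τ i j) (f i j r) (f i j t)) (c := 0)
    (B := B) (fun _ _ _ _ => hB _ _ _) ?_ le_rfl hB0
  · have e : (0 + B * (Fintype.card ι : ℝ)) * (Fintype.card ι : ℝ) ^ 2 =
        B * (Fintype.card ι : ℝ) ^ 3 := by ring
    rw [e] at h2
    exact h2
  · intro i j _
    rw [neg_zero]
    exact Pool.Agent.AKO.psd_code (M (τ i j)) (hM (τ i j)) (f i j)

/-- the block on pairs -/
theorem Row2.of_Z {A : Type*} [Fintype A] [DecidableEq A] (Z : A → A → ℝ) (B : ℝ)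
    (hB : ∀ a b, |Z a b| ≤ B) (hZ : ∀ z : A → ℝ, 0 ≤ ∑ a, ∑ b, Z a b * (z a * z b))
    (τ : ι → ι → A) : Row2 0 B fun i j r t => Z (τ i j) (τ r t) := by
  refine ⟨fun i j r t => hB _ _, ?_⟩
  have h := hZ fun a => ∑ i : ι, ∑ j : ι, if i < j ∧ τ i j = a then 1 else 0
  rw [neg_zero]
  refine h.trans (le_of_eq ?_)
  have e1 : ∀ a b, Z a b * ((∑ i : ι, ∑ j : ι, if i < j ∧ τ i j = a then (1 : ℝ) else 0) *
      ∑ i : ι, ∑ j : ι, if i < j ∧ τ i j = b then (1 : ℝ) else 0) =
      S4 fun i j r t => if i < j ∧ r < t then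
        (if τ i j = a then (if τ r t = b then Z a b else 0) else 0) else 0 := by
    intro a b
    unfold S4
    rw [sum_mul, mul_sum]
    refine sum_congr rfl fun i _ => ?_
    rw [sum_mul, mul_sum]
    refine sum_congr rfl fun j _ => ?_
    rw [mul_sum, mul_sum]
    refine sum_congr rfl fun r _ => ?_
    rw [mul_sum, mul_sum]
    refine sum_congr rfl fun t _ => ?_
    by_cases h1 : i < j <;> by_cases h2 : r < t <;> by_cases h3 : τ i j = a <;>
      by_cases h4 : τ r t = b <;> simp [h1, h2, h3, h4]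
  simp only [e1]
  unfold S4
  have c1 : ∀ g : A → A → ι → ι → ι → ι → ℝ,
      ∑ a, ∑ b, ∑ i, ∑ j, ∑ r, ∑ t, g a b i j r t =
      ∑ i, ∑ j, ∑ r, ∑ t, ∑ a, ∑ b, g a b i j r t := by
    intro g
    have d1 : ∀ a, ∑ b, ∑ i, ∑ j, ∑ r, ∑ t, g a b i j r t =
        ∑ i, ∑ j, ∑ r, ∑ t, ∑ b, g a b i j r t := by
      intro a
      rw [sum_comm]
      refine sum_congr rfl fun i _ => ?_
      rw [sum_comm]
      refine sum_congr rfl fun j _ => ?_
      rw [sum_comm]
      refine sum_congr rfl fun r _ => ?_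
      rw [sum_comm]
    rw [sum_congr rfl fun a _ => d1 a, sum_comm]
    refine sum_congr rfl fun i _ => ?_
    rw [sum_comm]
    refine sum_congr rfl fun j _ => ?_
    rw [sum_comm]
    refine sum_congr rfl fun r _ => ?_
    rw [sum_comm]
  rw [c1]
  refine sum_congr rfl fun i _ => sum_congr rfl fun j _ => sum_congr rfl fun r _ =>
    sum_congr rfl fun t _ => ?_
  by_cases h1 : i < j ∧ r < t
  · simp only [if_pos h1]
    simp
  · simp only [if_neg h1, sum_const_zero]

end Pool.Agent.AKC
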