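import Pool.Agent.AKC.Exist
import Pool.Agent.AKC.Row

set_option autoImplicit false

/-!
# The valid linear forms and the bracket of a view
-/

namespace Pool.Agent.AKC

open Finset Classical Pool.Agent.AK Pool.Agent.AKH Pool.Agent.FCK

variable {ι : Type*}

theorem abs_ahd (x y : ι → ℝ) (v p q : ι) : 0 ≤ ahd x y v p q ∧ ahd x y v p q ≤ 1 := by
  unfold ahd
  split_ifs <;> constructor <;> norm_num

/-- the indicator of a colour -/
noncomputable def cl (I : ℤ → ℤ) (c : ℕ) (k : ℤ) : ℝ := if col I k = c then 1 else 0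

theorem cl_01 (I : ℤ → ℤ) (c : ℕ) (k : ℤ) : 0 ≤ cl I c k ∧ cl I c k ≤ 1 := by
  unfold cl
  split_ifs <;> constructor <;> norm_num

theorem card_Ixr (N : ℤ) (h : 0 ≤ N) : (Fintype.card (Ix N) : ℝ) = N := by
  exact_mod_cast congrArg (Int.cast : ℤ → ℝ) (card_Ix N h)

namespace Deep

variable {x y : ι → ℝ} {v : ι} {N : ℤ} {e : ℤ → ι} {F : ℤ → ℝ} {I : ℤ → ℤ} {a : ℤ}

theorem sum_cl (h : Deep x y v N e F I a) (c : ℕ) : ∑ q : Ix N, cl I c q = wd I N c :=
  h.sum_col c

theorem sum_cl0 (h : Deep x y v N e F I a) : ∑ q : Ix N, cl I 0 q = a := by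
  rw [h.sum_cl]
  simp only [wd, h.I0]

theorem fm_fw [Fintype ι] (h : Deep x y v N e F I a) (k : ℤ) :
    0 ≤ ∑ q : Ix N, (ahd x y v (e k) (e q) - cl I 0 q) := by
  rw [sum_sub_distrib, h.sum_cl0]
  linarith [h.fw_ge k]

theorem fm_bw (h : Deep x y v N e F I a) (k : ℤ) :
    0 ≤ ∑ q : Ix N, (ahd x y v (e q) (e k) - cl I 0 q) := by
  rw [sum_sub_distrib, h.sum_cl0]
  linarith [h.bw_ge k]

theorem fm_fu [Fintype ι] (h : Deep x y v N e F I a) (k : ℤ) :
    0 ≤ ∑ q : Ix N, (1 - 3 * cl I 0 q - ahd x y v (e k) (e q)) := by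
  rw [sum_sub_distrib, sum_sub_distrib, ← mul_sum, h.sum_cl0, sum_const, card_univ, nsmul_eq_mul,
    card_Ixr N h.view.pos.le]
  linarith [h.fw_le k]

theorem fm_bu (h : Deep x y v N e F I a) (k : ℤ) :
    0 ≤ ∑ q : Ix N, (1 - 3 * cl I 0 q - ahd x y v (e q) (e k)) := by
  rw [sum_sub_distrib, sum_sub_distrib, ← mul_sum, h.sum_cl0, sum_const, card_univ, nsmul_eq_mul,
    card_Ixr N h.view.pos.le]
  linarith [h.bw_le k]

theorem fm_lo (h : Deep x y v N e F I a) (c : ℕ) {lo : ℝ} (hl : lo * N ≤ wd I N c) :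
    0 ≤ ∑ q : Ix N, (cl I c q - lo) := by
  rw [sum_sub_distrib, h.sum_cl, sum_const, card_univ, nsmul_eq_mul, card_Ixr N h.view.pos.le]
  linarith

theorem fm_hi (h : Deep x y v N e F I a) (c : ℕ) {hi : ℝ} (hl : (wd I N c : ℝ) ≤ hi * N) :
    0 ≤ ∑ q : Ix N, (hi - cl I c q) := by
  rw [sum_sub_distrib, h.sum_cl, sum_const, card_univ, nsmul_eq_mul, card_Ixr N h.view.pos.le]
  linarith

end Deep

namespace View

variable {x y : ι → ℝ} {v : ι} {N : ℤ} {e : ℤ → ι} {F : ℤ → ℝ} {I : ℤ → ℤ}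

theorem I_perm (h : View x y v N e F I) (k m : ℤ) : I (k + N * m) = I k + N * m := by
  induction m using Int.induction_on with
  | zero => simp
  | succ i ih =>
    rw [show k + N * ((i : ℤ) + 1) = k + N * i + N by ring, h.I_per, ih]
    ring
  | pred i ih =>
    have h1 := h.I_per (k + N * (-(i : ℤ) - 1))
    rw [show k + N * (-(i : ℤ) - 1) + N = k + N * (-(i : ℤ)) by ring, ih] at h1
    linarith

/-- sums over a period of a periodic function can be shifted -/
theorem sum_shift {N : ℤ} (hN : 0 < N) (f : ℤ → ℕ) (hf : ∀ k m : ℤ, f (k + N * m) = f k)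
    (s : ℤ) : ∑ k ∈ Finset.Ioc (0 : ℤ) N, f (k + s) = ∑ k ∈ Finset.Ioc (0 : ℤ) N, f k := by
  refine sum_bij (fun j _ => 1 + (j + s - 1) % N) ?_ ?_ ?_ ?_
  · intro j _
    have h1 := Int.emod_nonneg (j + s - 1) hN.ne'
    have h2 := Int.emod_lt_of_pos (j + s - 1) hN
    rw [Finset.mem_Ioc]
    omega
  · intro i hi j hj hij
    rw [Finset.mem_Ioc] at hi hj
    have h1 : (i + s - 1) % N = (j + s - 1) % N := by omega
    have h2 : N ∣ (i + s - 1) - (j + s - 1) :=
      Int.dvd_of_emod_eq_zero (by rw [Int.sub_emod, h1, sub_self, Int.zero_emod])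
    obtain ⟨m, hm⟩ := h2
    have h3 : m = 0 := by
      by_contra hm0
      rcases lt_or_gt_of_ne hm0 with h4 | h4
      · have : N * m ≤ N * (-1) := mul_le_mul_of_nonneg_left (by omega) hN.le
        omega
      · have : N * 1 ≤ N * m := mul_le_mul_of_nonneg_left (by omega) hN.le
        omega
    rw [h3, mul_zero] at hm
    omega
  · intro j hj
    rw [Finset.mem_Ioc] at hj
    refine ⟨1 + (j - s - 1) % N, ?_, ?_⟩
    · have h1 := Int.emod_nonneg (j - s - 1) hN.ne'
      have h2 := Int.emod_lt_of_pos (j - s - 1) hN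
      rw [Finset.mem_Ioc]
      omega
    · have h1 : (1 + (j - s - 1) % N + s - 1) % N = (j - 1) % N := by
        rw [show 1 + (j - s - 1) % N + s - 1 = (j - s - 1) % N + s by ring, Int.emod_add_emod,
          show j - s - 1 + s = j - 1 by ring]
      rw [h1]
      have h2 : (j - 1) % N = j - 1 := Int.emod_eq_of_lt (by omega) (by omega)
      omega
  · intro j _
    have h1 := Int.emod_add_mul_ediv (j + s - 1) N
    have h3 : j + s = 1 + (j + s - 1) % N + N * ((j + s - 1) / N) := by omega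
    conv_lhs => rw [h3]
    rw [hf]

theorem sum_er [Fintype ι] (h : View x y v N e F I) (f : ι → ℝ) :
    ∑ k : Ix N, f (e k) = ∑ p, f p - f v := by
  rw [h.sum_e f, sum_erase_eq_sub (mem_univ v)]

/-- the bracket in terms of the quarter turn map -/
theorem br_eq [Fintype ι] (h : View x y v N e F I) (κ : ℕ) :
    br κ x y v = ∑ k ∈ Finset.Ioc (0 : ℤ) N, (κ - (I k - k).toNat) := by
  unfold br
  rw [← h.sum_e fun p => κ - al x y v p, sum_Ix N fun k => κ - al x y v (e k)]
  refine sum_congr rfl fun k _ => ?_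
  have := h.al_eq k
  omega

/-- the backward windows have the same bracket -/
theorem br_bw [Fintype ι] (h : View x y v N e F I) (κ : ℕ) (hκ : (κ : ℤ) < N) :
    ∑ k ∈ Finset.Ioc (0 : ℤ) N,
      (κ - #((Finset.Ioo k (k + N)).filter fun j => k + N ≤ I j)) ≤ br κ x y v := by
  rw [h.br_eq]
  have e1 : ∀ k : ℤ, κ - (I k - k).toNat = ∑ j ∈ Finset.Icc 1 κ, if I k < k + (j : ℤ) then 1 else 0 := by
    intro k
    rw [← card_filter]
    have h1 : (Finset.Icc 1 κ).filter (fun j : ℕ => I k < k + (j : ℤ)) =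
        Finset.Ioc (I k - k).toNat κ := by
      ext j
      rw [mem_filter, Finset.mem_Icc, Finset.mem_Ioc]
      have := h.le_I k
      omega
    rw [h1, Nat.card_Ioc]
  have e2 : ∀ k : ℤ, κ - #((Finset.Ioo k (k + N)).filter fun j => k + N ≤ I j) ≤
      ∑ j ∈ Finset.Icc 1 κ, if I (k - (j : ℤ)) < k then 1 else 0 := by
    intro k
    rw [← card_filter]
    have h1 : #((Finset.Icc 1 κ).filter fun j : ℕ => ¬ I (k - (j : ℤ)) < k) ≤
        #((Finset.Ioo k (k + N)).filter fun j => k + N ≤ I j) := by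
      refine card_le_card_of_injOn (fun j : ℕ => k + N - (j : ℤ)) ?_ ?_
      · intro j hj
        rw [Finset.mem_coe, mem_filter, Finset.mem_Icc] at hj
        rw [Finset.mem_coe, mem_filter, Finset.mem_Ioo]
        have h2 := h.I_per (k - (j : ℤ))
        rw [show k - (j : ℤ) + N = k + N - (j : ℤ) by ring] at h2
        show (k < k + N - (j : ℤ) ∧ k + N - (j : ℤ) < k + N) ∧ k + N ≤ I (k + N - (j : ℤ))
        rw [h2]
        omega
      · intro i _ j _ hij
        simp only at hij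
        omega
    have h2 := card_filter_add_card_filter_not (s := Finset.Icc 1 κ)
      (fun j : ℕ => I (k - (j : ℤ)) < k)
    rw [Nat.card_Icc] at h2
    omega
  calc ∑ k ∈ Finset.Ioc (0 : ℤ) N,
        (κ - #((Finset.Ioo k (k + N)).filter fun j => k + N ≤ I j))
      ≤ ∑ k ∈ Finset.Ioc (0 : ℤ) N, ∑ j ∈ Finset.Icc 1 κ,
          (if I (k - (j : ℤ)) < k then 1 else 0) := sum_le_sum fun k _ => e2 k
    _ = ∑ j ∈ Finset.Icc 1 κ, ∑ k ∈ Finset.Ioc (0 : ℤ) N,
          (if I (k - (j : ℤ)) < k then 1 else 0) := sum_comm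
    _ = ∑ j ∈ Finset.Icc 1 κ, ∑ k ∈ Finset.Ioc (0 : ℤ) N,
          (if I k < k + (j : ℤ) then 1 else 0) := by
        refine sum_congr rfl fun j _ => ?_
        have h1 := sum_shift h.pos (fun k => if I k < k + (j : ℤ) then 1 else 0) (by
          intro k m
          rw [h.I_perm]
          have : (I k + N * m < k + N * m + (j : ℤ)) ↔ (I k < k + (j : ℤ)) := by
            constructor <;> intro <;> linarith
          simp only [this]) (-(j : ℤ))
        rw [← h1]
        refine sum_congr rfl fun k _ => ?_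
        rw [show k + -(j : ℤ) = k - j by ring, show k - (j : ℤ) + j = k by ring]
    _ = ∑ k ∈ Finset.Ioc (0 : ℤ) N, ∑ j ∈ Finset.Icc 1 κ,
          (if I k < k + (j : ℤ) then 1 else 0) := sum_comm
    _ = _ := sum_congr rfl fun k _ => (e1 k).symm

end View

end Pool.Agent.AKC
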