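import Mathlib

set_option autoImplicit false

/-!
# Sums over the permutations of six points: four leading points and a pair
-/

namespace Pool.Agent.AKC.Pm6

open Finset Equiv

/-- the orders of four points -/
def p24 {α : Type} (a b c d : α) : List (α × α × α × α) :=
  [(a, b, c, d), (a, b, d, c), (a, c, b, d), (a, c, d, b),
   (a, d, b, c), (a, d, c, b), (b, a, c, d), (b, a, d, c),
   (b, c, a, d), (b, c, d, a), (b, d, a, c), (b, d, c, a),
   (c, a, b, d), (c, a, d, b), (c, b, a, d), (c, b, d, a),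
   (c, d, a, b), (c, d, b, a), (d, a, b, c), (d, a, c, b),
   (d, b, a, c), (d, b, c, a), (d, c, a, b), (d, c, b, a)]

/-- the sum over the orders of four points -/
def s24 {α : Type} {M : Type} [AddCommMonoid M] (g : α → α → α → α → M) (a b c d : α) : M :=
  g a b c d + g a b d c + g a c b d + g a c d b + g a d b c + g a d c b +
  g b a c d + g b a d c + g b c a d + g b c d a + g b d a c + g b d c a +
  g c a b d + g c a d b + g c b a d + g c b d a + g c d a b + g c d b a +
  g d a b c + g d a c b + g d b a c + g d b c a + g d c a b + g d c b a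

/-- the splittings of six points -/
def q15 : List (Fin 6 × Fin 6 × Fin 6 × Fin 6 × Fin 6 × Fin 6) :=
  [(0, 1, 2, 3, 4, 5), (0, 1, 2, 4, 3, 5), (0, 1, 2, 5, 3, 4),
   (0, 1, 3, 4, 2, 5), (0, 1, 3, 5, 2, 4), (0, 1, 4, 5, 2, 3),
   (0, 2, 3, 4, 1, 5), (0, 2, 3, 5, 1, 4), (0, 2, 4, 5, 1, 3),
   (0, 3, 4, 5, 1, 2), (1, 2, 3, 4, 0, 5), (1, 2, 3, 5, 0, 4),
   (1, 2, 4, 5, 0, 3), (1, 3, 4, 5, 0, 2), (2, 3, 4, 5, 0, 1)]

/-- the sum over the splittings of six points -/
def s15 {M : Type} [AddCommMonoid M] (g : Fin 6 → Fin 6 → Fin 6 → Fin 6 → Fin 6 → Fin 6 → M) : M :=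
  g 0 1 2 3 4 5 + g 0 1 2 4 3 5 + g 0 1 2 5 3 4 + g 0 1 3 4 2 5 + g 0 1 3 5 2 4 +
  g 0 1 4 5 2 3 + g 0 2 3 4 1 5 + g 0 2 3 5 1 4 + g 0 2 4 5 1 3 + g 0 3 4 5 1 2 +
  g 1 2 3 4 0 5 + g 1 2 3 5 0 4 + g 1 2 4 5 0 3 + g 1 3 4 5 0 2 + g 2 3 4 5 0 1

abbrev T6 : Type := Fin 6 × Fin 6 × Fin 6 × Fin 6 × Fin 6 × Fin 6

/-- all orders -/
def LL : List T6 := q15.flatMap fun t => (p24 t.1 t.2.1 t.2.2.1 t.2.2.2.1).flatMap fun u =>
  [(u.1, u.2.1, u.2.2.1, u.2.2.2, t.2.2.2.2.1, t.2.2.2.2.2),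
   (u.1, u.2.1, u.2.2.1, u.2.2.2, t.2.2.2.2.2, t.2.2.2.2.1)]

/-- code of six points -/
def en (t : T6) : ℕ :=
  ((((t.1.val * 6 + t.2.1.val) * 6 + t.2.2.1.val) * 6 + t.2.2.2.1.val) * 6 + t.2.2.2.2.1.val) * 6 +
    t.2.2.2.2.2.val

theorem en_inj : Function.Injective en := by
  rintro ⟨a, b, c, d, y, z⟩ ⟨a', b', c', d', y', z'⟩ h
  simp only [en] at h
  have h1 := a.isLt
  have h2 := b.isLt
  have h3 := c.isLt
  have h4 := d.isLt
  have h5 := y.isLt
  have h6 := z.isLt
  have g1 := a'.isLt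
  have g2 := b'.isLt
  have g3 := c'.isLt
  have g4 := d'.isLt
  have g5 := y'.isLt
  have g6 := z'.isLt
  simp only [Prod.mk.injEq, Fin.ext_iff]
  omega

/-- distinct entries -/
noncomputable def memN (l : List ℕ) (x : ℕ) : Bool :=
  List.rec (motive := fun _ => Bool) false
    (fun y _ ih => Bool.rec (motive := fun _ => Bool) ih true (Nat.beq y x)) l

noncomputable def ndN (l : List ℕ) : Bool :=
  List.rec (motive := fun _ => Bool) true
    (fun y l ih => Bool.rec (motive := fun _ => Bool) ih false (memN l y)) l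

theorem memN_iff {l : List ℕ} {x : ℕ} (h : x ∈ l) : memN l x = true := by
  induction l with
  | nil => simp at h
  | cons y l ih =>
    show Bool.rec (motive := fun _ => Bool) (memN l x) true (Nat.beq y x) = true
    cases hb : Nat.beq y x
    · rcases List.mem_cons.1 h with h1 | h1
      · subst h1
        rw [Nat.beq_refl] at hb
        exact absurd hb (by decide)
      · exact ih h1
    · rfl

theorem ndN_nodup {l : List ℕ} (h : ndN l = true) : l.Nodup := by
  induction l with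
  | nil => exact List.nodup_nil
  | cons y l ih =>
    have e : ndN (y :: l) = Bool.rec (motive := fun _ => Bool) (ndN l) false (memN l y) := rfl
    rw [e] at h
    cases hb : memN l y
    · rw [hb] at h
      refine List.nodup_cons.2 ⟨fun hm => ?_, ih h⟩
      rw [memN_iff hm] at hb
      exact absurd hb (by decide)
    · rw [hb] at h
      have h' : false = true := h
      exact absurd h' (by decide)

set_option maxRecDepth 100000 in
theorem LL_nd : ndN (LL.map en) = true := by decide +kernel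

theorem LL_nodup : LL.Nodup := (ndN_nodup LL_nd).of_map _

theorem LL_len : LL.length = 720 := by decide +kernel

/-- the tuple of a permutation -/
def tp (s : Perm (Fin 6)) : T6 := (s 0, s 1, s 2, s 3, s 4, s 5)

theorem tp_inj : Function.Injective tp := by
  intro s t h
  simp only [tp, Prod.mk.injEq] at h
  ext i
  obtain ⟨h0, h1, h2, h3, h4, h5⟩ := h
  fin_cases i <;> simp_all

/-- all entries of a tuple are different -/
def df (t : T6) : Bool :=
  decide (t.1 ≠ t.2.1 ∧ t.1 ≠ t.2.2.1 ∧ t.1 ≠ t.2.2.2.1 ∧ t.1 ≠ t.2.2.2.2.1 ∧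
    t.1 ≠ t.2.2.2.2.2 ∧ t.2.1 ≠ t.2.2.1 ∧ t.2.1 ≠ t.2.2.2.1 ∧ t.2.1 ≠ t.2.2.2.2.1 ∧
    t.2.1 ≠ t.2.2.2.2.2 ∧ t.2.2.1 ≠ t.2.2.2.1 ∧ t.2.2.1 ≠ t.2.2.2.2.1 ∧
    t.2.2.1 ≠ t.2.2.2.2.2 ∧ t.2.2.2.1 ≠ t.2.2.2.2.1 ∧ t.2.2.2.1 ≠ t.2.2.2.2.2 ∧
    t.2.2.2.2.1 ≠ t.2.2.2.2.2)

set_option maxRecDepth 100000 in
theorem LL_df : LL.all df = true := by decide +kernel

/-- a tuple with different entries is the tuple of a permutation -/
theorem exists_perm {t : T6} (h : df t = true) : ∃ s : Perm (Fin 6), tp s = t := by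
  have h' := of_decide_eq_true h
  obtain ⟨a, b, c, d, y, z⟩ := t
  simp only at h'
  set f : Fin 6 → Fin 6 := ![a, b, c, d, y, z] with hf
  obtain ⟨n1, n2, n3, n4, n5, n6, n7, n8, n9, n10, n11, n12, n13, n14, n15⟩ := h'
  have hinj : Function.Injective f := by
    intro i j hij
    fin_cases i <;> fin_cases j <;> first
      | rfl
      | exact absurd hij n1
      | exact absurd hij n2
      | exact absurd hij n3
      | exact absurd hij n4
      | exact absurd hij n5
      | exact absurd hij n6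
      | exact absurd hij n7
      | exact absurd hij n8
      | exact absurd hij n9
      | exact absurd hij n10
      | exact absurd hij n11
      | exact absurd hij n12
      | exact absurd hij n13
      | exact absurd hij n14
      | exact absurd hij n15
      | exact absurd hij.symm n1
      | exact absurd hij.symm n2
      | exact absurd hij.symm n3
      | exact absurd hij.symm n4
      | exact absurd hij.symm n5
      | exact absurd hij.symm n6
      | exact absurd hij.symm n7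
      | exact absurd hij.symm n8
      | exact absurd hij.symm n9
      | exact absurd hij.symm n10
      | exact absurd hij.symm n11
      | exact absurd hij.symm n12
      | exact absurd hij.symm n13
      | exact absurd hij.symm n14
      | exact absurd hij.symm n15
  refine ⟨Equiv.ofBijective f ⟨hinj, Finite.surjective_of_injective hinj⟩, ?_⟩
  simp [tp, hf]

theorem image_tp : (univ : Finset (Perm (Fin 6))).image tp = LL.toFinset := by
  symm
  refine Finset.eq_of_subset_of_card_le ?_ ?_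
  · intro t ht
    rw [List.mem_toFinset] at ht
    obtain ⟨s, hs⟩ := exists_perm ((List.all_eq_true.1 LL_df) t ht)
    exact Finset.mem_image.2 ⟨s, mem_univ s, hs⟩
  · rw [Finset.card_image_of_injective _ tp_inj, List.toFinset_card_of_nodup LL_nodup, LL_len,
      card_univ, Fintype.card_perm, Fintype.card_fin]
    decide

theorem sum_LL {M : Type} [AddCommMonoid M] (F : T6 → M) :
    ∑ s : Perm (Fin 6), F (tp s) = (LL.map F).sum := by
  rw [← List.sum_toFinset F LL_nodup, ← image_tp, Finset.sum_image fun s _ t _ h => tp_inj h]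

theorem sum_fm {α β M : Type} [AddCommMonoid M] (l : List α) (f : α → List β) (F : β → M) :
    ((l.flatMap f).map F).sum = (l.map fun t => ((f t).map F).sum).sum := by
  induction l with
  | nil => rfl
  | cons x l ih =>
    rw [List.flatMap_cons, List.map_append, List.sum_append, ih, List.map_cons, List.sum_cons]

/-- **(A)** -/
theorem sum_perm {M : Type} [AddCommMonoid M]
    (f : Fin 6 → Fin 6 → Fin 6 → Fin 6 → Fin 6 → Fin 6 → M) :
    ∑ s : Perm (Fin 6), f (s 0) (s 1) (s 2) (s 3) (s 4) (s 5) =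
      s15 fun a b c d y z => s24 (fun a b c d => f a b c d y z + f a b c d z y) a b c d := by
  have h := sum_LL fun t : T6 => f t.1 t.2.1 t.2.2.1 t.2.2.2.1 t.2.2.2.2.1 t.2.2.2.2.2
  have e1 : ∀ t : T6, (((p24 t.1 t.2.1 t.2.2.1 t.2.2.2.1).flatMap fun u =>
      ([(u.1, u.2.1, u.2.2.1, u.2.2.2, t.2.2.2.2.1, t.2.2.2.2.2),
        (u.1, u.2.1, u.2.2.1, u.2.2.2, t.2.2.2.2.2, t.2.2.2.2.1)] : List T6)).map
        fun t : T6 => f t.1 t.2.1 t.2.2.1 t.2.2.2.1 t.2.2.2.2.1 t.2.2.2.2.2).sum =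
      s24 (fun a b c d => f a b c d t.2.2.2.2.1 t.2.2.2.2.2 + f a b c d t.2.2.2.2.2 t.2.2.2.2.1)
        t.1 t.2.1 t.2.2.1 t.2.2.2.1 := by
    intro t
    simp only [p24, s24, List.flatMap_cons, List.flatMap_nil, List.cons_append, List.nil_append,
      List.map_cons, List.map_nil, List.sum_cons, List.sum_nil, add_zero, add_assoc]
  have e2 : (LL.map fun t : T6 => f t.1 t.2.1 t.2.2.1 t.2.2.2.1 t.2.2.2.2.1 t.2.2.2.2.2).sum =
      (q15.map fun t => s24 (fun a b c d => f a b c d t.2.2.2.2.1 t.2.2.2.2.2 +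
        f a b c d t.2.2.2.2.2 t.2.2.2.2.1) t.1 t.2.1 t.2.2.1 t.2.2.2.1).sum := by
    unfold LL
    rw [sum_fm]
    congr 1
    refine List.map_congr_left fun t _ => ?_
    exact e1 t
  refine h.trans (e2.trans ?_)
  simp only [q15, s15, List.map_cons, List.map_nil, List.sum_cons, List.sum_nil, add_zero,
    add_assoc]

section B

variable {α : Type} {M : Type} [AddCommMonoid M] (g : α → α → α → α → M)

/-- **(B)** -/
theorem s24_swap0 (a b c d : α) : s24 g b a c d = s24 g a b c d := by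
  unfold s24
  abel

theorem s24_swap1 (a b c d : α) : s24 g a c b d = s24 g a b c d := by
  unfold s24
  abel

theorem s24_swap2 (a b c d : α) : s24 g a b d c = s24 g a b c d := by
  unfold s24
  abel

end B

/-- **(C)** -/
theorem exists_perm4 {i j k l : Fin 6} (h1 : i ≠ j) (h2 : i ≠ k) (h3 : i ≠ l) (h4 : j ≠ k)
    (h5 : j ≠ l) (h6 : k ≠ l) :
    ∃ t : Perm (Fin 6), t 0 = i ∧ t 1 = j ∧ t 2 = k ∧ t 3 = l := by
  have key : ∀ i j k l : Fin 6, i ≠ j → i ≠ k → i ≠ l → j ≠ k → j ≠ l → k ≠ l →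
      ∃ y z : Fin 6, df (i, j, k, l, y, z) = true := by
    decide +kernel
  obtain ⟨y, z, h⟩ := key i j k l h1 h2 h3 h4 h5 h6
  obtain ⟨s, hs⟩ := exists_perm h
  simp only [tp, Prod.mk.injEq] at hs
  exact ⟨s, hs.1, hs.2.1, hs.2.2.1, hs.2.2.2.1⟩

/-- **(D)** -/
theorem exists_min (rk : Fin 6 → Fin 6 → Fin 6 → Fin 6 → ℕ) :
    ∃ s : Perm (Fin 6), ∀ i j k l : Fin 6, i ≠ j → i ≠ k → i ≠ l → j ≠ k → j ≠ l → k ≠ l →
      rk (s 0) (s 1) (s 2) (s 3) ≤ rk (s i) (s j) (s k) (s l) := by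
  obtain ⟨s, -, hs⟩ := Finset.exists_min_image (univ : Finset (Perm (Fin 6)))
    (fun s => rk (s 0) (s 1) (s 2) (s 3)) univ_nonempty
  refine ⟨s, fun i j k l h1 h2 h3 h4 h5 h6 => ?_⟩
  obtain ⟨t, t0, t1, t2, t3⟩ := exists_perm4 h1 h2 h3 h4 h5 h6
  have h := hs (t.trans s) (mem_univ _)
  simp only [Equiv.trans_apply, t0, t1, t2, t3] at h
  exact h

end Pool.Agent.AKC.Pm6
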