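import Pool.Agent.AKC.Colour
import Pool.Agent.AK.Count

set_option autoImplicit false

/-!
# Window and colour counts of a view
-/

namespace Pool.Agent.AKC

open Finset Classical Pool.Agent.AK Pool.Agent.AKH

variable {ι : Type*}

/-- the rays `1, …, N` -/
abbrev Ix (N : ℤ) : Type := ↥(Finset.Ioc (0 : ℤ) N)

theorem card_Ix (N : ℤ) (h : 0 ≤ N) : (Fintype.card (Ix N) : ℤ) = N := by
  simp [Fintype.card_coe, Int.card_Ioc, Int.toNat_of_nonneg h]

theorem sum_Ix {M : Type*} [AddCommMonoid M] (N : ℤ) (f : ℤ → M) :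
    ∑ k : Ix N, f k = ∑ k ∈ Finset.Ioc (0 : ℤ) N, f k :=
  Finset.sum_coe_sort (Finset.Ioc (0 : ℤ) N) f

/-- `e x` is in the open quarter turn ahead of `e p` -/
noncomputable def ahd (x y : ι → ℝ) (v : ι) (p q : ι) : ℝ :=
  if 0 < cr x y v p q ∧ 0 < dt x y v p q then 1 else 0

namespace View

variable {x y : ι → ℝ} {v : ι} {N : ℤ} {e : ℤ → ι} {F : ℤ → ℝ} {I : ℤ → ℤ}

theorem eperm (h : View x y v N e F I) (k m : ℤ) : e (k + N * m) = e k := by
  induction m using Int.induction_on with
  | zero => simp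
  | succ i ih => rw [show k + N * ((i : ℤ) + 1) = k + N * i + N by ring, h.eper, ih]
  | pred i ih =>
    rw [← h.eper (k + N * (-(i : ℤ) - 1)), show k + N * (-(i : ℤ) - 1) + N = k + N * (-(i : ℤ)) by
      ring, ih]

theorem I_lt (h : View x y v N e F I) (k : ℤ) : I k < k + N := by
  rw [← h.mono.lt_iff_lt, h.per]
  linarith [h.F_I k, Real.pi_pos]

/-- the window of `e k` -/
theorem al_eq [Fintype ι] (h : View x y v N e F I) (k : ℤ) :
    (al x y v (e k) : ℤ) = I k - k := by
  have hset : ({q | 0 < cr x y v (e k) q ∧ 0 < dt x y v (e k) q} : Finset ι) =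
      (Finset.Ioc k (I k)).image e := by
    ext q
    simp only [mem_filter, mem_univ, true_and, mem_image, Finset.mem_Ioc]
    constructor
    · intro hq
      have hqv : q ≠ v := by
        rintro rfl
        rw [cr_self2] at hq
        exact lt_irrefl _ hq.1
      obtain ⟨j, h1, h2, rfl⟩ := h.surj q hqv k
      have h3 : j < k + N := by
        rcases h2.lt_or_eq with h3 | h3
        · exact h3
        · exfalso
          rw [h3, h.eper, cr_self3] at hq
          exact lt_irrefl _ hq.1
      exact ⟨j, ⟨h1, (h.ahead h1 h3).1 hq⟩, rfl⟩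
    · rintro ⟨j, ⟨h1, h2⟩, rfl⟩
      have h3 := h.I_lt k
      exact (h.ahead h1 (by omega)).2 h2
  have hinj : Set.InjOn e (Finset.Ioc k (I k) : Set ℤ) := by
    intro i hi j hj hij
    rw [Finset.mem_coe, Finset.mem_Ioc] at hi hj
    have h3 := h.I_lt k
    rcases lt_trichotomy i j with hlt | heq | hlt
    · exact absurd hij (h.inj i j hlt (by omega))
    · exact heq
    · exact absurd hij.symm (h.inj j i hlt (by omega))
  unfold al
  rw [hset, card_image_of_injOn hinj, Int.card_Ioc, Int.toNat_of_nonneg]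
  have := h.le_I k
  omega

/-- sums over all points except `v` -/
theorem sum_e [Fintype ι] (h : View x y v N e F I) {M : Type*} [AddCommMonoid M] (f : ι → M) :
    ∑ k : Ix N, f (e k) = ∑ p ∈ univ.erase v, f p := by
  rw [sum_Ix N fun k => f (e k)]
  refine sum_bij (fun k _ => e k) ?_ ?_ ?_ ?_
  · intro k _
    exact mem_erase.2 ⟨h.ne k, mem_univ _⟩
  · intro i hi j hj hij
    rw [Finset.mem_Ioc] at hi hj
    rcases lt_trichotomy i j with hlt | heq | hlt
    · exact absurd hij (h.inj i j hlt (by omega))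
    · exact heq
    · exact absurd hij.symm (h.inj j i hlt (by omega))
  · intro p hp
    obtain ⟨j, h1, h2, h3⟩ := h.surj p (mem_erase.1 hp).1 0
    exact ⟨j, Finset.mem_Ioc.2 ⟨h1, by omega⟩, h3⟩
  · intro k _
    rfl

theorem sum_ahd [Fintype ι] (h : View x y v N e F I) (k : ℤ) :
    ∑ q : Ix N, ahd x y v (e k) (e q) = (I k : ℝ) - k := by
  rw [h.sum_e fun q => ahd x y v (e k) q]
  have h1 : ∑ p ∈ univ.erase v, ahd x y v (e k) p = ∑ p, ahd x y v (e k) p := by
    rw [← add_sum_erase univ (fun p => ahd x y v (e k) p) (mem_univ v)]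
    have : ahd x y v (e k) v = 0 := by
      unfold ahd
      rw [cr_self2]
      simp
    rw [this, zero_add]
  rw [h1]
  have h2 := h.al_eq k
  have h3 : ∑ p, ahd x y v (e k) p = (al x y v (e k) : ℝ) := by
    unfold ahd al
    rw [card_filter]
    push_cast
    rfl
  rw [h3]
  have h4 : ((al x y v (e k) : ℤ) : ℝ) = ((I k - k : ℤ) : ℝ) := by rw [h2]
  push_cast at h4
  exact h4

/-- the number of points of which `e k` is ahead -/
theorem sum_bhd (h : View x y v N e F I) (k : ℤ) :
    ∑ q : Ix N, ahd x y v (e q) (e k) =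
      (#((Finset.Ioo k (k + N)).filter fun j => k + N ≤ I j) : ℝ) := by
  have hcr : cr x y v (e k) (e k) = 0 := by unfold cr; ring
  have e1 : ∑ q : Ix N, ahd x y v (e q) (e k) =
      ∑ j ∈ Finset.Ioo k (k + N), ahd x y v (e j) (e k) := by
    rw [sum_Ix N fun q => ahd x y v (e q) (e k)]
    have hN := h.pos
    -- compare with the period starting at `k`
    have e2 : ∑ j ∈ Finset.Ioo k (k + N), ahd x y v (e j) (e k) =
        ∑ j ∈ Finset.Ioc k (k + N), ahd x y v (e j) (e k) := by
      rw [← Finset.Ioo_insert_right (by omega : k < k + N), sum_insert (by simp), h.eper]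
      unfold ahd
      rw [hcr]
      simp
    rw [e2]
    refine sum_bij (fun j _ => k + 1 + (j - k - 1) % N) ?_ ?_ ?_ ?_
    · intro j _
      have h1 := Int.emod_nonneg (j - k - 1) hN.ne'
      have h2 := Int.emod_lt_of_pos (j - k - 1) hN
      rw [Finset.mem_Ioc]
      omega
    · intro i hi j hj hij
      rw [Finset.mem_Ioc] at hi hj
      have h1 : (i - k - 1) % N = (j - k - 1) % N := by omega
      have h2 : N ∣ (i - k - 1) - (j - k - 1) :=
        Int.dvd_of_emod_eq_zero (by rw [Int.sub_emod, h1, sub_self, Int.zero_emod])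
      obtain ⟨m, hm⟩ := h2
      have h3 : m = 0 := by
        by_contra hm0
        rcases lt_or_gt_of_ne hm0 with h4 | h4
        · have : N * m ≤ N * (-1) := mul_le_mul_of_nonneg_left (by omega) hN.le
          omega
        · have : N * 1 ≤ N * m := mul_le_mul_of_nonneg_left (by omega) hN.le
          omega
      rw [h3, mul_zero] at hm
      omega
    · intro j hj
      rw [Finset.mem_Ioc] at hj
      refine ⟨1 + (j - 1) % N, ?_, ?_⟩
      · have h1 := Int.emod_nonneg (j - 1) hN.ne'
        have h2 := Int.emod_lt_of_pos (j - 1) hN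
        rw [Finset.mem_Ioc]
        omega
      · have h1 : (1 + (j - 1) % N - k - 1) % N = (j - k - 1) % N := by
          rw [show 1 + (j - 1) % N - k - 1 = (j - 1) % N - k by ring, Int.emod_sub_emod,
            show j - 1 - k = j - k - 1 by ring]
        rw [h1]
        have h2 : (j - k - 1) % N = j - k - 1 := Int.emod_eq_of_lt (by omega) (by omega)
        omega
    · intro j _
      have h1 := Int.emod_add_mul_ediv (j - k - 1) N
      have h3 : j = k + 1 + (j - k - 1) % N + N * ((j - k - 1) / N) := by omega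
      conv_lhs => rw [h3]
      rw [h.eperm]
  rw [e1, card_filter]
  push_cast
  refine sum_congr rfl fun j hj => ?_
  rw [Finset.mem_Ioo] at hj
  have hb := h.behind hj.1 hj.2
  have hs : cr x y v (e j) (e k) = - cr x y v (e k) (e j) := by unfold cr; ring
  have hd : dt x y v (e j) (e k) = dt x y v (e k) (e j) := by unfold dt; ring
  unfold ahd
  by_cases hq : k + N ≤ I j
  · rw [if_pos hq, if_pos (by rw [hs, hd, neg_pos]; exact hb.2 hq)]
  · rw [if_neg hq, if_neg (by rw [hs, hd, neg_pos]; exact fun h' => hq (hb.1 h'))]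

end View

namespace Deep

variable {x y : ι → ℝ} {v : ι} {N : ℤ} {e : ℤ → ι} {F : ℤ → ℝ} {I : ℤ → ℤ} {a : ℤ}

/-- forward windows are at least `a` -/
theorem fw_ge [Fintype ι] (h : Deep x y v N e F I a) (k : ℤ) :
    (a : ℝ) ≤ ∑ q : Ix N, ahd x y v (e k) (e q) := by
  rw [h.view.sum_ahd]
  have h1 : (k : ℝ) + a ≤ I k := by exact_mod_cast h.min k
  linarith

theorem fw_le [Fintype ι] (h : Deep x y v N e F I a) (k : ℤ) :
    ∑ q : Ix N, ahd x y v (e k) (e q) ≤ (N : ℝ) - 3 * a := by
  rw [h.view.sum_ahd]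
  have h1 : I k + 3 * a ≤ k + N := by
    have h2 := h.view.I4 k
    have h3 := h.min (I k)
    have h4 := h.min (I (I k))
    have h5 := h.min (I (I (I k)))
    omega
  have h2 : (I k : ℝ) + 3 * a ≤ k + N := by exact_mod_cast h1
  linarith

theorem bw_ge (h : Deep x y v N e F I a) (k : ℤ) :
    (a : ℝ) ≤ ∑ q : Ix N, ahd x y v (e q) (e k) := by
  rw [h.view.sum_bhd]
  have h1 : (Finset.Ico (k + N - a) (k + N)) ⊆
      (Finset.Ioo k (k + N)).filter fun j => k + N ≤ I j := by
    intro j hj
    rw [Finset.mem_Ico] at hj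
    rw [mem_filter, Finset.mem_Ioo]
    have h2 := h.min j
    have h3 := h.N_ge
    have h4 := h.a1
    exact ⟨⟨by omega, hj.2⟩, by omega⟩
  have h2 := card_le_card h1
  rw [Int.card_Ico] at h2
  have h3 : (a : ℤ) ≤ (#((Finset.Ioo k (k + N)).filter fun j => k + N ≤ I j) : ℤ) := by
    have := h.a1
    omega
  exact_mod_cast h3

theorem bw_le (h : Deep x y v N e F I a) (k : ℤ) :
    ∑ q : Ix N, ahd x y v (e q) (e k) ≤ (N : ℝ) - 3 * a := by
  rw [h.view.sum_bhd]
  have hm := h.view.I_mono
  have h1 : (Finset.Ioo k (k + N)).filter (fun j => k + N ≤ I j) ⊆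
      Finset.Ioo (k + 3 * a) (k + N) := by
    intro j hj
    rw [mem_filter, Finset.mem_Ioo] at hj
    rw [Finset.mem_Ioo]
    refine ⟨?_, hj.1.2⟩
    by_contra hc
    push Not at hc
    have h2 := h.min k
    have h3 := h.min (I k)
    have h4 := h.min (I (I k))
    have h5 : j ≤ I (I (I k)) := by omega
    have h6 := hm h5
    have h7 := h.view.I4 k
    omega
  have h2 := card_le_card h1
  rw [Int.card_Ioo] at h2
  have h3 : (#((Finset.Ioo k (k + N)).filter fun j => k + N ≤ I j) : ℤ) ≤ N - 3 * a := by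
    have := h.N_ge
    have := h.a1
    omega
  exact_mod_cast h3

/-- the number of rays of colour `c` -/
def wd (I : ℤ → ℤ) (N : ℤ) (c : ℕ) : ℤ :=
  match c with
  | 0 => I 0
  | 1 => I (I 0) - I 0
  | 2 => I (I (I 0)) - I (I 0)
  | 3 => I (I (I (I 0))) - I (I (I 0))
  | 4 => N - I (I (I (I 0)))
  | _ => 0

theorem sum_col (h : Deep x y v N e F I a) (c : ℕ) :
    ∑ q : Ix N, (if col I q = c then (1 : ℝ) else 0) = wd I N c := by
  rw [sum_Ix N fun q => if col I q = c then (1 : ℝ) else 0]
  have e1 : ∑ q ∈ Finset.Ioc (0 : ℤ) N, (if col I q = c then (1 : ℝ) else 0) =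
      ((#((Finset.Ioc (0 : ℤ) N).filter fun q => col I q = c) : ℕ) : ℝ) := by
    rw [card_filter]
    push_cast
    rfl
  rw [e1]
  have l1 := h.lt1 0
  have l2 := h.lt1 (I 0)
  have l3 := h.lt1 (I (I 0))
  have l4 := h.lt1 (I (I (I 0)))
  have l5 := h.P4_lt
  have key : ∀ s t : ℤ, s ≤ t → (∀ q : ℤ, (0 < q ∧ q ≤ N) ∧ col I q = c ↔ s < q ∧ q ≤ t) →
      ((#((Finset.Ioc (0 : ℤ) N).filter fun q => col I q = c) : ℕ) : ℝ) = ((t - s : ℤ) : ℝ) := by
    intro s t hst hq
    have : (Finset.Ioc (0 : ℤ) N).filter (fun q => col I q = c) = Finset.Ioc s t := by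
      ext q
      rw [mem_filter, Finset.mem_Ioc, Finset.mem_Ioc]
      exact hq q
    rw [this, Int.card_Ioc]
    have h2 : (((t - s).toNat : ℕ) : ℤ) = t - s := Int.toNat_of_nonneg (by omega)
    rw [← h2]
    push_cast
    rfl
  rcases (by omega : c = 0 ∨ c = 1 ∨ c = 2 ∨ c = 3 ∨ c = 4 ∨ 5 ≤ c) with
    rfl | rfl | rfl | rfl | rfl | hc
  · rw [key 0 (I 0) (by omega) (fun q => by unfold col; split_ifs <;> (try simp only [and_false, false_iff, and_true]) <;> omega)]
    simp [wd]
  · rw [key (I 0) (I (I 0)) (by omega) (fun q => by unfold col; split_ifs <;> (try simp only [and_false, false_iff, and_true]) <;> omega)]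
    simp [wd]
  · rw [key (I (I 0)) (I (I (I 0))) (by omega) (fun q => by unfold col; split_ifs <;> (try simp only [and_false, false_iff, and_true]) <;> omega)]
    simp [wd]
  · rw [key (I (I (I 0))) (I (I (I (I 0)))) (by omega)
      (fun q => by unfold col; split_ifs <;> (try simp only [and_false, false_iff, and_true]) <;> omega)]
    simp [wd]
  · rw [key (I (I (I (I 0)))) N (by omega) (fun q => by unfold col; split_ifs <;> (try simp only [and_false, false_iff, and_true]) <;> omega)]
    simp [wd]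
  · obtain ⟨d, rfl⟩ : ∃ d, c = d + 5 := ⟨c - 5, by omega⟩
    rw [key 0 0 (by omega) (fun q => by unfold col; split_ifs <;> (try simp only [and_false, false_iff, and_true]) <;> omega)]
    simp [wd]

end Deep

end Pool.Agent.AKC
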