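import Pool.Agent.AKC.Bound6
import Pool.Agent.AKC.Five

set_option autoImplicit false
set_option linter.unusedVariables false

/-!
# Six points: nearly optimal sets in which all acute triples have large weight
-/

namespace Pool.Agent.AKC

open Finset Classical Pool.Agent.MP_0af329_co Pool.Agent.AK Pool.Agent.AKO Pool.Agent.AKG
  Pool.Agent.AKU Pool.Agent.FCK

/-- the multipliers of the rows with six points: `Q` = the blocks, `M` = the multipliers of the
weights, `D` = the multipliers of the degrees (the root is `a b c d`); `B` = the block of an acute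
root `a b c` -/
structure Mul6 (n : ℕ) where
  Q : Fin n → Fin n → Fin n → Fin n → Fin n → Fin n → ℝ
  M : ℕ → Fin n → Fin n → Fin n → Fin n → Fin n → ℝ
  D : ℕ → Fin n → Fin n → Fin n → Fin n → ℝ
  B : Fin n → Fin n → Fin n → Fin n → Fin n → ℝ

section rows

variable {S : Finset Pt} {n : ℕ} (e : Fin n ≃ S)

/-- the row of the weights: `p q r` = acute root, `m` = multiplier -/
noncomputable def mw (w : ℕ → ℤ) (th : ℤ) (m : Fin n → ℝ) (p q r y z : Fin n) : ℝ :=
  m y * wT e w th p q r z + m z * wT e w th p q r y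

/-- the row of the degree of `u` -/
noncomputable def dn (u y z : Fin n) : ℝ := 4 - 9 * Nf S (e u) (e y) (e z)

/-- the row with a root of four points -/
noncomputable def R6a (w : ℕ → ℤ) (th : ℤ) (T : Mul6 n) (a b c d y z : Fin n) : ℝ :=
  T.Q a b c d y z +
    (mw e w th (T.M 0 a b c d) b c d y z + mw e w th (T.M 1 a b c d) a c d y z +
      mw e w th (T.M 2 a b c d) a b d y z + mw e w th (T.M 3 a b c d) a b c y z) +
    (T.D 0 a b c d * dn e a y z + T.D 1 a b c d * dn e b y z +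
      T.D 2 a b c d * dn e c y z + T.D 3 a b c d * dn e d y z)

/-- **the row with six points** -/
noncomputable def R6 (w : ℕ → ℤ) (th : ℤ) (T : Mul6 n) (a b c d y z : Fin n) : ℝ :=
  R6a e w th T a b c d y z + T.B a b c d y * wT e w th a b c z

/-- four different points -/
def N4 (a b c d : Fin n) : Prop := a ≠ b ∧ a ≠ c ∧ a ≠ d ∧ b ≠ c ∧ b ≠ d ∧ c ≠ d

/-- the row, zero if the root is degenerate -/
noncomputable def g6 (w : ℕ → ℤ) (th : ℤ) (T : Mul6 n) (a b c d y z : Fin n) : ℝ :=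
  if N4 a b c d then R6a e w th T a b c d y z else 0

/-- three different points -/
def N3 (a b c : Fin n) : Prop := a ≠ b ∧ a ≠ c ∧ b ≠ c

/-- the row of the block of an acute root -/
noncomputable def gB (w : ℕ → ℤ) (th : ℤ) (T : Mul6 n) (a b c d y z : Fin n) : ℝ :=
  if N3 a b c then T.B a b c d y * wT e w th a b c z else 0

/-- the conditions of the multipliers -/
structure Ok6 (T : Mul6 n) (β : ℝ) : Prop where
  Q : ∀ a b c d, N4 a b c d → 0 ≤ ∑ y, ∑ z, T.Q a b c d y z
  bQ : ∀ a b c d y z, N4 a b c d → |T.Q a b c d y z| ≤ β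
  M : ∀ k < 4, ∀ a b c d y, N4 a b c d → 0 ≤ T.M k a b c d y
  bM : ∀ k < 4, ∀ a b c d y, N4 a b c d → T.M k a b c d y ≤ β
  a0 : ∀ a b c d, N4 a b c d → ste e b c d % 4 ≠ 0 → ∀ y, T.M 0 a b c d y = 0
  a1 : ∀ a b c d, N4 a b c d → ste e a c d % 4 ≠ 0 → ∀ y, T.M 1 a b c d y = 0
  a2 : ∀ a b c d, N4 a b c d → ste e a b d % 4 ≠ 0 → ∀ y, T.M 2 a b c d y = 0
  a3 : ∀ a b c d, N4 a b c d → ste e a b c % 4 ≠ 0 → ∀ y, T.M 3 a b c d y = 0
  D : ∀ a b c d, N4 a b c d →
    0 ≤ T.D 0 a b c d + T.D 1 a b c d + T.D 2 a b c d + T.D 3 a b c d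
  bD : ∀ k < 4, ∀ a b c d, N4 a b c d → |T.D k a b c d| ≤ β
  B : ∀ a b c, N3 a b c → 0 ≤ ∑ x, ∑ y, T.B a b c x y
  bB : ∀ a b c x y, N3 a b c → |T.B a b c x y| ≤ β
  aB : ∀ a b c, N3 a b c → ste e a b c % 4 ≠ 0 → ∀ x y, T.B a b c x y = 0

/-- a bound of the weights -/
structure BW (w : ℕ → ℤ) (th : ℤ) (β : ℝ) : Prop where
  b0 : 0 ≤ β
  w : ∀ k < 4096, |(w k : ℝ) - th| ≤ β
  th : |(th : ℝ)| ≤ β

theorem exists_BW (w : ℕ → ℤ) (th : ℤ) (β0 : ℝ) : ∃ β, β0 ≤ β ∧ BW w th β := by
  obtain ⟨b, hb⟩ := exists_B5 w th (fun _ => 0) (fun _ _ => 0)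
  refine ⟨max b β0, le_max_right _ _, le_max_of_le_left hb.b0, fun k hk => ?_, ?_⟩
  · exact (hb.w k hk).trans (le_max_left _ _)
  · exact hb.th.trans (le_max_left _ _)

variable {e} {w : ℕ → ℤ} {th : ℤ} {T : Mul6 n} {β : ℝ}

theorem wT_abs6 (hb : BW w th β) (p q r y : Fin n) : |wT e w th p q r y| ≤ β := by
  unfold wT
  split_ifs
  · exact hb.w _ (cde_lt e p q r y)
  · rw [abs_zero]
    exact hb.b0

theorem dn_abs (u y z : Fin n) : |dn e u y z| ≤ 5 := by
  have h0 := Nf_nonneg S (e u) (e y) (e z)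
  have h1 := Nf_le S (e u) (e y) (e z)
  unfold dn
  rw [abs_le]
  constructor <;> linarith

theorem mw_abs (hb : BW w th β) {m : Fin n → ℝ} (m0 : ∀ y, 0 ≤ m y) (m1 : ∀ y, m y ≤ β)
    (p q r y z : Fin n) : |mw e w th m p q r y z| ≤ 2 * (β * β) := by
  have h1 : ∀ u v : Fin n, |m u * wT e w th p q r v| ≤ β * β := by
    intro u v
    rw [abs_mul, abs_of_nonneg (m0 u)]
    exact mul_le_mul (m1 u) (wT_abs6 hb p q r v) (abs_nonneg _) hb.b0
  unfold mw
  refine (abs_add_le _ _).trans ?_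
  linarith [h1 y z, h1 z y]

/-- the bound of the row -/
theorem g6_abs (hb : BW w th β) (hT : Ok6 e T β) (a b c d y z : Fin n) :
    |g6 e w th T a b c d y z| ≤ β + 4 * (2 * (β * β)) + 4 * (5 * β) := by
  have b0 := hb.b0
  unfold g6
  split_ifs with hN
  · have hq := hT.bQ a b c d y z hN
    have k0 := mw_abs (e := e) hb (fun y => hT.M 0 (by norm_num) a b c d y hN)
      (fun y => hT.bM 0 (by norm_num) a b c d y hN) b c d y z
    have k1 := mw_abs (e := e) hb (fun y => hT.M 1 (by norm_num) a b c d y hN)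
      (fun y => hT.bM 1 (by norm_num) a b c d y hN) a c d y z
    have k2 := mw_abs (e := e) hb (fun y => hT.M 2 (by norm_num) a b c d y hN)
      (fun y => hT.bM 2 (by norm_num) a b c d y hN) a b d y z
    have k3 := mw_abs (e := e) hb (fun y => hT.M 3 (by norm_num) a b c d y hN)
      (fun y => hT.bM 3 (by norm_num) a b c d y hN) a b c y z
    have hd : ∀ k < 4, ∀ u : Fin n, |T.D k a b c d * dn e u y z| ≤ 5 * β := by
      intro k hk u
      rw [abs_mul, mul_comm 5 β]
      exact mul_le_mul (hT.bD k hk a b c d hN) (dn_abs u y z) (abs_nonneg _) b0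
    have d0 := hd 0 (by norm_num) a
    have d1 := hd 1 (by norm_num) b
    have d2 := hd 2 (by norm_num) c
    have d3 := hd 3 (by norm_num) d
    unfold R6a
    rw [abs_le] at hq k0 k1 k2 k3 d0 d1 d2 d3 ⊢
    constructor <;> linarith [hq.1, k0.1, k1.1, k2.1, k3.1, d0.1, d1.1, d2.1, d3.1,
      hq.2, k0.2, k1.2, k2.2, k3.2, d0.2, d1.2, d2.2, d3.2]
  · rw [abs_zero]
    positivity

/-- the sum of the weights -/
theorem sum_wT6 (hcard : (n : ℤ) = Fintype.card S) {cc : ℤ}
    (hW : ∀ r, AcT (X S) (Y S) r → th * Fintype.card S ≤ Ph (X S) (Y S) w r + cc)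
    {p q r : Fin n} (hpq : p ≠ q) (hqr : q ≠ r) (hpr : p ≠ r) (hst : ste e p q r % 4 = 0) :
    -((|cc| + 3 * |th| : ℤ) : ℝ) ≤ ∑ z, wT e w th p q r z := by
  set R : Fin 3 → S := ![e p, e q, e r] with hR
  have hinj : Function.Injective R := (inj_iff R).2
    ⟨e.injective.ne hpq, e.injective.ne hpr, e.injective.ne hqr⟩
  have hac : AcT (X S) (Y S) R := ⟨hinj, hst⟩
  have h1 := hW R hac
  have h2 : ∑ z, wT e w th p q r z = ((Ph (X S) (Y S) w R - th * (Fintype.card S - 3) : ℤ) : ℝ) := by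
    have e0 : ∀ z : Fin n, (∀ k, e z ≠ R k) ↔ Fr p q r z := by
      intro z
      rw [forall_fin3]
      show (e z ≠ e p ∧ e z ≠ e q ∧ e z ≠ e r) ↔ _
      unfold Fr
      rw [e.injective.ne_iff, e.injective.ne_iff, e.injective.ne_iff]
    have e1 : Ph (X S) (Y S) w R = ∑ z : Fin n, if Fr p q r z then w (cde e p q r z) else 0 := by
      unfold Ph
      rw [← sum_eZ e]
      refine sum_congr rfl fun z _ => ?_
      by_cases g : Fr p q r z
      · rw [if_pos g, if_pos ((e0 z).2 g)]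
        rfl
      · rw [if_neg g, if_neg (fun k => g ((e0 z).1 k))]
    have e2 : ∑ z : Fin n, (if Fr p q r z then th else 0) = th * (Fintype.card S - 3) := by
      have e3 : ∀ z : Fin n, (if Fr p q r z then th else 0) =
          th - ((if z = p then th else 0) + (if z = q then th else 0) +
            (if z = r then th else 0)) := by
        intro z
        by_cases k1 : z = p
        · subst k1
          rw [if_neg (fun g => g.1 rfl), if_pos rfl, if_neg hpq, if_neg hpr]
          ring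
        by_cases k2 : z = q
        · subst k2
          rw [if_neg (fun g => g.2.1 rfl), if_neg k1, if_pos rfl, if_neg hqr]
          ring
        by_cases k3 : z = r
        · subst k3
          rw [if_neg (fun g => g.2.2 rfl), if_neg k1, if_neg k2, if_pos rfl]
          ring
        rw [if_pos ⟨k1, k2, k3⟩, if_neg k1, if_neg k2, if_neg k3]
        ring
      rw [sum_congr rfl fun z _ => e3 z, sum_sub_distrib, sum_add_distrib, sum_add_distrib,
        sum_ite_eq', sum_ite_eq', sum_ite_eq', if_pos (mem_univ _), if_pos (mem_univ _),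
        if_pos (mem_univ _), sum_const, card_univ, Fintype.card_fin, nsmul_eq_mul, ← hcard]
      ring
    rw [e1, ← e2, ← sum_sub_distrib]
    push_cast
    refine sum_congr rfl fun z _ => ?_
    unfold wT
    split_ifs
    · rfl
    · simp
  rw [h2]
  have h3 : -(|cc| + 3 * |th|) ≤ Ph (X S) (Y S) w R - th * (Fintype.card S - 3) := by
    have h4 := le_abs_self cc
    have h5 := neg_abs_le th
    linarith
  exact_mod_cast h3

/-- the sum of the rows of the weights -/
theorem mw_sum (hb : BW w th β) (hcard : n = Fintype.card S) {cc : ℤ}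
    (hW : ∀ r, AcT (X S) (Y S) r → th * Fintype.card S ≤ Ph (X S) (Y S) w r + cc)
    {p q r : Fin n} (hpq : p ≠ q) (hqr : q ≠ r) (hpr : p ≠ r) {m : Fin n → ℝ}
    (m0 : ∀ y, 0 ≤ m y) (m1 : ∀ y, m y ≤ β) (ma : ste e p q r % 4 ≠ 0 → ∀ y, m y = 0) :
    -(2 * (β * (|(cc : ℝ)| + 3 * β) * n)) ≤ ∑ y, ∑ z, mw e w th m p q r y z := by
  have b0 := hb.b0
  have n0 : (0 : ℝ) ≤ n := Nat.cast_nonneg _
  by_cases g : ste e p q r % 4 = 0
  · have e1 : ∑ y : Fin n, ∑ z : Fin n, mw e w th m p q r y z =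
        2 * ((∑ y, m y) * ∑ z, wT e w th p q r z) := by
      unfold mw
      simp only [sum_add_distrib]
      rw [← sum_mul_sum, two_mul]
      congr 1
      rw [sum_comm, ← sum_mul_sum]
    rw [e1]
    have h2 := sum_wT6 (e := e) (w := w) (th := th) (by exact_mod_cast hcard) hW hpq hqr hpr g
    have h3 : ∑ y, m y ≤ β * n := by
      calc ∑ y, m y ≤ ∑ _y : Fin n, β := sum_le_sum fun y _ => m1 y
        _ = β * n := by rw [sum_const, card_univ, Fintype.card_fin, nsmul_eq_mul, mul_comm]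
    have h4 : 0 ≤ ∑ y, m y := sum_nonneg fun y _ => m0 y
    have h5 : ((|cc| + 3 * |th| : ℤ) : ℝ) ≤ |(cc : ℝ)| + 3 * β := by
      push_cast
      linarith [hb.th]
    have h6 : 0 ≤ ((|cc| + 3 * |th| : ℤ) : ℝ) := by
      have : 0 ≤ |cc| + 3 * |th| := by positivity
      exact_mod_cast this
    have h7 : (∑ y, m y) * ((|cc| + 3 * |th| : ℤ) : ℝ) ≤
        (β * n) * (|(cc : ℝ)| + 3 * β) := mul_le_mul h3 h5 h6 (by positivity)
    have h8 : (∑ y, m y) * -((|cc| + 3 * |th| : ℤ) : ℝ) ≤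
        (∑ y, m y) * ∑ z, wT e w th p q r z := mul_le_mul_of_nonneg_left h2 h4
    linarith
  · have e1 : ∑ y : Fin n, ∑ z : Fin n, mw e w th m p q r y z = 0 := by
      refine sum_eq_zero fun y _ => sum_eq_zero fun z _ => ?_
      unfold mw
      rw [ma g y, ma g z]
      ring
    rw [e1]
    have : 0 ≤ β * (|(cc : ℝ)| + 3 * β) * n := by positivity
    linarith

/-- **the rows are nonnegative up to the error** -/
theorem g6_sum {η : ℝ} (hb : BW w th β) (hT : Ok6 e T β) (hS : Near S η) (hη : 0 ≤ η)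
    (hcard : n = Fintype.card S)
    (hlt : 3 * dens (Set.Ici (Real.pi / 2)) ≤ 4 / 9) {cc : ℤ}
    (hW : ∀ r, AcT (X S) (Y S) r → th * Fintype.card S ≤ Ph (X S) (Y S) w r + cc)
    (a b c d : Fin n) :
    -(8 * (β * (|(cc : ℝ)| + 3 * β) * n) + 36 * β * (η * (n : ℝ) ^ 2)) ≤
      ∑ y, ∑ z, g6 e w th T a b c d y z := by
  have b0 := hb.b0
  have n0 : (0 : ℝ) ≤ n := Nat.cast_nonneg _
  have hcardr : (n : ℝ) = Fintype.card S := by rw [hcard]
  by_cases hN : N4 a b c d
  · have e0 : ∑ y, ∑ z, g6 e w th T a b c d y z = ∑ y, ∑ z, R6a e w th T a b c d y z := by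
      refine sum_congr rfl fun y _ => sum_congr rfl fun z _ => ?_
      unfold g6
      rw [if_pos hN]
    rw [e0]
    unfold R6a
    simp only [sum_add_distrib]
    obtain ⟨h1, h2, h3, h4, h5, h6⟩ := id hN
    have k0 := mw_sum (e := e) hb hcard hW (p := b) (q := c) (r := d) h4 h6 h5
      (fun y => hT.M 0 (by norm_num) a b c d y hN) (fun y => hT.bM 0 (by norm_num) a b c d y hN)
      (hT.a0 a b c d hN)
    have k1 := mw_sum (e := e) hb hcard hW (p := a) (q := c) (r := d) h2 h6 h3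
      (fun y => hT.M 1 (by norm_num) a b c d y hN) (fun y => hT.bM 1 (by norm_num) a b c d y hN)
      (hT.a1 a b c d hN)
    have k2 := mw_sum (e := e) hb hcard hW (p := a) (q := b) (r := d) h1 h5 h3
      (fun y => hT.M 2 (by norm_num) a b c d y hN) (fun y => hT.bM 2 (by norm_num) a b c d y hN)
      (hT.a2 a b c d hN)
    have k3 := mw_sum (e := e) hb hcard hW (p := a) (q := b) (r := c) h1 h4 h2
      (fun y => hT.M 3 (by norm_num) a b c d y hN) (fun y => hT.bM 3 (by norm_num) a b c d y hN)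
      (hT.a3 a b c d hN)
    have hQ := hT.Q a b c d hN
    set lam : ℝ := (4 - 9 * (3 * dens (Set.Ici (Real.pi / 2)))) * (n : ℝ) ^ 2 with hlam
    have l0 : 0 ≤ lam := by
      have : 0 ≤ 4 - 9 * (3 * dens (Set.Ici (Real.pi / 2))) := by linarith
      rw [hlam]
      positivity
    have hdg : ∀ (k : ℕ) (_ : k < 4) (u : Fin n), T.D k a b c d * lam -
        β * (9 * (η * (n : ℝ) ^ 2)) ≤
        ∑ y : Fin n, ∑ z : Fin n, T.D k a b c d * dn e u y z := by
      intro k hk u
      have e1 : ∑ y : Fin n, ∑ z : Fin n, T.D k a b c d * dn e u y z = T.D k a b c d *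
          ∑ y : Fin n, ∑ z : Fin n, dn e u y z := by
        simp only [mul_sum]
      rw [e1]
      set U : ℝ := ∑ y : Fin n, ∑ z : Fin n, dn e u y z with hU
      have h3 := sum_deg (e := e) hS hcardr (e u)
      have e2 : U = 2 * ∑ y : Fin n, ∑ z : Fin n, ((2 : ℝ) - 9 / 2 * Nf S (e u) (e y) (e z)) := by
        rw [hU, mul_sum]
        refine sum_congr rfl fun y _ => ?_
        rw [mul_sum]
        refine sum_congr rfl fun z _ => ?_
        unfold dn
        ring
      have e3 : lam = 2 * ((2 - 9 / 2 * (3 * dens (Set.Ici (Real.pi / 2)))) * (n : ℝ) ^ 2) := by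
        rw [hlam]
        ring
      have h3' : |U - lam| ≤ 9 * (η * (n : ℝ) ^ 2) := by
        rw [e2, e3, ← mul_sub, abs_mul, abs_of_pos (by norm_num : (0 : ℝ) < 2)]
        linarith
      have h4 := hT.bD k hk a b c d hN
      have h5 : |T.D k a b c d * (U - lam)| ≤ β * (9 * (η * (n : ℝ) ^ 2)) := by
        rw [abs_mul]
        exact mul_le_mul h4 h3' (abs_nonneg _) b0
      have h6 := (abs_le.1 h5).1
      linarith
    have d0 := hdg 0 (by norm_num) a
    have d1 := hdg 1 (by norm_num) b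
    have d2 := hdg 2 (by norm_num) c
    have d3 := hdg 3 (by norm_num) d
    have hD := mul_nonneg (hT.D a b c d hN) l0
    linarith
  · have e0 : ∑ y, ∑ z, g6 e w th T a b c d y z = 0 := by
      refine sum_eq_zero fun y _ => sum_eq_zero fun z _ => ?_
      unfold g6
      rw [if_neg hN]
    rw [e0]
    have h1 : 0 ≤ β * (|(cc : ℝ)| + 3 * β) * n := by positivity
    have h2 : 0 ≤ β * (η * (n : ℝ) ^ 2) := by positivity
    linarith

theorem gB_abs (hb : BW w th β) (hT : Ok6 e T β) (a b c d y z : Fin n) :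
    |gB e w th T a b c d y z| ≤ β * β := by
  have b0 := hb.b0
  unfold gB
  split_ifs with hN
  · rw [abs_mul]
    exact mul_le_mul (hT.bB a b c d y hN) (wT_abs6 hb a b c z) (abs_nonneg _) b0
  · rw [abs_zero]
    positivity

/-- the rows of the block of an acute root -/
theorem gB_sum (hb : BW w th β) (hT : Ok6 e T β) (hcard : n = Fintype.card S) {cc : ℤ}
    (hW : ∀ r, AcT (X S) (Y S) r → th * Fintype.card S ≤ Ph (X S) (Y S) w r + cc)
    (a b c : Fin n) :
    -(β * (|(cc : ℝ)| + 3 * β) * (n : ℝ) ^ 2) ≤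
      ∑ d, ∑ y, ∑ z, gB e w th T a b c d y z := by
  have b0 := hb.b0
  have n0 : (0 : ℝ) ≤ n := Nat.cast_nonneg _
  have hneg : -(β * (|(cc : ℝ)| + 3 * β) * (n : ℝ) ^ 2) ≤ 0 := by
    have : 0 ≤ β * (|(cc : ℝ)| + 3 * β) * (n : ℝ) ^ 2 := by positivity
    linarith
  by_cases hN : N3 a b c
  · by_cases g : ste e a b c % 4 = 0
    · have e1 : ∑ d, ∑ y, ∑ z, gB e w th T a b c d y z =
          (∑ x, ∑ y, T.B a b c x y) * ∑ z, wT e w th a b c z := by
        rw [sum_mul]
        refine sum_congr rfl fun d _ => ?_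
        rw [sum_mul_sum]
        refine sum_congr rfl fun y _ => sum_congr rfl fun z _ => ?_
        unfold gB
        rw [if_pos hN]
      rw [e1]
      obtain ⟨h1, h2, h3⟩ := id hN
      have k2 := sum_wT6 (e := e) (w := w) (th := th) (by exact_mod_cast hcard) hW h1 h3 h2 g
      have k3 : ∑ x, ∑ y, T.B a b c x y ≤ β * (n : ℝ) ^ 2 := by
        calc ∑ x, ∑ y, T.B a b c x y ≤ ∑ _x : Fin n, ∑ _y : Fin n, β :=
              sum_le_sum fun x _ => sum_le_sum fun y _ =>
                (le_abs_self _).trans (hT.bB a b c x y hN)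
          _ = β * (n : ℝ) ^ 2 := by
              rw [sum_const, card_univ, Fintype.card_fin, nsmul_eq_mul, sum_const, card_univ,
                Fintype.card_fin, nsmul_eq_mul]
              ring
      have k4 := hT.B a b c hN
      have k5 : ((|cc| + 3 * |th| : ℤ) : ℝ) ≤ |(cc : ℝ)| + 3 * β := by
        push_cast
        linarith [hb.th]
      have k6 : 0 ≤ ((|cc| + 3 * |th| : ℤ) : ℝ) := by
        have : 0 ≤ |cc| + 3 * |th| := by positivity
        exact_mod_cast this
      have k7 : (∑ x, ∑ y, T.B a b c x y) * ((|cc| + 3 * |th| : ℤ) : ℝ) ≤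
          (β * (n : ℝ) ^ 2) * (|(cc : ℝ)| + 3 * β) := mul_le_mul k3 k5 k6 (by positivity)
      have k8 : (∑ x, ∑ y, T.B a b c x y) * -((|cc| + 3 * |th| : ℤ) : ℝ) ≤
          (∑ x, ∑ y, T.B a b c x y) * ∑ z, wT e w th a b c z :=
        mul_le_mul_of_nonneg_left k2 k4
      linarith
    · have e1 : ∑ d, ∑ y, ∑ z, gB e w th T a b c d y z = 0 := by
        refine sum_eq_zero fun d _ => sum_eq_zero fun y _ => sum_eq_zero fun z _ => ?_
        unfold gB
        rw [if_pos hN, hT.aB a b c hN g d y]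
        ring
      rw [e1]
      exact hneg
  · have e1 : ∑ d, ∑ y, ∑ z, gB e w th T a b c d y z = 0 := by
      refine sum_eq_zero fun d _ => sum_eq_zero fun y _ => sum_eq_zero fun z _ => ?_
      unfold gB
      rw [if_neg hN]
    rw [e1]
    exact hneg

theorem S6_gB (hb : BW w th β) (hT : Ok6 e T β) (hcard : n = Fintype.card S) {cc : ℤ}
    (hW : ∀ r, AcT (X S) (Y S) r → th * Fintype.card S ≤ Ph (X S) (Y S) w r + cc) :
    -(β * (|(cc : ℝ)| + 3 * β) * (n : ℝ) ^ 5) ≤ S6 (gB e w th T) := by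
  have e0 : ∀ k : ℝ, ∑ _a : Fin n, k = (n : ℝ) * k := by
    intro k
    rw [sum_const, card_univ, Fintype.card_fin, nsmul_eq_mul]
  unfold S6
  calc -(β * (|(cc : ℝ)| + 3 * β) * (n : ℝ) ^ 5) =
      ∑ _a : Fin n, ∑ _b : Fin n, ∑ _c : Fin n, -(β * (|(cc : ℝ)| + 3 * β) * (n : ℝ) ^ 2) := by
        rw [e0, e0, e0]
        ring
    _ ≤ _ := sum_le_sum fun a _ => sum_le_sum fun b _ => sum_le_sum fun c _ =>
        gB_sum hb hT hcard hW a b c

theorem S6_add (f g : Fin n → Fin n → Fin n → Fin n → Fin n → Fin n → ℝ) :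
    S6 (fun a b c d y z => f a b c d y z + g a b c d y z) = S6 f + S6 g := by
  simp only [S6, sum_add_distrib]

end rows

/-- **six points**: a certificate with positive margin excludes the nearly optimal sets in which
every acute triple has weight at least `th` per point -/
theorem six_near {w : ℕ → ℤ} {th cc : ℤ} {og β : ℝ} (hog : 0 < og)
    (hlt : 3 * dens (Set.Ici (Real.pi / 2)) ≤ 4 / 9)
    (hV : ∀ (S : Finset Pt) (n : ℕ) (e : Fin n ≃ S), GN (X S) (Y S) →
      ∃ T : Mul6 n, Ok6 e T β ∧ ∀ x : Fin 6 → Fin n, Function.Injective x →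
        ∑ σ : Equiv.Perm (Fin 6), un6 (R6 e w th T) (x ∘ σ) ≤ -og) :
    ∃ η0 : ℝ, 0 < η0 ∧ ∃ n0 : ℕ, ∀ (S : Finset Pt) (η : ℝ), Near S η → 0 ≤ η → η ≤ η0 →
      n0 ≤ Fintype.card S →
      ¬ ∀ r, AcT (X S) (Y S) r → th * Fintype.card S ≤ Ph (X S) (Y S) w r + cc := by
  obtain ⟨b, hβb, hb⟩ := exists_BW w th β
  have b0 := hb.b0
  set B : ℝ := b + 4 * (2 * (b * b)) + 4 * (5 * b) + b * b with hB
  have hB0 : 0 ≤ B := by rw [hB]; positivity
  set K1 : ℝ := 720 * (36 * b) with hK1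
  set K2 : ℝ := 720 * (8 * (b * (|(cc : ℝ)| + 3 * b)) + b * (|(cc : ℝ)| + 3 * b) +
    15 * B) with hK2
  have hK10 : 0 ≤ K1 := by rw [hK1]; positivity
  obtain ⟨η0, hη0, n0, hfin⟩ := arith6 (K2 := K2) hog hK10
  refine ⟨η0, hη0, n0, ?_⟩
  intro S η hS hη hη1 hn hW
  have e : Fin (Fintype.card S) ≃ S := (Fintype.equivFin S).symm
  set n : ℕ := Fintype.card S with hnn
  obtain ⟨T, hT, hE⟩ := hV S n e (gn_of hS.gen hS.nr)
  have hT' : Ok6 e T b :=
    ⟨hT.Q, fun a b c d y z h => (hT.bQ a b c d y z h).trans hβb, hT.M,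
      fun k hk a b c d y h => (hT.bM k hk a b c d y h).trans hβb, hT.a0, hT.a1, hT.a2, hT.a3,
      hT.D, fun k hk a b c d h => (hT.bD k hk a b c d h).trans hβb, hT.B,
      fun a b c x y h => (hT.bB a b c x y h).trans hβb, hT.aB⟩
  have n0' : (0 : ℝ) ≤ n := Nat.cast_nonneg _
  set c0 : ℝ := 8 * (b * (|(cc : ℝ)| + 3 * b) * n) + 36 * b * (η * (n : ℝ) ^ 2) with hc0
  have c00 : 0 ≤ c0 := by rw [hc0]; positivity
  have h1 := S6_ge (ι := Fin n) (g := g6 e w th T) c00
    (fun p q r s => g6_sum hb hT' hS hη hnn hlt hW p q r s)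
  have h1B := S6_gB hb hT' hnn hW
  have h2 := six_false (ι := Fin n)
    (T := fun a b c d y z => g6 e w th T a b c d y z + gB e w th T a b c d y z)
    (og := og) (B := B) (c := c0 * (n : ℝ) ^ 4 + b * (|(cc : ℝ)| + 3 * b) * (n : ℝ) ^ 5) hog.le
    (fun p q r s y z => by
      refine (abs_add_le _ _).trans ?_
      rw [hB]
      exact add_le_add (g6_abs hb hT' p q r s y z) (gB_abs hb hT' p q r s y z))
    (by
      rw [S6_add]
      rw [Fintype.card_fin] at h1
      linarith)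
    (fun x hx => by
      refine le_trans (le_of_eq ?_) (hE x hx)
      refine sum_congr rfl fun σ _ => ?_
      unfold un6 g6 gB R6
      have hi : Function.Injective (x ∘ σ) := hx.comp σ.injective
      beta_reduce
      rw [if_pos, if_pos]
      · exact ⟨hi.ne (by decide), hi.ne (by decide), hi.ne (by decide)⟩
      · exact ⟨hi.ne (by decide), hi.ne (by decide), hi.ne (by decide), hi.ne (by decide),
          hi.ne (by decide), hi.ne (by decide)⟩)
  rw [Fintype.card_fin] at h2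
  refine hfin n η (by exact_mod_cast hn) hη hη1 ?_
  refine h2.trans (le_of_eq ?_)
  rw [hK1, hK2, hc0]
  ring

end Pool.Agent.AKC
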