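import Pool.Agent.AKU6.En
import Pool.Agent.AKC.Six
import Pool.Agent.AKC.Five2

set_option autoImplicit false

/-!
# Six points: the engine applied to numbered points
-/

namespace Pool.Agent.AKC

open Finset Pool.Agent.MP_0af329_co Pool.Agent.AK Pool.Agent.AKO

/-! ### bounds by finiteness -/

theorem exists_bd {α : Type} [Finite α] (f : α → ℤ) : ∃ b : ℝ, ∀ i, |(f i : ℝ)| ≤ b := by
  obtain ⟨b, hb⟩ := (Set.finite_range fun i => |(f i : ℝ)|).bddAbove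
  exact ⟨b, fun i => hb ⟨i, rfl⟩⟩

/-- four states below 8 -/
def L4 (s : AKU6.S4) : Prop := s.a < 8 ∧ s.b < 8 ∧ s.c < 8 ∧ s.d < 8

/-- six states below 8 -/
def L6 (f : AKU6.S6) : Prop := f.e < 8 ∧ f.g < 8 ∧ f.h < 8 ∧ f.u < 8 ∧ f.v < 8 ∧ f.w < 8

def to4 (i : Fin 4 → Fin 8) : AKU6.S4 := ⟨i 0, i 1, i 2, i 3⟩

def to6 (i : Fin 6 → Fin 8) : AKU6.S6 := ⟨i 0, i 1, i 2, i 3, i 4, i 5⟩

theorem to4_surj {s : AKU6.S4} (h : L4 s) : ∃ i, to4 i = s :=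
  ⟨![⟨s.a, h.1⟩, ⟨s.b, h.2.1⟩, ⟨s.c, h.2.2.1⟩, ⟨s.d, h.2.2.2⟩], rfl⟩

theorem to6_surj {f : AKU6.S6} (h : L6 f) : ∃ i, to6 i = f :=
  ⟨![⟨f.e, h.1⟩, ⟨f.g, h.2.1⟩, ⟨f.h, h.2.2.1⟩, ⟨f.u, h.2.2.2.1⟩, ⟨f.v, h.2.2.2.2.1⟩,
    ⟨f.w, h.2.2.2.2.2⟩], rfl⟩

/-- all bounds of a certificate -/
structure Bds (C : AKU6.Ce) (β : ℝ) : Prop where
  Q : ∀ s f g, L4 s → L6 f → L6 g → |((AKU6.q1 C s f g +
    AKU6.q1 C (AKU6.m4 1 s) (AKU6.m6 1 f) (AKU6.m6 1 g) : ℤ) : ℝ)| ≤ β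
  M : ∀ k < 4, ∀ s f, L4 s → L6 f → |((AKU6.m1 C k s f +
    AKU6.m1 C k (AKU6.m4 1 s) (AKU6.m6 1 f) : ℤ) : ℝ)| ≤ β
  D : ∀ k < 4, ∀ s, L4 s → |((AKU6.d1 C k s + AKU6.d1 C k (AKU6.m4 1 s) : ℤ) : ℝ)| ≤ β
  B : ∀ a < 4096, ∀ b < 4096,
    |((AKY.Qc C.LB (AKY.lb AKU5.IX a) (AKY.lb AKU5.IX b) : ℤ) : ℝ)| ≤ β
  z : 0 ≤ β

theorem exists_Bds (C : AKU6.Ce) : ∃ β, Bds C β := by
  obtain ⟨b1, h1⟩ := exists_bd fun i : (Fin 4 → Fin 8) × (Fin 6 → Fin 8) × (Fin 6 → Fin 8) =>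
    AKU6.q1 C (to4 i.1) (to6 i.2.1) (to6 i.2.2) +
      AKU6.q1 C (AKU6.m4 1 (to4 i.1)) (AKU6.m6 1 (to6 i.2.1)) (AKU6.m6 1 (to6 i.2.2))
  obtain ⟨b2, h2⟩ := exists_bd fun i : Fin 4 × (Fin 4 → Fin 8) × (Fin 6 → Fin 8) =>
    AKU6.m1 C i.1 (to4 i.2.1) (to6 i.2.2) +
      AKU6.m1 C i.1 (AKU6.m4 1 (to4 i.2.1)) (AKU6.m6 1 (to6 i.2.2))
  obtain ⟨b3, h3⟩ := exists_bd fun i : Fin 4 × (Fin 4 → Fin 8) =>
    AKU6.d1 C i.1 (to4 i.2) + AKU6.d1 C i.1 (AKU6.m4 1 (to4 i.2))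
  obtain ⟨b4, h4⟩ := exists_bd fun i : Fin 4096 × Fin 4096 =>
    AKY.Qc C.LB (AKY.lb AKU5.IX i.1) (AKY.lb AKU5.IX i.2)
  refine ⟨max (max b1 b2) (max (max b3 b4) 0), ?_, ?_, ?_, ?_, ?_⟩
  · intro s f g hs hf hg
    obtain ⟨i, rfl⟩ := to4_surj hs
    obtain ⟨j, rfl⟩ := to6_surj hf
    obtain ⟨k, rfl⟩ := to6_surj hg
    exact (h1 ⟨i, j, k⟩).trans ((le_max_left _ _).trans (le_max_left _ _))
  · intro k hk s f hs hf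
    obtain ⟨i, rfl⟩ := to4_surj hs
    obtain ⟨j, rfl⟩ := to6_surj hf
    exact (h2 ⟨⟨k, hk⟩, i, j⟩).trans ((le_max_right _ _).trans (le_max_left _ _))
  · intro k hk s hs
    obtain ⟨i, rfl⟩ := to4_surj hs
    exact (h3 ⟨⟨k, hk⟩, i⟩).trans
      ((le_max_left _ _).trans ((le_max_left _ _).trans (le_max_right _ _)))
  · intro a ha b hb
    exact (h4 ⟨⟨a, ha⟩, ⟨b, hb⟩⟩).trans
      ((le_max_right _ _).trans ((le_max_left _ _).trans (le_max_right _ _)))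
  · exact (le_max_right _ _).trans (le_max_right _ _)

variable {S : Finset Pt} {n : ℕ}

/-- the configuration of numbered points -/
noncomputable def G6 (e : Fin n ≃ S) : AKU6.Cfg (Fin n) := ⟨ste e⟩

/-- the configuration of six points -/
noncomputable def G6x (e : Fin n ≃ S) (x : Fin 6 → Fin n) : AKU6.Cfg (Fin 6) :=
  ⟨fun i j k => ste e (x i) (x j) (x k)⟩

theorem sx_eq : ∀ t < 8, AKU6.sx t = AKG.rev (AKG.rotd t) := by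
  intro t ht
  interval_cases t <;> decide

variable {e : Fin n ≃ S}

theorem G6_ok (h : AKG.GN (X S) (Y S)) : (G6 e).Ok AKG.TAB where
  lt a b c _ _ _ := ste_lt e a b c
  sw a b c h1 h2 h3 := by
    show ste e a c b = AKU5.sw (ste e a b c)
    rw [sw_eq _ (ste_lt e a b c), ste_rev h h1 h3 h2]
  sx a b c h1 h2 h3 := by
    show ste e b a c = AKU6.sx (ste e a b c)
    rw [sx_eq _ (ste_lt e a b c), ← ste_rot h h1 h3 h2, ste_rev h h3 h2.symm h1.symm]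
  tab p hp := by
    obtain ⟨h1, h2, h3, h4, h5, h6⟩ := hp
    show AKG.TAB.testBit (AKU5.cd _ _ _ _) = true
    rw [cd_eq]
    exact h.mem (e.injective.ne h1) (e.injective.ne h2) (e.injective.ne h3)
      (e.injective.ne h4) (e.injective.ne h5) (e.injective.ne h6)

theorem G6x_ok (h : AKG.GN (X S) (Y S)) {x : Fin 6 → Fin n} (hx : Function.Injective x) :
    (G6x e x).Ok AKG.TAB where
  lt a b c h1 h2 h3 := (G6_ok (e := e) h).lt _ _ _ (hx.ne h1) (hx.ne h2) (hx.ne h3)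
  sw a b c h1 h2 h3 := (G6_ok (e := e) h).sw _ _ _ (hx.ne h1) (hx.ne h2) (hx.ne h3)
  sx a b c h1 h2 h3 := (G6_ok (e := e) h).sx _ _ _ (hx.ne h1) (hx.ne h2) (hx.ne h3)
  tab p hp := by
    obtain ⟨h1, h2, h3, h4, h5, h6⟩ := hp
    exact (G6_ok (e := e) h).tab ⟨x p.a, x p.b, x p.c, x p.d⟩
      ⟨hx.ne h1, hx.ne h2, hx.ne h3, hx.ne h4, hx.ne h5, hx.ne h6⟩

/-- the multipliers of a certificate -/
noncomputable def mul6 (e : Fin n ≃ S) (C : AKU6.Ce) : Mul6 n where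
  Q a b c d y z := (AKU6.TQ C (G6 e) ⟨a, b, c, d⟩ y z : ℝ)
  M k a b c d y := (AKU6.TM C (G6 e) k ⟨a, b, c, d⟩ y : ℝ)
  D k a b c d := (AKU6.TD C (G6 e) k ⟨a, b, c, d⟩ : ℝ)
  B a b c x y := (AKU6.TB C (G6 e) a b c x y : ℝ)

variable {C : AKU6.Ce} {w : ℕ → ℤ}

theorem co_L4 (p : AKU6.P4 (Fin n)) : L4 ((G6 e).co p) :=
  ⟨ste_lt .., ste_lt .., ste_lt .., ste_lt ..⟩

theorem fl_L6 (p : AKU6.P4 (Fin n)) (y : Fin n) : L6 ((G6 e).fl p y) :=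
  ⟨ste_lt .., ste_lt .., ste_lt .., ste_lt .., ste_lt .., ste_lt ..⟩

theorem c4_lt (a b c y : Fin n) : (G6 e).c4 a b c y < 4096 := by
  have h1 : ste e a b c < 8 := ste_lt ..
  have h2 : ste e a b y < 8 := ste_lt ..
  have h3 : ste e a c y < 8 := ste_lt ..
  have h4 : ste e b c y < 8 := ste_lt ..
  show AKU5.cd (ste e a b c) (ste e a b y) (ste e a c y) (ste e b c y) < 4096
  rw [cd_eq]
  omega

theorem q1_psd (s : AKU6.S4) {κ : Type} [Fintype κ] (f : κ → AKU6.S6) :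
    0 ≤ ∑ y, ∑ z, AKU6.q1 C s (f y) (f z) := by
  unfold AKU6.q1
  split_ifs
  · exact AKY.Qc_psd _ _
  · simp

theorem m1_nonneg (k : ℕ) (s : AKU6.S4) (f : AKU6.S6) : 0 ≤ AKU6.m1 C k s f := by
  unfold AKU6.m1
  split_ifs
  · exact Int.natCast_nonneg _
  · exact le_rfl

theorem TM_zero {k : ℕ} {p : AKU6.P4 (Fin n)} (h : AKU6.fs ((G6 e).co p) k % 4 ≠ 0)
    (hl : AKU6.fs ((G6 e).co p) k < 8) (y : Fin n) : AKU6.TM C (G6 e) k p y = 0 := by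
  unfold AKU6.TM AKU6.m1
  rw [if_neg (fun g => h g.2), if_neg, add_zero]
  rintro ⟨-, g⟩
  rw [AKU6.fs_mir, AKU6.mi_mod hl] at g
  exact h g

theorem d1_sum {tab : ℕ} (hR : ∀ r < 15, AKU6.RF C tab r) (s : AKU6.S4) :
    0 ≤ AKU6.d1 C 0 s + AKU6.d1 C 1 s + AKU6.d1 C 2 s + AKU6.d1 C 3 s := by
  unfold AKU6.d1
  split_ifs with h
  · have h1 := (hR _ h).d
    have h2 : ((4 * C.dO : ℕ) : ℤ) ≤ ((AKU6.dk C (AKU6.cls C s) 0 + AKU6.dk C (AKU6.cls C s) 1 +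
      (AKU6.dk C (AKU6.cls C s) 2 + AKU6.dk C (AKU6.cls C s) 3) : ℕ) : ℤ) := by exact_mod_cast h1
    push_cast at h2
    linarith
  · simp

theorem ok6 {β : ℝ} (hβ : Bds C β) {tab : ℕ} (hR : ∀ r < 15, AKU6.RF C tab r) :
    Ok6 e (mul6 e C) β where
  Q a b c d _ := by
    have h1 := q1_psd (C := C) ((G6 e).co ⟨a, b, c, d⟩) fun y => (G6 e).fl ⟨a, b, c, d⟩ y
    have h2 := q1_psd (C := C) (AKU6.m4 1 ((G6 e).co ⟨a, b, c, d⟩))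
      fun y => AKU6.m6 1 ((G6 e).fl ⟨a, b, c, d⟩ y)
    have h3 : 0 ≤ ∑ y, ∑ z, AKU6.TQ C (G6 e) ⟨a, b, c, d⟩ y z := by
      unfold AKU6.TQ
      simp only [sum_add_distrib]
      exact add_nonneg h1 h2
    have h4 : (0 : ℝ) ≤ ((∑ y, ∑ z, AKU6.TQ C (G6 e) ⟨a, b, c, d⟩ y z : ℤ) : ℝ) := by
      exact_mod_cast h3
    push_cast at h4
    exact h4
  bQ a b c d y z _ := hβ.Q _ _ _ (co_L4 _) (fl_L6 _ _) (fl_L6 _ _)
  M k _ a b c d y _ := by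
    have h : 0 ≤ AKU6.TM C (G6 e) k ⟨a, b, c, d⟩ y := add_nonneg (m1_nonneg ..) (m1_nonneg ..)
    show (0 : ℝ) ≤ (AKU6.TM C (G6 e) k ⟨a, b, c, d⟩ y : ℝ)
    exact_mod_cast h
  bM k hk a b c d y _ := (le_abs_self _).trans (hβ.M k hk _ _ (co_L4 _) (fl_L6 _ _))
  a0 a b c d _ h y := by
    show ((AKU6.TM C (G6 e) 0 ⟨a, b, c, d⟩ y : ℤ) : ℝ) = 0
    rw [TM_zero (k := 0) (p := ⟨a, b, c, d⟩) h (ste_lt ..), Int.cast_zero]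
  a1 a b c d _ h y := by
    show ((AKU6.TM C (G6 e) 1 ⟨a, b, c, d⟩ y : ℤ) : ℝ) = 0
    rw [TM_zero (k := 1) (p := ⟨a, b, c, d⟩) h (ste_lt ..), Int.cast_zero]
  a2 a b c d _ h y := by
    show ((AKU6.TM C (G6 e) 2 ⟨a, b, c, d⟩ y : ℤ) : ℝ) = 0
    rw [TM_zero (k := 2) (p := ⟨a, b, c, d⟩) h (ste_lt ..), Int.cast_zero]
  a3 a b c d _ h y := by
    show ((AKU6.TM C (G6 e) 3 ⟨a, b, c, d⟩ y : ℤ) : ℝ) = 0
    rw [TM_zero (k := 3) (p := ⟨a, b, c, d⟩) h (ste_lt ..), Int.cast_zero]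
  D a b c d _ := by
    have h1 := d1_sum hR ((G6 e).co ⟨a, b, c, d⟩)
    have h2 := d1_sum hR (AKU6.m4 1 ((G6 e).co ⟨a, b, c, d⟩))
    have h3 : 0 ≤ AKU6.TD C (G6 e) 0 ⟨a, b, c, d⟩ + AKU6.TD C (G6 e) 1 ⟨a, b, c, d⟩ +
        AKU6.TD C (G6 e) 2 ⟨a, b, c, d⟩ + AKU6.TD C (G6 e) 3 ⟨a, b, c, d⟩ := by
      unfold AKU6.TD
      linarith
    have h4 : (0 : ℝ) ≤ ((AKU6.TD C (G6 e) 0 ⟨a, b, c, d⟩ + AKU6.TD C (G6 e) 1 ⟨a, b, c, d⟩ +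
        AKU6.TD C (G6 e) 2 ⟨a, b, c, d⟩ + AKU6.TD C (G6 e) 3 ⟨a, b, c, d⟩ : ℤ) : ℝ) := by
      exact_mod_cast h3
    push_cast at h4
    exact h4
  bD k hk a b c d _ := hβ.D k hk _ (co_L4 _)
  B a b c _ := by
    have h3 : 0 ≤ ∑ x, ∑ y, AKU6.TB C (G6 e) a b c x y := by
      unfold AKU6.TB
      split_ifs
      · exact AKY.Qc_psd C.LB fun y => AKY.lb AKU5.IX ((G6 e).c4 a b c y)
      · simp
    have h4 : (0 : ℝ) ≤ ((∑ x, ∑ y, AKU6.TB C (G6 e) a b c x y : ℤ) : ℝ) := by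
      exact_mod_cast h3
    push_cast at h4
    exact h4
  bB a b c x y _ := by
    show |((AKU6.TB C (G6 e) a b c x y : ℤ) : ℝ)| ≤ β
    unfold AKU6.TB
    split_ifs
    · exact hβ.B _ (c4_lt ..) _ (c4_lt ..)
    · rw [Int.cast_zero, abs_zero]
      exact hβ.z
  aB a b c _ h x y := by
    show ((AKU6.TB C (G6 e) a b c x y : ℤ) : ℝ) = 0
    have h' : ¬ (G6 e).st a b c % 4 = 0 := h
    unfold AKU6.TB
    rw [if_neg h', Int.cast_zero]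

theorem wt_eq {a b c y : Fin n} (h : Fr a b c y) :
    ((AKU6.wt C w (G6 e) a b c y : ℤ) : ℝ) = wT e w C.th a b c y := by
  unfold wT AKU6.wt
  rw [if_pos h]
  have : (G6 e).c4 a b c y = cde e a b c y := by
    show AKU5.cd _ _ _ _ = _
    rw [cd_eq]
    rfl
  rw [this]
  push_cast
  rfl

theorem dn_eq {u y z : Fin n} (h1 : u ≠ y) (h2 : u ≠ z) (h3 : y ≠ z) :
    dn e u y z = 4 - 9 * (AKY.na (ste e u y z) : ℝ) := by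
  unfold dn
  rw [AKG.Nf_na (e.injective.ne h1) (e.injective.ne h3) (e.injective.ne h2)]
  rfl

/-- the row of the engine -/
theorem R6_eq {a b c d y z : Fin n} (hy : y ≠ a ∧ y ≠ b ∧ y ≠ c ∧ y ≠ d)
    (hz : z ≠ a ∧ z ≠ b ∧ z ≠ c ∧ z ≠ d) (hyz : y ≠ z) :
    R6 e w C.th (mul6 e C) a b c d y z = ((AKU6.T C w (G6 e) ⟨a, b, c, d⟩ y z : ℤ) : ℝ) := by
  obtain ⟨y1, y2, y3, y4⟩ := hy
  obtain ⟨z1, z2, z3, z4⟩ := hz
  unfold R6 R6a AKU6.T mw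
  rw [dn_eq y1.symm z1.symm hyz, dn_eq y2.symm z2.symm hyz, dn_eq y3.symm z3.symm hyz,
    dn_eq y4.symm z4.symm hyz, ← wt_eq (C := C) ⟨y2, y3, y4⟩, ← wt_eq (C := C) ⟨z2, z3, z4⟩,
    ← wt_eq (C := C) ⟨y1, y3, y4⟩, ← wt_eq (C := C) ⟨z1, z3, z4⟩,
    ← wt_eq (C := C) ⟨y1, y2, y4⟩, ← wt_eq (C := C) ⟨z1, z2, z4⟩,
    ← wt_eq (C := C) ⟨y1, y2, y3⟩, ← wt_eq (C := C) ⟨z1, z2, z3⟩]
  push_cast
  rfl

/-- **The unrooted part with six points**: `hF` = the conclusion of the checks -/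
theorem U6_of {cc : ℤ} {tab : ℕ} (hR : ∀ r < 15, AKU6.RF C tab r)
    (hF : ∀ G : AKU6.Cfg (Fin 6), G.Ok AKY.TAB →
      ∑ s : Equiv.Perm (Fin 6), AKU6.T C w G ⟨s 0, s 1, s 2, s 3⟩ (s 4) (s 5) ≤ -C.og)
    (hog : 0 < C.og) (hlt : 3 * dens (Set.Ici (Real.pi / 2)) ≤ 4 / 9) :
    ∃ η0 : ℝ, 0 < η0 ∧ ∃ n0 : ℕ, ∀ (S : Finset Pt) (η : ℝ), Near S η → 0 ≤ η → η ≤ η0 →
      n0 ≤ Fintype.card S →
      ¬ ∀ r, AKG.AcT (X S) (Y S) r →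
        (C.th : ℤ) * Fintype.card S ≤ AKG.Ph (X S) (Y S) w r + cc := by
  obtain ⟨β, hβ⟩ := exists_Bds C
  refine six_near (w := w) (th := (C.th : ℤ)) (og := (C.og : ℝ)) (β := β) (by exact_mod_cast hog)
    hlt ?_
  intro S n e hG
  refine ⟨mul6 e C, ok6 hβ hR, fun x hx => ?_⟩
  have hok := G6x_ok (e := e) hG hx
  rw [← TAB_AKY] at hok
  have h1 := hF _ hok
  have h2 : ((∑ s : Equiv.Perm (Fin 6), AKU6.T C w (G6x e x) ⟨s 0, s 1, s 2, s 3⟩ (s 4) (s 5) :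
      ℤ) : ℝ) ≤ -(C.og : ℝ) := by exact_mod_cast h1
  refine le_trans (le_of_eq ?_) h2
  push_cast
  refine sum_congr rfl fun σ _ => ?_
  have hi : Function.Injective (x ∘ σ) := hx.comp σ.injective
  have h3 := R6_eq (e := e) (C := C) (w := w) (a := x (σ 0)) (b := x (σ 1)) (c := x (σ 2))
    (d := x (σ 3)) (y := x (σ 4)) (z := x (σ 5))
    ⟨hi.ne (by decide : (4 : Fin 6) ≠ 0), hi.ne (by decide : (4 : Fin 6) ≠ 1),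
      hi.ne (by decide : (4 : Fin 6) ≠ 2), hi.ne (by decide : (4 : Fin 6) ≠ 3)⟩
    ⟨hi.ne (by decide : (5 : Fin 6) ≠ 0), hi.ne (by decide : (5 : Fin 6) ≠ 1),
      hi.ne (by decide : (5 : Fin 6) ≠ 2), hi.ne (by decide : (5 : Fin 6) ≠ 3)⟩
    (hi.ne (by decide : (4 : Fin 6) ≠ 5))
  exact h3

/-- **The unrooted part with six points** in the form of a certificate -/
theorem U6_cert {cc : ℤ} (H : AKU6.Hy C AKY.TAB w) (hT : AKU6.okT C AKY.TAB = true)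
    (hGr : ∀ a < 8, ∀ e < 8, AKU6.okG C AKY.TAB a e = true)
    (hR : ∀ r < 15, AKU6.okRk C AKY.TAB r = true)
    (hI : ∀ r < 15, ∀ i < (AKU6.rk C r).L.length, AKU6.chkI C r i = true) (hog : 0 < C.og)
    (hlt : 3 * dens (Set.Ici (Real.pi / 2)) ≤ 4 / 9) :
    ∃ η0 : ℝ, 0 < η0 ∧ ∃ n0 : ℕ, ∀ (S : Finset Pt) (η : ℝ), Near S η → 0 ≤ η → η ≤ η0 →
      n0 ≤ Fintype.card S →
      ¬ ∀ r, AKG.AcT (X S) (Y S) r →
        (C.th : ℤ) * Fintype.card S ≤ AKG.Ph (X S) (Y S) w r + cc :=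
  U6_of H.R (fun _ hok => AKU6.engine6 H hT hGr hR hI hok) hog hlt

end Pool.Agent.AKC
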