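import Pool.Agent.AKH.Ray

set_option autoImplicit false

/-!
# The view from a point: all other points in cyclic order, with the quarter turn map
-/

namespace Pool.Agent.AKC

open Finset Classical Pool.Agent.AK Pool.Agent.AKH

variable {ι : Type*}

/-- the other points in cyclic order `e` with directions `F` and quarter turn map `I` -/
structure View (x y : ι → ℝ) (v : ι) (N : ℤ) (e : ℤ → ι) (F : ℤ → ℝ) (I : ℤ → ℤ) : Prop where
  pos : 0 < N
  mono : StrictMono F
  per : ∀ k, F (k + N) = F k + 2 * Real.pi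
  eper : ∀ k, e (k + N) = e k
  ne : ∀ k, e k ≠ v
  inj : ∀ i j, i < j → j < i + N → e i ≠ e j
  surj : ∀ p, p ≠ v → ∀ k, ∃ i, k < i ∧ i ≤ k + N ∧ e i = p
  win : ∀ k j, j ≤ I k ↔ F j < F k + Real.pi / 2
  ang : ∀ i j, ∃ c : ℝ, 0 < c ∧ cr x y v (e i) (e j) = c * Real.sin (F j - F i) ∧
    dt x y v (e i) (e j) = c * Real.cos (F j - F i)

theorem exists_view [Fintype ι] (x y : ι → ℝ)
    (hg : ∀ v p q : ι, v ≠ p → p ≠ q → v ≠ q → cr x y v p q ≠ 0) (v : ι)
    (hd : ∀ p, p ≠ v → x p ≠ x v ∨ y p ≠ y v) (hc : 2 ≤ Fintype.card ι) :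
    ∃ (e : ℤ → ι) (F : ℤ → ℝ) (I : ℤ → ℤ), View x y v ((Fintype.card ι : ℤ) - 1) e F I := by
  set A : Finset ℝ := ((univ : Finset ι).erase v).image (th x y v) with hA
  have hinj := th_inj x y hg v
  have hcA : #A = Fintype.card ι - 1 := by
    rw [hA, card_image_of_injOn hinj, card_erase_of_mem (mem_univ v), card_univ]
  have hcZ : ((Fintype.card ι : ℤ) - 1) = (#A : ℤ) := by omega
  have hAr : ∀ s ∈ A, -Real.pi < s ∧ s ≤ Real.pi := by
    intro s hs
    rw [hA, mem_image] at hs
    obtain ⟨p, -, rfl⟩ := hs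
    exact ⟨Complex.neg_pi_lt_arg _, Complex.arg_le_pi _⟩
  obtain ⟨F, hF, hFp, hF1, hF2, -⟩ := per_list A hAr (by omega)
  rw [hcZ]
  set N : ℤ := (#A : ℤ) with hN
  have hN0 : 0 < N := by omega
  have hpi := Real.pi_pos
  have hex : ∀ k : ℤ, ∃ i : ℤ, F i < F k + Real.pi / 2 ∧ ∀ j, F j < F k + Real.pi / 2 → j ≤ i := by
    intro k
    apply Int.exists_greatest_of_bdd
    · refine ⟨k + N, fun z hz => ?_⟩
      by_contra h
      push Not at h
      have h1 := hF h
      rw [hFp] at h1
      linarith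
    · exact ⟨k, by linarith⟩
  choose I hI1 hI2 using hex
  have hI : ∀ k j, j ≤ I k ↔ F j < F k + Real.pi / 2 := fun k j =>
    ⟨fun h => lt_of_le_of_lt (hF.monotone h) (hI1 k), hI2 k j⟩
  choose M hM using hF1
  have hpt : ∀ k, ∃ p : ι, p ≠ v ∧ th x y v p = F k + 2 * Real.pi * M k := by
    intro k
    have h := hM k
    rw [hA, mem_image] at h
    obtain ⟨p, hp, h1⟩ := h
    exact ⟨p, (mem_erase.1 hp).1, h1⟩
  choose e he1 he2 using hpt
  have huniq : ∀ p q : ι, p ≠ v → q ≠ v → ∀ m : ℤ, th x y v p = th x y v q + 2 * Real.pi * m →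
      p = q := by
    intro p q hp hq m h
    have h1 := hAr _ (mem_image_of_mem (th x y v) (mem_erase.2 ⟨hp, mem_univ p⟩))
    have h2 := hAr _ (mem_image_of_mem (th x y v) (mem_erase.2 ⟨hq, mem_univ q⟩))
    have h3 : m = 0 := by
      by_contra h3
      rcases lt_or_gt_of_ne h3 with h4 | h4
      · have h5 : (m : ℝ) ≤ -1 := by
          have : m ≤ -1 := by omega
          exact_mod_cast this
        nlinarith
      · have h5 : (1 : ℝ) ≤ m := by
          have : (1 : ℤ) ≤ m := by omega
          exact_mod_cast this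
        nlinarith
    rw [h3, Int.cast_zero, mul_zero, add_zero] at h
    exact hinj (by simpa using hp) (by simpa using hq) h
  have hnr : ∀ k, 0 < nr x y v (e k) := by
    intro k
    refine norm_pos_iff.2 fun h => ?_
    have h1 := congrArg Complex.re h
    have h2 := congrArg Complex.im h
    simp only [Complex.zero_re, Complex.zero_im] at h1 h2
    rcases hd _ (he1 k) with h3 | h3
    · exact h3 (by linarith)
    · exact h3 (by linarith)
  have heper : ∀ k, e (k + N) = e k := by
    intro k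
    refine huniq _ _ (he1 _) (he1 _) (M (k + N) + 1 - M k) ?_
    rw [he2, he2, hFp]
    push_cast
    ring
  have heperm : ∀ (k m : ℤ), e (k + N * m) = e k := by
    intro k m
    induction m using Int.induction_on with
    | zero => simp
    | succ i ih => rw [show k + N * ((i : ℤ) + 1) = k + N * i + N by ring, heper, ih]
    | pred i ih =>
      rw [← heper (k + N * (-(i : ℤ) - 1)), show k + N * (-(i : ℤ) - 1) + N = k + N * (-(i : ℤ)) by
        ring, ih]
  refine ⟨e, F, I, ⟨hN0, hF, hFp, heper, he1, ?_, ?_, hI, ?_⟩⟩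
  · intro i j h1 h2 h
    have h3 := he2 i
    rw [h, he2 j] at h3
    have h4 := hF h1
    have h5 := hF h2
    rw [hFp] at h5
    have h6 : F j - F i = 2 * Real.pi * ((M i - M j : ℤ) : ℝ) := by
      push_cast
      linarith
    have h7 : 0 < ((M i - M j : ℤ) : ℝ) := by
      by_contra h8
      push Not at h8
      nlinarith
    have h8 : ((M i - M j : ℤ) : ℝ) < 1 := by
      by_contra h8
      push Not at h8
      nlinarith
    have h9 : 0 < M i - M j := by exact_mod_cast h7
    have h10 : M i - M j < 1 := by exact_mod_cast h8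
    omega
  · intro p hp k
    obtain ⟨k', hk'⟩ := hF2 _ (mem_image_of_mem (th x y v) (mem_erase.2 ⟨hp, mem_univ p⟩)) 0
    have h1 : e k' = p := by
      refine huniq _ _ (he1 _) hp (M k') ?_
      rw [he2, hk']
      simp
    refine ⟨k + 1 + (k' - k - 1) % N, ?_, ?_, ?_⟩
    · have := Int.emod_nonneg (k' - k - 1) hN0.ne'
      omega
    · have := Int.emod_lt_of_pos (k' - k - 1) hN0
      omega
    · have h2 := Int.emod_add_mul_ediv (k' - k - 1) N
      have h3 : k' = k + 1 + (k' - k - 1) % N + N * ((k' - k - 1) / N) := by omega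
      rw [← h1]
      conv_rhs => rw [h3]
      rw [heperm]
  · intro i j
    refine ⟨nr x y v (e i) * nr x y v (e j), mul_pos (hnr i) (hnr j), ?_, ?_⟩
    · rw [cr_eq, he2, he2]
      congr 1
      rw [show F j + 2 * Real.pi * (M j : ℝ) - (F i + 2 * Real.pi * (M i : ℝ)) =
        (F j - F i) + ((M j - M i : ℤ) : ℝ) * (2 * Real.pi) by push_cast; ring]
      exact Real.sin_add_int_mul_two_pi _ _
    · rw [dt_eq, he2, he2]
      congr 1
      rw [show F j + 2 * Real.pi * (M j : ℝ) - (F i + 2 * Real.pi * (M i : ℝ)) =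
        (F j - F i) + ((M j - M i : ℤ) : ℝ) * (2 * Real.pi) by push_cast; ring]
      exact Real.cos_add_int_mul_two_pi _ _

namespace View

variable {x y : ι → ℝ} {v : ι} {N : ℤ} {e : ℤ → ι} {F : ℤ → ℝ} {I : ℤ → ℤ}

/-- the view with another starting ray -/
theorem shift (h : View x y v N e F I) (s : ℤ) :
    View x y v N (fun k => e (k + s)) (fun k => F (k + s)) (fun k => I (k + s) - s) := by
  refine ⟨h.pos, fun a b hab => h.mono (by omega), ?_, ?_, fun k => h.ne _, ?_, ?_, ?_, ?_⟩
  · intro k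
    rw [show k + N + s = k + s + N by ring, h.per]
  · intro k
    rw [show k + N + s = k + s + N by ring, h.eper]
  · intro i j h1 h2
    exact h.inj _ _ (by omega) (by omega)
  · intro p hp k
    obtain ⟨i, h1, h2, h3⟩ := h.surj p hp (k + s)
    exact ⟨i - s, by omega, by omega, by rw [← h3]; congr 1; omega⟩
  · intro k j
    rw [← h.win (k + s) (j + s)]
    omega
  · intro i j
    exact h.ang _ _

theorem le_I (h : View x y v N e F I) (k : ℤ) : k ≤ I k :=
  (h.win k k).2 (by linarith [Real.pi_pos])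

theorem I_mono (h : View x y v N e F I) : Monotone I := by
  intro k k' hk
  rw [h.win]
  have h1 := (h.win k (I k)).1 le_rfl
  have h2 := h.mono.monotone hk
  linarith

theorem I_per (h : View x y v N e F I) (k : ℤ) : I (k + N) = I k + N := by
  apply le_antisymm
  · have h1 := (h.win (k + N) (I (k + N))).1 le_rfl
    rw [h.per] at h1
    have h2 : I (k + N) - N ≤ I k := by
      rw [h.win]
      have h3 := h.per (I (k + N) - N)
      rw [sub_add_cancel] at h3
      linarith
    omega
  · rw [h.win, h.per, h.per]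
    linarith [(h.win k (I k)).1 le_rfl]

theorem F_I (h : View x y v N e F I) (k : ℤ) : F (I k) < F k + Real.pi / 2 :=
  (h.win k (I k)).1 le_rfl

theorem F_of_lt (h : View x y v N e F I) {k j : ℤ} (hj : I k < j) : F k + Real.pi / 2 ≤ F j := by
  by_contra h1
  push Not at h1
  have := (h.win k j).2 h1
  omega

theorem I4 (h : View x y v N e F I) (k : ℤ) : I (I (I (I k))) < k + N := by
  rw [← h.mono.lt_iff_lt, h.per]
  linarith [h.F_I k, h.F_I (I k), h.F_I (I (I k)), h.F_I (I (I (I k)))]

theorem diff (h : View x y v N e F I) {i j : ℤ} (hij : i < j) (hj : j < i + N) :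
    0 < F j - F i ∧ F j - F i < 2 * Real.pi := by
  have h1 := h.mono hij
  have h2 := h.mono hj
  rw [h.per] at h2
  constructor <;> linarith

private theorem sin_pos_iff' {t : ℝ} (h0 : 0 < t) (h1 : t < 2 * Real.pi) :
    0 < Real.sin t ↔ t < Real.pi := by
  constructor
  · intro h
    by_contra h2
    push Not at h2
    have h3 : Real.sin (t - 2 * Real.pi) ≤ 0 :=
      Real.sin_nonpos_of_nonpos_of_neg_pi_le (by linarith) (by linarith)
    rw [Real.sin_sub_two_pi] at h3
    linarith
  · intro h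
    exact Real.sin_pos_of_pos_of_lt_pi h0 h

private theorem sin_neg_iff' {t : ℝ} (h0 : 0 < t) (h1 : t < 2 * Real.pi) :
    Real.sin t < 0 ↔ Real.pi < t := by
  constructor
  · intro h
    by_contra h2
    push Not at h2
    have h3 : 0 ≤ Real.sin t := Real.sin_nonneg_of_nonneg_of_le_pi h0.le h2
    linarith
  · intro h
    have h3 : Real.sin (t - 2 * Real.pi) < 0 :=
      Real.sin_neg_of_neg_of_neg_pi_lt (by linarith) (by linarith)
    rwa [Real.sin_sub_two_pi] at h3

private theorem cos_pos_iff' {t : ℝ} (h0 : 0 < t) (h1 : t < 2 * Real.pi) :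
    0 < Real.cos t ↔ t < Real.pi / 2 ∨ 3 * Real.pi / 2 < t := by
  constructor
  · intro h
    by_contra h2
    push Not at h2
    have h3 : Real.cos t ≤ 0 :=
      Real.cos_nonpos_of_pi_div_two_le_of_le h2.1 (by linarith [h2.2])
    linarith
  · rintro (h | h)
    · exact Real.cos_pos_of_mem_Ioo ⟨by linarith, h⟩
    · have h3 : 0 < Real.cos (t - 2 * Real.pi) :=
        Real.cos_pos_of_mem_Ioo ⟨by linarith, by linarith⟩
      rwa [Real.cos_sub_two_pi] at h3

private theorem cos_neg_iff' {t : ℝ} (h0 : 0 < t) (h1 : t < 2 * Real.pi) :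
    Real.cos t < 0 ↔ Real.pi / 2 < t ∧ t < 3 * Real.pi / 2 := by
  constructor
  · intro h
    constructor
    · by_contra h2
      push Not at h2
      have h3 : 0 ≤ Real.cos t := Real.cos_nonneg_of_mem_Icc ⟨by linarith, h2⟩
      linarith
    · by_contra h2
      push Not at h2
      have h3 : 0 ≤ Real.cos (t - 2 * Real.pi) :=
        Real.cos_nonneg_of_mem_Icc ⟨by linarith, by linarith⟩
      rw [Real.cos_sub_two_pi] at h3
      linarith
  · intro h
    exact Real.cos_neg_of_pi_div_two_lt_of_lt h.1 (by linarith [h.2])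

variable (h : View x y v N e F I) {i j : ℤ} (hij : i < j) (hj : j < i + N)

include h hij hj

theorem cr_pos : 0 < cr x y v (e i) (e j) ↔ F j - F i < Real.pi := by
  obtain ⟨c, hc, h1, -⟩ := h.ang i j
  obtain ⟨h2, h3⟩ := h.diff hij hj
  rw [h1, mul_pos_iff_of_pos_left hc]
  exact sin_pos_iff' h2 h3

theorem cr_neg : cr x y v (e i) (e j) < 0 ↔ Real.pi < F j - F i := by
  obtain ⟨c, hc, h1, -⟩ := h.ang i j
  obtain ⟨h2, h3⟩ := h.diff hij hj
  rw [h1, mul_neg_iff]
  simp only [hc, not_lt_of_gt hc, true_and, false_and, or_false]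
  exact sin_neg_iff' h2 h3

theorem dt_pos : 0 < dt x y v (e i) (e j) ↔
    F j - F i < Real.pi / 2 ∨ 3 * Real.pi / 2 < F j - F i := by
  obtain ⟨c, hc, -, h1⟩ := h.ang i j
  obtain ⟨h2, h3⟩ := h.diff hij hj
  rw [h1, mul_pos_iff_of_pos_left hc]
  exact cos_pos_iff' h2 h3

theorem dt_neg : dt x y v (e i) (e j) < 0 ↔
    Real.pi / 2 < F j - F i ∧ F j - F i < 3 * Real.pi / 2 := by
  obtain ⟨c, hc, -, h1⟩ := h.ang i j
  obtain ⟨h2, h3⟩ := h.diff hij hj
  rw [h1, mul_neg_iff]
  simp only [hc, not_lt_of_gt hc, true_and, false_and, or_false]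
  exact cos_neg_iff' h2 h3

/-- `e j` is in the quarter turn ahead of `e i` -/
theorem ahead : (0 < cr x y v (e i) (e j) ∧ 0 < dt x y v (e i) (e j)) ↔ j ≤ I i := by
  rw [h.cr_pos hij hj, h.dt_pos hij hj, h.win]
  have := Real.pi_pos
  constructor
  · rintro ⟨h1, h2 | h2⟩ <;> linarith
  · intro h1
    exact ⟨by linarith, Or.inl (by linarith)⟩

/-- `e i` is in the quarter turn ahead of `e j` -/
theorem behind : (cr x y v (e i) (e j) < 0 ∧ 0 < dt x y v (e i) (e j)) ↔ i + N ≤ I j := by
  rw [h.cr_neg hij hj, h.dt_pos hij hj, h.win, h.per]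
  have := Real.pi_pos
  constructor
  · rintro ⟨h1, h2 | h2⟩ <;> linarith
  · intro h1
    exact ⟨by linarith, Or.inr (by linarith)⟩

end View

end Pool.Agent.AKC
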